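import Pool.Agent.Helper93.Linf.Comb2

/-! # AGREE: the topology of `Om` by finite agreement -/

namespace Pool.Agent.Linf

open MeasureTheory Set Filter
open scoped ENNReal Topology

theorem agree_refl (K : ℕ) (u : Om) : agree K u u :=
  ⟨fun _ _ => rfl, fun _ _ _ _ _ _ => rfl⟩

theorem agree_symm {K : ℕ} {u v : Om} (h : agree K u v) : agree K v u :=
  ⟨fun k hk => (h.1 k hk).symm, fun k hk i hi b hb => (h.2 k hk i hi b hb).symm⟩

theorem agree_trans {K : ℕ} {u v w : Om} (h : agree K u v) (h' : agree K v w) : agree K u w :=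
  ⟨fun k hk => (h.1 k hk).trans (h'.1 k hk),
    fun k hk i hi b hb => (h.2 k hk i hi b hb).trans (h'.2 k hk i hi b hb)⟩

theorem agree_mono {K L : ℕ} (hKL : K ≤ L) {u v : Om} (h : agree L u v) : agree K u v := by
  have hell : ell K ≤ ell L := ell_strictMono.monotone hKL
  exact ⟨fun k hk => h.1 k (hk.trans_le hKL),
    fun k hk i hi b hb => h.2 k (hk.trans_le hKL) i (hi.trans_le hell) b (hb.trans_le hell)⟩

/-- the set of points agreeing with `u`, as an intersection of finitely many cylinders -/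
theorem agree_eq (K : ℕ) (u : Om) : {w : Om | agree K w u} =
    (⋂ k ∈ Finset.range K, {w : Om | w.1 k = u.1 k}) ∩
      ⋂ k ∈ Finset.range K, ⋂ i ∈ Finset.range (ell K), ⋂ b ∈ Finset.range (ell K),
        {w : Om | w.2 (k, i, b) = u.2 (k, i, b)} := by
  ext w
  simp only [agree, mem_ofPred_eq, mem_inter_iff, mem_iInter, Finset.mem_range]

theorem clopen_digit (k : ℕ) (c : Bool) : IsClopen {w : Om | w.1 k = c} := by
  have h : Continuous (fun w : Om => w.1 k) := by fun_prop
  exact (isClopen_discrete {c}).preimage h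

theorem clopen_bit (t : ℕ × ℕ × ℕ) (c : Bool) : IsClopen {w : Om | w.2 t = c} := by
  have h : Continuous (fun w : Om => w.2 t) := by fun_prop
  exact (isClopen_discrete {c}).preimage h

theorem agree_isClopen (K : ℕ) (u : Om) : IsClopen {w | agree K w u} := by
  rw [agree_eq]
  refine IsClopen.inter ?_ ?_
  · exact isClopen_biInter_finset (fun k _ => clopen_digit _ _)
  · exact isClopen_biInter_finset (fun k _ => isClopen_biInter_finset
      (fun i _ => isClopen_biInter_finset (fun b _ => clopen_bit _ _)))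

theorem le_ell (k : ℕ) : k ≤ ell k := by unfold ell; omega

theorem exists_agree_of_isOpen {U : Set Om} (hU : IsOpen U) {u : Om} (hu : u ∈ U) :
    ∃ K, ∀ w, agree K w u → w ∈ U := by
  obtain ⟨A, B, hA, hB, huA, huB, hAB⟩ := isOpen_prod_iff.1 hU u.1 u.2 hu
  obtain ⟨I, f, hf, hI⟩ := isOpen_pi_iff.1 hA u.1 huA
  obtain ⟨I', f', hf', hI'⟩ := isOpen_pi_iff.1 hB u.2 huB
  refine ⟨(I.sup id + 1) + (I'.sup (fun t => t.1 + t.2.1 + t.2.2) + 1), fun w hw => ?_⟩
  apply hAB
  constructor
  · apply hI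
    intro k hk
    have h1 : id k ≤ I.sup id := Finset.le_sup hk
    rw [hw.1 k (by simp only [id] at h1; omega)]
    exact (hf k hk).2
  · apply hI'
    rintro t ht
    have h1 : (fun t : ℕ × ℕ × ℕ => t.1 + t.2.1 + t.2.2) t ≤
      I'.sup (fun t => t.1 + t.2.1 + t.2.2) :=
      Finset.le_sup (f := fun t : ℕ × ℕ × ℕ => t.1 + t.2.1 + t.2.2) ht
    obtain ⟨k, i, b⟩ := t
    simp only at h1
    have h2 := le_ell ((I.sup id + 1) + (I'.sup (fun t => t.1 + t.2.1 + t.2.2) + 1))
    rw [hw.2 k (by omega) i (by omega) b (by omega)]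
    exact (hf' _ ht).2

theorem mem_of_agree {E : Set Om} (hE : IsClosed E) {u : Om} (h : ∀ K, ∃ w ∈ E, agree K w u) :
    u ∈ E := by
  by_contra hu
  obtain ⟨K, hK⟩ := exists_agree_of_isOpen hE.isOpen_compl hu
  obtain ⟨w, hwE, hw⟩ := h K
  exact hK w hw hwE

theorem agree_chain {u : ℕ → Om} {K : ℕ → ℕ} (hK : StrictMono K)
    (h : ∀ n, agree (K n) (u (n + 1)) (u n)) (n m : ℕ) (hnm : n ≤ m) :
    agree (K n) (u m) (u n) := by
  induction m, hnm using Nat.le_induction with
  | base => exact agree_refl _ _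
  | succ m hnm ih => exact agree_trans (agree_mono (hK.monotone hnm) (h m)) ih

theorem agree_limit (u : ℕ → Om) (K : ℕ → ℕ) (hK : StrictMono K)
    (h : ∀ n, agree (K n) (u (n + 1)) (u n)) : ∃ w, ∀ n, agree (K n) w (u n) := by
  have hid : ∀ n, n ≤ K n := hK.id_le
  refine ⟨(fun k => (u (k + 1)).1 k, fun t => (u (t.1 + t.2.1 + t.2.2 + 1)).2 t),
    fun n => ⟨fun k hk => ?_, fun k hk i hi b hb => ?_⟩⟩
  · -- compare both with a common later index
    have h1 := agree_chain hK h (k + 1) (max (k + 1) n) (le_max_left _ _)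
    have h2 := agree_chain hK h n (max (k + 1) n) (le_max_right _ _)
    have h3 := hid (k + 1)
    change (u (k + 1)).1 k = (u n).1 k
    rw [← h1.1 k (by omega), h2.1 k hk]
  · have h1 := agree_chain hK h (k + i + b + 1) (max (k + i + b + 1) n) (le_max_left _ _)
    have h2 := agree_chain hK h n (max (k + i + b + 1) n) (le_max_right _ _)
    have h3 := hid (k + i + b + 1)
    have h4 := le_ell (K (k + i + b + 1))
    change (u (k + i + b + 1)).2 (k, i, b) = (u n).2 (k, i, b)
    rw [← h1.2 k (by omega) i (by omega) b (by omega), h2.2 k hk i hi b hb]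

theorem agree_idx {K : ℕ} {u v : Om} (h : agree K u v) {k : ℕ} (hk : k < K) :
    idx u.1 k = idx v.1 k :=
  idx_congr (fun j hj => h.1 j (by omega))

theorem agree_pt {K : ℕ} {u v : Om} (h : agree K u v) {k : ℕ} (hk : k < K) {i : ℕ}
    (hi : i < MM k) : pt u k i = pt v k i := by
  have hell : ell k < ell K := ell_strictMono hk
  have h1 := MM_le_ell k
  apply pt_congr
  intro b hb
  exact h.2 k hk i (by omega) b (by omega)

theorem agree_ys_sub {K : ℕ} {u v : Om} (h : agree K u v) {k : ℕ} (hk : k < K) :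
    ys u ∩ J k ⊆ ys v ∩ J k := by
  rintro a ⟨⟨k', i, hi, rfl⟩, ha⟩
  have hkk : k' = k := by
    by_contra hne
    exact Set.disjoint_left.1 (J_disjoint hne) (pt_mem_J _ k' i) ha
  subst hkk
  refine ⟨⟨k', i, ?_, agree_pt h hk (hi.trans_le (mm_le_MM _ _))⟩, ha⟩
  unfold mm at hi ⊢
  rwa [← agree_idx h hk]

theorem agree_ys {K : ℕ} {u v : Om} (h : agree K u v) {k : ℕ} (hk : k < K) :
    ys u ∩ J k = ys v ∩ J k :=
  Set.Subset.antisymm (agree_ys_sub h hk) (agree_ys_sub (agree_symm h) hk)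

theorem theta_agree (n : ℕ) (x : ℕ → Om) (k : ℕ) (w : Om) :
    agree k (Theta n x k w) (x n) := by
  refine ⟨fun j hj => ?_, fun j hj i _ b _ => ?_⟩
  · simp only [Theta]
    rw [Function.update_of_ne (by omega)]
  · simp only [Theta]
    rw [if_pos hj]

/-- the clopen neighbourhoods of a closed set -/
theorem iInter_agree {E : Set Om} (hE : IsClosed E) :
    ⋂ k : ℕ, {w | ∃ u ∈ E, agree k w u} = E := by
  apply Set.Subset.antisymm
  · intro w hw
    apply mem_of_agree hE
    intro K
    obtain ⟨u, hu, hwu⟩ := mem_iInter.1 hw K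
    exact ⟨u, hu, agree_symm hwu⟩
  · intro w hw
    exact mem_iInter.2 (fun k => ⟨w, hw, agree_refl _ _⟩)

theorem measurableSet_agree (E : Set Om) (k : ℕ) :
    MeasurableSet {w | ∃ u ∈ E, agree k w u} := by
  have h : {w | ∃ u ∈ E, agree k w u} = ⋃ u ∈ E, {w | agree k w u} := by
    ext w; simp
  rw [h]
  exact (isOpen_biUnion (fun u _ => (agree_isClopen k u).isOpen)).measurableSet

end Pool.Agent.Linf
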