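import Pool.Agent.Helper93.Linf.Defs

/-! # COMB1: elementary arithmetic of the blocks -/

namespace Pool.Agent.Linf

open MeasureTheory Set Filter
open scoped ENNReal Topology

theorem idx_lt (d : ℕ → Bool) (k : ℕ) : idx d k < 2 ^ (k + 1) := by
  induction k with
  | zero =>
    have h := Bool.toNat_le (d 0)
    simp only [idx]
    omega
  | succ k ih =>
    have h := Bool.toNat_le (d (k + 1))
    simp only [idx]
    have h2 : 2 ^ (k + 1 + 1) = 2 * 2 ^ (k + 1) := by ring
    omega

theorem mm_pos (d : ℕ → Bool) (k : ℕ) : 0 < mm d k := by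
  unfold mm; positivity

theorem mm_le_MM (d : ℕ → Bool) (k : ℕ) : mm d k ≤ MM k := by
  unfold mm MM
  exact Nat.pow_le_pow_right (by omega) (idx_lt d k).le

theorem MM_pos (k : ℕ) : 0 < MM k := by
  unfold MM; positivity

theorem MM_mono_succ (k : ℕ) : MM k ≤ MM (k + 1) := by
  unfold MM
  calc (k + 2) ^ (2 ^ (k + 1)) ≤ (k + 1 + 2) ^ (2 ^ (k + 1)) :=
        Nat.pow_le_pow_left (by omega) _
    _ ≤ (k + 1 + 2) ^ (2 ^ (k + 1 + 1)) :=
        Nat.pow_le_pow_right (by omega) (Nat.pow_le_pow_right (by omega) (by omega))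

theorem ell_strictMono : StrictMono ell := by
  apply strictMono_nat_of_lt_succ
  intro k
  have h := MM_mono_succ k
  unfold ell
  omega

theorem MM_le_ell (k : ℕ) : MM k ≤ ell k := by
  unfold ell; omega

theorem bits_lt (f : ℕ → Bool) (n : ℕ) :
    ∑ b ∈ Finset.range n, (f b).toNat * 2 ^ b < 2 ^ n := by
  induction n with
  | zero => simp
  | succ n ih =>
    rw [Finset.sum_range_succ]
    have h := Bool.toNat_le (f n)
    have h1 : (f n).toNat * 2 ^ n ≤ 1 * 2 ^ n := Nat.mul_le_mul_right _ h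
    have h2 : 2 ^ (n + 1) = 2 * 2 ^ n := by ring
    omega

theorem pt_mem_J (w : Om) (k i : ℕ) : pt w k i ∈ J k := by
  have h := bits_lt (fun b => w.2 (k, i, b)) (ell k)
  have h2 : 2 ^ (ell k + 1) = 2 * 2 ^ (ell k) := by ring
  refine ⟨?_, ?_⟩
  · unfold pt; omega
  · unfold pt
    omega

theorem J_disjoint {k l : ℕ} (h : k ≠ l) : Disjoint (J k) (J l) := by
  have key : ∀ {k l : ℕ}, k < l → Disjoint (J k) (J l) := by
    intro k l hkl
    rw [Set.disjoint_left]
    rintro a ⟨_, ha⟩ ⟨hb, _⟩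
    have h1 : ell k + 1 ≤ ell l := ell_strictMono hkl
    have h2 : 2 ^ (ell k + 1) ≤ 2 ^ (ell l) := Nat.pow_le_pow_right (by omega) h1
    omega
  rcases lt_or_gt_of_ne h with h | h
  · exact key h
  · exact (key h).symm

theorem J_finite (k : ℕ) : (J k).Finite := by
  apply (Set.finite_Iio (2 ^ (ell k + 1))).subset
  rintro a ⟨_, ha⟩
  exact ha

/-- the block of a point is determined by the point -/
theorem pt_block {w w' : Om} {k i k' i' : ℕ} (h : pt w k i = pt w' k' i') : k = k' := by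
  by_contra hne
  exact Set.disjoint_left.1 (J_disjoint hne) (pt_mem_J w k i) (h ▸ pt_mem_J w' k' i')

theorem ys_subset_zs (w : Om) : ys w ⊆ zs 0 w := by
  rintro a ⟨k, i, hi, rfl⟩
  exact ⟨k, i, Nat.zero_le _, hi.trans_le (mm_le_MM _ _), rfl⟩

theorem ys_infinite (w : Om) : (ys w).Infinite := by
  have hinj : Function.Injective (fun k => pt w k 0) := fun k l h => pt_block h
  apply Set.infinite_of_injective_forall_mem hinj
  intro k
  exact ⟨k, 0, mm_pos _ _, rfl⟩

theorem zs_anti (w : Om) {K L : ℕ} (h : K ≤ L) : zs L w ⊆ zs K w := by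
  rintro a ⟨k, i, hk, hi, rfl⟩
  exact ⟨k, i, h.trans hk, hi, rfl⟩

theorem zs_sparse (K : ℕ) (w : Om) : Sparse 1 (zs K w) := by
  intro k
  have hsub : zs K w ∩ J k ⊆ (fun i => pt w k i) '' (↑(Finset.range (MM k)) : Set ℕ) := by
    rintro a ⟨⟨k', i, _, hi, rfl⟩, ha⟩
    have hkk : k' = k := by
      by_contra hne
      exact Set.disjoint_left.1 (J_disjoint hne) (pt_mem_J w k' i) ha
    subst hkk
    exact ⟨i, by simpa using hi, rfl⟩
  calc (zs K w ∩ J k).ncard
      ≤ ((fun i => pt w k i) '' (↑(Finset.range (MM k)) : Set ℕ)).ncard :=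
        Set.ncard_le_ncard hsub ((Finset.finite_toSet _).image _)
    _ ≤ (↑(Finset.range (MM k)) : Set ℕ).ncard := Set.ncard_image_le (Finset.finite_toSet _)
    _ = 1 * MM k := by rw [Set.ncard_coe_finset, Finset.card_range, one_mul]

theorem sparse_union {c c' : ℕ} {O O' : Set ℕ} (h : Sparse c O) (h' : Sparse c' O') :
    Sparse (c + c') (O ∪ O') := by
  intro k
  rw [Set.union_inter_distrib_right]
  calc _ ≤ (O ∩ J k).ncard + (O' ∩ J k).ncard := Set.ncard_union_le _ _
    _ ≤ c * MM k + c' * MM k := Nat.add_le_add (h k) (h' k)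
    _ = (c + c') * MM k := by ring

theorem idx_congr {d d' : ℕ → Bool} {k : ℕ} (h : ∀ j ≤ k, d j = d' j) : idx d k = idx d' k := by
  induction k with
  | zero => simp only [idx]; rw [h 0 le_rfl]
  | succ k ih =>
    simp only [idx]
    rw [ih (fun j hj => h j (by omega)), h (k + 1) le_rfl]

theorem idx_lt_idx {d d' : ℕ → Bool} {κ : ℕ} (h : ∀ j < κ, d j = d' j) (h0 : d κ = false)
    (h1 : d' κ = true) {k : ℕ} (hk : κ ≤ k) : idx d k < idx d' k := by
  induction k, hk using Nat.le_induction with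
  | base =>
    cases κ with
    | zero => simp only [idx, h0, h1]; decide
    | succ κ =>
      simp only [idx, h0, h1]
      rw [idx_congr (d := d) (d' := d') (fun j hj => h j (by omega))]
      simp
  | succ k hk ih =>
    have h2 := Bool.toNat_le (d (k + 1))
    simp only [idx]
    omega

end Pool.Agent.Linf
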