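import Pool.Agent.Helper93.Linf.Comb1

/-! # COMB2: the selected points of `Theta` -/

namespace Pool.Agent.Linf

open MeasureTheory Set Filter
open scoped ENNReal Topology

theorem pt_congr {w w' : Om} {k i i' : ℕ} (h : ∀ b < ell k, w.2 (k, i, b) = w'.2 (k, i', b)) :
    pt w k i = pt w' k i' := by
  unfold pt
  congr 1
  apply Finset.sum_congr rfl
  intro b hb
  rw [h b (Finset.mem_range.1 hb)]

/-- the `i`-th point of `Theta` in a block `k1 >= k`, old case -/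
theorem pt_theta_old {n : ℕ} {x : ℕ → Om} {k : ℕ} {w : Om} {k1 i : ℕ} (hk1 : k ≤ k1)
    (h1 : i / mm (x n).1 k1 ≤ n)
    (h2 : i % mm (x n).1 k1 < mm (x (i / mm (x n).1 k1)).1 k1) :
    pt (Theta n x k w) k1 i = pt (x (i / mm (x n).1 k1)) k1 (i % mm (x n).1 k1) := by
  apply pt_congr
  intro b _
  simp only [Theta]
  rw [if_neg (by omega), if_pos ⟨h1, h2⟩]

/-- the `i`-th point of `Theta` in a block `k1 >= k`, fresh case -/
theorem pt_theta_new {n : ℕ} {x : ℕ → Om} {k : ℕ} {w : Om} {k1 i : ℕ} (hk1 : k ≤ k1)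
    (h : ¬ (i / mm (x n).1 k1 ≤ n ∧
      i % mm (x n).1 k1 < mm (x (i / mm (x n).1 k1)).1 k1)) :
    pt (Theta n x k w) k1 i = pt w k1 i := by
  apply pt_congr
  intro b _
  simp only [Theta]
  rw [if_neg (by omega), if_neg h]

theorem theta_ys_sub (n : ℕ) (x : ℕ → Om) (k : ℕ) (w : Om) (hd : (x n).1 k = false)
    (hn : n ≤ k) (k1 : ℕ) (hk1 : k ≤ k1) (hq : ∀ q ≤ n, idx (x q).1 k1 ≤ idx (x n).1 k1) :
    ys (Theta n x k w) ∩ J k1 ⊆ {a | ∃ q ≤ n, a ∈ ys (x q)} ∪ zs k w := by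
  rintro a ⟨⟨k', i, hi, rfl⟩, ha⟩
  have hkk : k' = k1 := by
    by_contra hne
    exact Set.disjoint_left.1 (J_disjoint hne) (pt_mem_J _ k' i) ha
  subst hkk
  by_cases h : i / mm (x n).1 k' ≤ n ∧
      i % mm (x n).1 k' < mm (x (i / mm (x n).1 k')).1 k'
  · left
    exact ⟨_, h.1, k', _, h.2, pt_theta_old hk1 h.1 h.2⟩
  · right
    exact ⟨k', i, hk1, hi.trans_le (mm_le_MM _ _), pt_theta_new hk1 h⟩

theorem theta_ys_sup (n : ℕ) (x : ℕ → Om) (k : ℕ) (w : Om) (hd : (x n).1 k = false)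
    (hn : n ≤ k) (k1 : ℕ) (hk1 : k ≤ k1) (hq : ∀ q ≤ n, idx (x q).1 k1 ≤ idx (x n).1 k1) :
    ∀ q ≤ n, ys (x q) ∩ J k1 ⊆ ys (Theta n x k w) := by
  rintro q hqn a ⟨⟨k', r, hr, rfl⟩, ha⟩
  have hkk : k' = k1 := by
    by_contra hne
    exact Set.disjoint_left.1 (J_disjoint hne) (pt_mem_J _ k' r) ha
  subst hkk
  have hm : 0 < mm (x n).1 k' := mm_pos _ _
  have hrm : r < mm (x n).1 k' := by
    refine hr.trans_le ?_
    unfold mm
    exact Nat.pow_le_pow_right (by omega) (hq q hqn)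
  have hdiv : (q * mm (x n).1 k' + r) / mm (x n).1 k' = q := by
    rw [Nat.add_comm, Nat.add_mul_div_right _ _ hm, Nat.div_eq_of_lt hrm, Nat.zero_add]
  have hmod : (q * mm (x n).1 k' + r) % mm (x n).1 k' = r := by
    rw [Nat.add_comm, Nat.add_mul_mod_self_right, Nat.mod_eq_of_lt hrm]
  have hlt : idx (x n).1 k' < idx (Theta n x k w).1 k' := by
    apply idx_lt_idx (κ := k) _ hd _ hk1
    · intro j hj
      simp only [Theta]
      rw [Function.update_of_ne (by omega)]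
    · simp only [Theta]
      rw [Function.update_self]
  refine ⟨k', q * mm (x n).1 k' + r, ?_, ?_⟩
  · have h1 : q * mm (x n).1 k' + r < (k' + 2) * mm (x n).1 k' := by
      calc q * mm (x n).1 k' + r < q * mm (x n).1 k' + mm (x n).1 k' := by omega
        _ = (q + 1) * mm (x n).1 k' := by ring
        _ ≤ (k' + 2) * mm (x n).1 k' := Nat.mul_le_mul_right _ (by omega)
    refine h1.trans_le ?_
    unfold mm
    rw [← pow_succ']
    exact Nat.pow_le_pow_right (by omega) hlt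
  · rw [pt_theta_old hk1 (by rw [hdiv]; exact hqn) (by rw [hdiv, hmod]; exact hr), hdiv, hmod]

end Pool.Agent.Linf
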