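import Pool.Agent.Helper93.Linf.Nb
import Pool.Agent.Helper93.Linf.Comb1
import Pool.Agent.Helper93.Linf.Comb2
import Pool.Agent.Helper93.Linf.Agree

/-!
# MP_2ac9e4_an: the limit point of a branch of the tree (module BR1)
-/

namespace Pool.Agent.Linf

open MeasureTheory Set Filter
open scoped ENNReal Topology

theorem br1_path_lt (f : ℕ → Bool) (n : ℕ) : path f n < path f (n + 1) := by
  change path f n < 2 * path f n + 1 + (f n).toNat
  omega

section

variable {E : Set Om} {T : ℕ → Set Om} {V : ℕ → Om → Set ℕ → ℝ} {mo : ℕ → Om → ℕ} {nd : ℕ → Node}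

theorem br1_lev (h : TreeSpec E T V mo nd) (f : ℕ → Bool) (n : ℕ) : (nd (path f n)).lev = n := by
  induction n with
  | zero => exact h.root
  | succ n ih => exact (h.lev (path f n) (f n)).trans (by rw [ih])

theorem br1_hist (h : TreeSpec E T V mo nd) (f : ℕ → Bool) (i : ℕ) :
    ∀ l ≤ i, (nd (path f i)).x l = (nd (path f l)).pt := by
  induction i with
  | zero =>
    intro l hl
    obtain rfl : l = 0 := by omega
    have := br1_lev h f 0
    unfold Node.pt
    rw [this]
  | succ i ih =>
    intro l hl
    rcases Nat.lt_or_ge i l with hl' | hl'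
    · obtain rfl : l = i + 1 := by omega
      have := br1_lev h f (i + 1)
      unfold Node.pt
      rw [this]
    · rw [← ih l hl']
      exact h.hist (path f i) (f i) l (by rw [br1_lev h f i]; exact hl')

theorem br1_K'K (h : TreeSpec E T V mo nd) (f : ℕ → Bool) (n : ℕ) :
    (nd (path f n)).K' < (nd (path f (n + 1))).K := h.K'K _ _ (br1_path_lt f n)

theorem br1_K'_mono (h : TreeSpec E T V mo nd) (f : ℕ → Bool) :
    StrictMono (fun n => (nd (path f n)).K') :=
  strictMono_nat_of_lt_succ fun n => (br1_K'K h f n).trans_le (h.KK' _)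

theorem br1_K_mono (h : TreeSpec E T V mo nd) (f : ℕ → Bool) :
    StrictMono (fun n => (nd (path f (n + 1))).K) :=
  strictMono_nat_of_lt_succ fun n => (h.KK' _).trans_lt (br1_K'K h f (n + 1))

theorem br1_th (nd : ℕ → Node) (f : ℕ → Bool) (n : ℕ) :
    agree (nd (path f n)).K' ((nd (path f n)).th (f n)) (nd (path f n)).pt :=
  theta_agree _ _ _ _

theorem br1_near (h : TreeSpec E T V mo nd) (f : ℕ → Bool) (n : ℕ) :
    agree (nd (path f (n + 1))).K (nd (path f (n + 1))).pt ((nd (path f n)).th (f n)) :=
  h.near (path f n) (f n)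

theorem br1_idx_succ (h : TreeSpec E T V mo nd) (f : ℕ → Bool) (n k : ℕ)
    (hk : (nd (path f n)).K' ≤ k) :
    idx (nd (path f n)).pt.1 k < idx (nd (path f (n + 1))).pt.1 k := by
  have h1 := br1_th nd f n
  have h2 := br1_near h f n
  have h3 := br1_K'K h f n
  refine idx_lt_idx (κ := (nd (path f n)).K') ?_ (h.digit _) ?_ hk
  · intro j hj
    rw [h2.1 j (hj.trans h3), h1.1 j hj]
  · rw [h2.1 _ h3]
    change Function.update (nd (path f n)).pt.1 (nd (path f n)).K' true (nd (path f n)).K' = true
    rw [Function.update_self]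

theorem br1_idx (h : TreeSpec E T V mo nd) (f : ℕ → Bool) (i : ℕ) :
    ∀ q ≤ i, ∀ k, (nd (path f i)).K' ≤ k →
      idx (nd (path f q)).pt.1 k ≤ idx (nd (path f i)).pt.1 k := by
  induction i with
  | zero =>
    intro q hq k hk
    obtain rfl : q = 0 := by omega
    exact le_rfl
  | succ i ih =>
    intro q hq k hk
    rcases Nat.lt_or_ge i q with hq' | hq'
    · obtain rfl : q = i + 1 := by omega
      exact le_rfl
    · have hk' : (nd (path f i)).K' ≤ k :=
        ((br1_K'_mono h f) (Nat.lt_succ_self i)).le.trans hk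
      exact (ih q hq' k hk').trans (br1_idx_succ h f i k hk').le

/-- a selected point in block `k` belongs to the points of the blocks `≥ K` -/
theorem br1_ys_zs {w : Om} {K k a : ℕ} (hk : K ≤ k) (ha : a ∈ ys w) (haJ : a ∈ J k) :
    a ∈ zs K w := by
  obtain ⟨k', i, hi, rfl⟩ := ha
  have hkk : k' = k := by
    by_contra hne
    exact Set.disjoint_left.1 (J_disjoint hne) (pt_mem_J w k' i) haJ
  subst hkk
  exact ⟨k', i, hk, hi.trans_le (mm_le_MM _ _), rfl⟩

/-- the position of a block relative to a strictly increasing sequence -/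
theorem br1_between {g : ℕ → ℕ} (hg : StrictMono g) {n k : ℕ} (hk : g n ≤ k) :
    ∃ i, n ≤ i ∧ g i ≤ k ∧ k < g (i + 1) := by
  have hex : ∃ i, k < g i := ⟨k + 1, (Nat.lt_succ_self k).trans_le (hg.id_le (k + 1))⟩
  classical
  have hspec := Nat.find_spec hex
  have hn : n < Nat.find hex := by
    by_contra hcon
    have : g (Nat.find hex) ≤ g n := hg.monotone (not_lt.1 hcon)
    omega
  refine ⟨Nat.find hex - 1, by omega, ?_, ?_⟩
  · have := Nat.find_min hex (m := Nat.find hex - 1) (by omega)
    omega
  · rwa [Nat.sub_add_cancel (by omega)]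

end

theorem branch_limit {E : Set Om} (hE : IsClosed E) {T : ℕ → Set Om} {V : ℕ → Om → Set ℕ → ℝ}
    {mo : ℕ → Om → ℕ} {nd : ℕ → Node} (h : TreeSpec E T V mo nd) (f : ℕ → Bool) :
    ∃ u ∈ E, ∀ n, agree (nd (path f n)).K' u (nd (path f n)).pt ∧
      symmDiff (ys u) (ys (nd (path f n)).pt) ⊆
        {a | ∃ l < n, a ∈ zs 0 ((nd (path f n)).x l)} ∪ (BB nd f n ∪ RR nd f n) := by
  have hmono := br1_K_mono h f
  obtain ⟨U, hU⟩ := agree_limit (fun n => (nd (path f n)).th (f n))
    (fun n => (nd (path f (n + 1))).K) hmono (fun n =>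
      agree_trans (agree_mono (h.KK' _) (br1_th nd f (n + 1))) (br1_near h f n))
  have hUw : ∀ n, agree (nd (path f n)).K' U (nd (path f n)).pt := fun n =>
    agree_trans (agree_mono (br1_K'K h f n).le (hU n)) (br1_th nd f n)
  refine ⟨U, ?_, fun n => ⟨hUw n, ?_⟩⟩
  · refine mem_of_agree hE fun K => ⟨(nd (path f K)).th (f K), h.thE _ _, ?_⟩
    exact agree_symm (agree_mono (hmono.id_le K) (hU K))
  · intro a ha
    -- the block of `a`
    have hblock : ∃ k, a ∈ J k := by
      rcases ha with ha | ha
      · obtain ⟨k, i, -, rfl⟩ := ha.1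
        exact ⟨k, pt_mem_J _ _ _⟩
      · obtain ⟨k, i, -, rfl⟩ := ha.1
        exact ⟨k, pt_mem_J _ _ _⟩
    obtain ⟨k, hak⟩ := hblock
    rcases Nat.lt_or_ge k (nd (path f n)).K' with hk | hk
    · exfalso
      have e := agree_ys (hUw n) hk
      rcases ha with ha | ha
      · have : a ∈ ys U ∩ J k := ⟨ha.1, hak⟩
        rw [e] at this
        exact ha.2 this.1
      · have : a ∈ ys (nd (path f n)).pt ∩ J k := ⟨ha.1, hak⟩
        rw [← e] at this
        exact ha.2 this.1
    · obtain ⟨i, hni, hik, hki⟩ := br1_between (br1_K'_mono h f) hk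
      rcases Nat.lt_or_ge k (nd (path f (i + 1))).K with hk2 | hk2
      · -- block between `K'_i` and `K_{i+1}`
        have e := agree_ys (hU i) hk2
        have hlev := br1_lev h f i
        have hhist := br1_hist h f i
        have hpt : (nd (path f i)).x (nd (path f i)).lev = (nd (path f i)).pt := rfl
        have hq : ∀ q ≤ (nd (path f i)).lev, idx ((nd (path f i)).x q).1 k
            ≤ idx ((nd (path f i)).x (nd (path f i)).lev).1 k := by
          intro q hq
          rw [hlev] at hq
          rw [hpt, hhist q hq]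
          exact br1_idx h f i q hq k hik
        have hdig : ((nd (path f i)).x (nd (path f i)).lev).1 (nd (path f i)).K' = false :=
          h.digit _
        have hsub := theta_ys_sub (nd (path f i)).lev (nd (path f i)).x (nd (path f i)).K'
          ((nd (path f i)).w (f i)) hdig (h.levK' _) k hik hq
        have hsup := theta_ys_sup (nd (path f i)).lev (nd (path f i)).x (nd (path f i)).K'
          ((nd (path f i)).w (f i)) hdig (h.levK' _) k hik hq
        rcases ha with ha | ha
        · have h1 : a ∈ ys ((nd (path f i)).th (f i)) ∩ J k := by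
            rw [← e]
            exact ⟨ha.1, hak⟩
          rcases hsub h1 with ⟨q, hq1, hq2⟩ | h2
          · rw [hlev] at hq1
            rw [hhist q hq1] at hq2
            rcases lt_trichotomy q n with hqn | hqn | hqn
            · left
              refine ⟨q, hqn, ?_⟩
              rw [br1_hist h f n q hqn.le]
              exact ys_subset_zs _ hq2
            · exfalso
              subst hqn
              exact ha.2 hq2
            · right
              right
              left
              refine ⟨q, hqn, br1_ys_zs ?_ hq2 hak⟩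
              exact ((br1_K'_mono h f).monotone hq1).trans hik
          · right
            right
            right
            exact ⟨i, hni, h2⟩
        · exfalso
          have h1 : a ∈ ys ((nd (path f i)).x n) ∩ J k := by
            rw [hhist n hni]
            exact ⟨ha.1, hak⟩
          have h2 := hsup n (by rw [hlev]; exact hni) h1
          have h3 : a ∈ ys U ∩ J k := by
            rw [e]
            exact ⟨h2, hak⟩
          exact ha.2 h3.1
      · right
        left
        exact ⟨i + 1, by omega, k, hk2, hki, hak⟩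

end Pool.Agent.Linf
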