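import Pool.Agent.Helper93.Linf.LDefs

/-!
# MP_2ac9e4_an: module COIN
-/

namespace Pool.Agent.Linf

open MeasureTheory Set Filter
open scoped ENNReal Topology

theorem coin_map_inj {A C : Type} (σ : A → C) (hσ : Function.Injective σ) :
    (coin C).map (fun x a => x (σ a)) = coin A := by
  classical
  refine Measure.eq_infinitePi _ ?_
  intro s t ht
  have hmeas : Measurable (fun (x : C → Bool) (a : A) => x (σ a)) :=
    measurable_pi_lambda _ (fun a => measurable_pi_apply _)
  rw [Measure.map_apply hmeas (MeasurableSet.pi s.countable_toSet (fun i _ => ht i))]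
  have hpre : (fun (x : C → Bool) (a : A) => x (σ a)) ⁻¹' (Set.pi s t) =
      Set.pi (s.map ⟨σ, hσ⟩ : Finset C) (Function.extend σ t (fun _ => univ)) := by
    ext x
    simp only [mem_preimage, Set.mem_pi, Finset.mem_coe, Finset.mem_map,
      Function.Embedding.coeFn_mk]
    constructor
    · rintro h _ ⟨a, ha, rfl⟩
      rw [hσ.extend_apply]
      exact h a ha
    · intro h a ha
      have := h (σ a) ⟨a, ha, rfl⟩
      rwa [hσ.extend_apply] at this
  rw [hpre, coin, Measure.infinitePi_pi]
  · rw [Finset.prod_map]
    refine Finset.prod_congr rfl (fun a _ => ?_)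
    simp only [Function.Embedding.coeFn_mk]
    rw [hσ.extend_apply]
  · intro i _
    exact MeasurableSet.of_discrete

theorem coin_prod_map_inj {A B C : Type} (σ : C → A ⊕ B) (hσ : Function.Injective σ) :
    ((coin A).prod (coin B)).map (fun p c => Sum.elim p.1 p.2 (σ c)) = coin C := by
  classical
  refine Measure.eq_infinitePi _ ?_
  intro s t ht
  have hmeas : Measurable (fun (p : (A → Bool) × (B → Bool)) (c : C) => Sum.elim p.1 p.2 (σ c)) := by
    refine measurable_pi_lambda _ (fun c => ?_)
    rcases h : σ c with a | b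
    · exact (measurable_pi_apply a).comp measurable_fst
    · exact (measurable_pi_apply b).comp measurable_snd
  rw [Measure.map_apply hmeas (MeasurableSet.pi s.countable_toSet (fun i _ => ht i))]
  set u : Finset (A ⊕ B) := s.map ⟨σ, hσ⟩ with hu
  set t' : A ⊕ B → Set Bool := Function.extend σ t (fun _ => univ) with ht'
  have hpre : (fun (p : (A → Bool) × (B → Bool)) (c : C) => Sum.elim p.1 p.2 (σ c)) ⁻¹' (Set.pi s t) =
      (Set.pi (u.toLeft : Finset A) (fun a => t' (Sum.inl a))) ×ˢ
        (Set.pi (u.toRight : Finset B) (fun b => t' (Sum.inr b))) := by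
    ext p
    simp only [mem_preimage, Set.mem_pi, Finset.mem_coe, Set.mem_prod, Finset.mem_toLeft,
      Finset.mem_toRight, hu, Finset.mem_map, Function.Embedding.coeFn_mk]
    constructor
    · intro h
      constructor
      · rintro a ⟨c, hc, hca⟩
        have := h c hc
        rw [hca] at this
        rw [← hca, ht', hσ.extend_apply]
        exact this
      · rintro b ⟨c, hc, hcb⟩
        have := h c hc
        rw [hcb] at this
        rw [← hcb, ht', hσ.extend_apply]
        exact this
    · rintro ⟨h1, h2⟩ c hc
      rcases hcc : σ c with a | b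
      · have := h1 a ⟨c, hc, hcc⟩
        rw [← hcc, ht', hσ.extend_apply] at this
        exact this
      · have := h2 b ⟨c, hc, hcc⟩
        rw [← hcc, ht', hσ.extend_apply] at this
        exact this
  rw [hpre, Measure.prod_prod, coin, coin, Measure.infinitePi_pi, Measure.infinitePi_pi]
  · have h1 : ∏ i ∈ s, coin1 (t i) = ∏ x ∈ u, coin1 (t' x) := by
      rw [hu, Finset.prod_map]
      refine Finset.prod_congr rfl (fun a _ => ?_)
      simp only [Function.Embedding.coeFn_mk]
      rw [ht', hσ.extend_apply]
    rw [h1]
    conv_rhs => rw [← Finset.toLeft_disjSum_toRight (u := u)]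
    rw [Finset.prod_disjSum]
  · intro i _
    exact MeasurableSet.of_discrete
  · intro i _
    exact MeasurableSet.of_discrete

theorem coin_map_pair {A B C : Type} (σ : A → C) (τ : B → C) (hσ : Function.Injective σ)
    (hτ : Function.Injective τ) (h : ∀ a b, σ a ≠ τ b) :
    (coin C).map (fun x => ((fun a => x (σ a)), (fun b => x (τ b)))) =
      (coin A).prod (coin B) := by
  have hρ : Function.Injective (Sum.elim σ τ) := Function.Injective.sumElim hσ hτ h
  have h1 := coin_map_inj (Sum.elim σ τ) hρ
  have h2 := coin_prod_map_inj (A := A) (B := B) (C := A ⊕ B) id Function.injective_id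
  have hm1 : Measurable (fun (x : C → Bool) (a : A ⊕ B) => x (Sum.elim σ τ a)) :=
    measurable_pi_lambda _ (fun a => measurable_pi_apply _)
  have hm2 : Measurable (fun (p : (A → Bool) × (B → Bool)) (c : A ⊕ B) =>
      Sum.elim p.1 p.2 (id c)) := by
    refine measurable_pi_lambda _ (fun c => ?_)
    rcases c with a | b
    · exact (measurable_pi_apply a).comp measurable_fst
    · exact (measurable_pi_apply b).comp measurable_snd
  have hm3 : Measurable (fun y : A ⊕ B → Bool => ((fun a => y (Sum.inl a)), (fun b => y (Sum.inr b)))) := by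
    refine Measurable.prodMk ?_ ?_
    · exact measurable_pi_lambda _ (fun a => measurable_pi_apply _)
    · exact measurable_pi_lambda _ (fun a => measurable_pi_apply _)
  have h3 : (coin C).map (fun x => ((fun a => x (σ a)), (fun b => x (τ b)))) =
      ((coin C).map (fun (x : C → Bool) (a : A ⊕ B) => x (Sum.elim σ τ a))).map
        (fun y : A ⊕ B → Bool => ((fun a => y (Sum.inl a)), (fun b => y (Sum.inr b)))) := by
    rw [Measure.map_map hm3 hm1]
    rfl
  rw [h3, h1, ← h2, Measure.map_map hm3 hm2]
  exact Measure.map_id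

theorem coin_flip {A : Type} [DecidableEq A] (a : A) (S : Set (A → Bool))
    (hS : MeasurableSet S) :
    coin A {x | x a = false ∧ Function.update x a true ∈ S} = coin A (S ∩ {x | x a = true}) := by
  set f : A → Bool → Bool := fun i => if i = a then Bool.not else id with hf
  have hmap : (coin A).map (fun (x : A → Bool) i => f i (x i)) = coin A := by
    rw [coin, Measure.infinitePi_map_pi _ (fun i => measurable_of_countable _)]
    congr 1
    funext i
    by_cases h : i = a
    · simp only [hf, if_pos h]
      rw [coin1, Measure.map_add _ _ (measurable_of_countable _), Measure.map_smul, Measure.map_smul,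
        Measure.map_dirac' (measurable_of_countable _), Measure.map_dirac' (measurable_of_countable _)]
      simp [add_comm]
    · simp only [hf, if_neg h]
      exact Measure.map_id
  have hmeas : Measurable (fun (x : A → Bool) i => f i (x i)) :=
    measurable_pi_lambda _ (fun i => (measurable_of_countable _).comp (measurable_pi_apply i))
  have hT : MeasurableSet (S ∩ {x : A → Bool | x a = true}) :=
    hS.inter (measurableSet_eq_fun (measurable_pi_apply a) measurable_const)
  conv_rhs => rw [← hmap, Measure.map_apply hmeas hT]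
  congr 1
  ext x
  simp only [mem_ofPred_eq, mem_preimage, mem_inter_iff]
  have hfa : f a (x a) = !(x a) := by simp [hf]
  have hupd : x a = false → (fun i => f i (x i)) = Function.update x a true := by
    intro h
    funext i
    by_cases hi : i = a
    · subst hi
      rw [hfa, h, Function.update_self]
      rfl
    · rw [Function.update_of_ne hi]
      simp [hf, hi]
  constructor
  · rintro ⟨h1, h2⟩
    refine ⟨?_, ?_⟩
    · rw [hupd h1]
      exact h2
    · rw [hfa, h1]
      rfl
  · rintro ⟨h1, h2⟩
    rw [hfa] at h2
    have h0 : x a = false := by simpa using h2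
    refine ⟨h0, ?_⟩
    rw [← hupd h0]
    exact h1

theorem coin_cyl {A : Type} (s : Finset A) (f : A → Bool) :
    coin A {x | ∀ a ∈ s, x a = f a} = (2 : ℝ≥0∞)⁻¹ ^ s.card := by
  have h : {x : A → Bool | ∀ a ∈ s, x a = f a} = Set.pi (s : Set A) (fun a => {f a}) := by
    ext x
    simp [Set.mem_pi]
  rw [h, coin, Measure.infinitePi_pi _ (fun i _ => MeasurableSet.of_discrete)]
  rw [Finset.prod_congr rfl (fun a _ => coin1_singleton (f a)), Finset.prod_const]

theorem coin_digit_io (k : ℕ → ℕ) (hk : StrictMono k) :
    coin ℕ {d | ∃ N, ∀ j, N ≤ j → d (k j) = true} = 0 := by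
  have hU : {d : ℕ → Bool | ∃ N, ∀ j, N ≤ j → d (k j) = true} =
      ⋃ N, {d : ℕ → Bool | ∀ j, N ≤ j → d (k j) = true} := by
    ext d; simp
  rw [hU, measure_iUnion_null_iff]
  intro N
  have hle : ∀ M : ℕ, coin ℕ {d : ℕ → Bool | ∀ j, N ≤ j → d (k j) = true} ≤ (2 : ℝ≥0∞)⁻¹ ^ M := by
    intro M
    have h1 := coin_cyl ((Finset.Ico N (N + M)).map ⟨k, hk.injective⟩) (fun _ => true)
    rw [Finset.card_map, Nat.card_Ico, Nat.add_sub_cancel_left] at h1
    rw [← h1]
    apply measure_mono
    intro d hd a ha
    rw [Finset.mem_map] at ha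
    obtain ⟨j, hj, rfl⟩ := ha
    exact hd j (Finset.mem_Ico.1 hj).1
  have ht : Tendsto (fun M : ℕ => (2 : ℝ≥0∞)⁻¹ ^ M) atTop (𝓝 0) := by
    apply ENNReal.tendsto_pow_atTop_nhds_zero_of_lt_one
    rw [ENNReal.inv_lt_one]
    norm_num
  exact le_antisymm (ge_of_tendsto' ht hle) bot_le

end Pool.Agent.Linf
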