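import Pool.Agent.Helper93.Linf.Nb
import Pool.Agent.Helper93.Linf.Coin
import Pool.Agent.Helper93.Linf.Comb1

set_option autoImplicit false

namespace Pool.Agent.Linf

open MeasureTheory Set Filter
open scoped ENNReal Topology

/-! ## SPARSE -/

theorem sp_bits_lt (f : ℕ → Bool) (n : ℕ) :
    ∑ b ∈ Finset.range n, (f b).toNat * 2 ^ b < 2 ^ n := by
  induction n with
  | zero => simp
  | succ n ih =>
    rw [Finset.sum_range_succ, pow_succ]
    have h1 : (f n).toNat * 2 ^ n ≤ 1 * 2 ^ n := Nat.mul_le_mul_right _ (Bool.toNat_le _)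
    omega

theorem sp_bits_inj (f g : ℕ → Bool) (n : ℕ)
    (h : ∑ b ∈ Finset.range n, (f b).toNat * 2 ^ b = ∑ b ∈ Finset.range n, (g b).toNat * 2 ^ b) :
    ∀ b < n, f b = g b := by
  induction n with
  | zero => intro b hb; omega
  | succ n ih =>
    rw [Finset.sum_range_succ, Finset.sum_range_succ] at h
    have hf := sp_bits_lt f n
    have hg := sp_bits_lt g n
    have htop : f n = g n := by
      cases hfn : f n <;> cases hgn : g n
      · rfl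
      · rw [hfn, hgn] at h
        simp only [Bool.toNat_false, zero_mul, add_zero, Bool.toNat_true, one_mul] at h
        omega
      · rw [hfn, hgn] at h
        simp only [Bool.toNat_false, zero_mul, add_zero, Bool.toNat_true, one_mul] at h
        omega
      · rfl
    rw [htop] at h
    have h' := ih (Nat.add_right_cancel h)
    intro b hb
    rcases Nat.lt_succ_iff_lt_or_eq.1 hb with h1 | h1
    · exact h' b h1
    · rw [h1]; exact htop

theorem sp_P_snd (S : Set (ℕ × ℕ × ℕ → Bool)) : P {w | w.2 ∈ S} = coin (ℕ × ℕ × ℕ) S := by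
  have : {w : Om | w.2 ∈ S} = univ ×ˢ S := by
    ext w; simp
  rw [this, P, Measure.prod_prod, measure_univ, one_mul]

theorem P_pt_eq (k i a : ℕ) : P {w | pt w k i = a} ≤ (2 : ℝ≥0∞)⁻¹ ^ (ell k) := by
  by_cases hne : ({w : Om | pt w k i = a}).Nonempty
  · obtain ⟨w0, hw0⟩ := hne
    let s : Finset (ℕ × ℕ × ℕ) := (Finset.range (ell k)).image (fun b => (k, i, b))
    have hcard : s.card = ell k := by
      rw [Finset.card_image_of_injective _ (fun b c h => by simpa using h), Finset.card_range]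
    rw [← hcard, ← coin_cyl s w0.2, ← sp_P_snd]
    refine measure_mono ?_
    intro w hw
    simp only [mem_ofPred_eq] at hw hw0 ⊢
    intro t ht
    simp only [s, Finset.mem_image, Finset.mem_range] at ht
    obtain ⟨b, hb, rfl⟩ := ht
    have h : pt w k i = pt w0 k i := by rw [hw, hw0]
    unfold pt at h
    exact sp_bits_inj (fun b => w.2 (k, i, b)) (fun b => w0.2 (k, i, b)) (ell k)
      (Nat.add_left_cancel h) b hb
  · rw [not_nonempty_iff_eq_empty] at hne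
    rw [hne]
    simp

theorem sp_sq_bound (k : ℕ) (c : ℕ) :
    (MM k : ℝ≥0∞) * ((c * MM k : ℕ) : ℝ≥0∞) * (2 : ℝ≥0∞)⁻¹ ^ (ell k) ≤
      c * (2 : ℝ≥0∞)⁻¹ ^ k := by
  have h2 : (MM k : ℝ≥0∞) * (2 : ℝ≥0∞)⁻¹ ^ (MM k) ≤ 1 := by
    rw [← ENNReal.inv_pow]
    refine (ENNReal.mul_inv_le_iff (by simp) (by simp)).2 ?_
    rw [one_mul]
    have : MM k ≤ 2 ^ MM k := Nat.lt_two_pow_self.le
    exact_mod_cast this
  have he : (2 : ℝ≥0∞)⁻¹ ^ (ell k) =
      (2 : ℝ≥0∞)⁻¹ ^ k * ((2 : ℝ≥0∞)⁻¹ ^ (MM k) * (2 : ℝ≥0∞)⁻¹ ^ (MM k)) := by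
    unfold ell
    rw [pow_add, two_mul, pow_add]
  rw [he, Nat.cast_mul]
  calc (MM k : ℝ≥0∞) * (c * MM k) *
        ((2 : ℝ≥0∞)⁻¹ ^ k * ((2 : ℝ≥0∞)⁻¹ ^ (MM k) * (2 : ℝ≥0∞)⁻¹ ^ (MM k)))
      = c * (2 : ℝ≥0∞)⁻¹ ^ k * (((MM k : ℝ≥0∞) * (2 : ℝ≥0∞)⁻¹ ^ (MM k)) *
        ((MM k : ℝ≥0∞) * (2 : ℝ≥0∞)⁻¹ ^ (MM k))) := by ring
    _ ≤ c * (2 : ℝ≥0∞)⁻¹ ^ k * (1 * 1) := by gcongr
    _ = c * (2 : ℝ≥0∞)⁻¹ ^ k := by ring

theorem sparse_hit {c : ℕ} {O : Set ℕ} (h : Sparse c O) (K : ℕ) :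
    P {w | (zs K w ∩ O).Nonempty} ≤ c * (2 * (2 : ℝ≥0∞)⁻¹ ^ K) := by
  have hfin : ∀ k, (O ∩ J k).Finite := fun k => (J_finite k).subset inter_subset_right
  have hsub : {w : Om | (zs K w ∩ O).Nonempty} ⊆
      ⋃ j : ℕ, ⋃ i ∈ Finset.range (MM (K + j)), ⋃ a ∈ (hfin (K + j)).toFinset,
        {w : Om | pt w (K + j) i = a} := by
    rintro w ⟨a, ⟨k, i, hk, hi, ha⟩, haO⟩
    obtain ⟨j, rfl⟩ := Nat.exists_eq_add_of_le hk
    simp only [mem_iUnion, Finset.mem_range, mem_ofPred_eq, exists_prop]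
    refine ⟨j, i, hi, a, ?_, ha.symm⟩
    rw [Set.Finite.mem_toFinset]
    exact ⟨haO, ha ▸ pt_mem_J w (K + j) i⟩
  refine (measure_mono hsub).trans ((measure_iUnion_le _).trans ?_)
  have hterm : ∀ j : ℕ, P (⋃ i ∈ Finset.range (MM (K + j)), ⋃ a ∈ (hfin (K + j)).toFinset,
      {w : Om | pt w (K + j) i = a}) ≤ c * (2 : ℝ≥0∞)⁻¹ ^ (K + j) := by
    intro j
    refine (measure_biUnion_finset_le _ _).trans ?_
    refine (Finset.sum_le_sum (fun i _ => measure_biUnion_finset_le _ _)).trans ?_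
    refine (Finset.sum_le_sum (fun i _ => Finset.sum_le_sum
      (fun a _ => P_pt_eq (K + j) i a))).trans ?_
    simp only [Finset.sum_const, Finset.card_range, nsmul_eq_mul]
    refine le_trans ?_ (sp_sq_bound (K + j) c)
    rw [mul_assoc]
    have hc : (hfin (K + j)).toFinset.card ≤ c * MM (K + j) := by
      rw [← Set.ncard_eq_toFinset_card _ (hfin (K + j))]
      exact h (K + j)
    have hc' : ((hfin (K + j)).toFinset.card : ℝ≥0∞) ≤ ((c * MM (K + j) : ℕ) : ℝ≥0∞) := by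
      exact_mod_cast hc
    gcongr
  refine (ENNReal.tsum_le_tsum hterm).trans ?_
  rw [ENNReal.tsum_mul_left]
  have hgeo : ∑' j : ℕ, (2 : ℝ≥0∞)⁻¹ ^ (K + j) = 2 * (2 : ℝ≥0∞)⁻¹ ^ K := by
    simp only [pow_add]
    rw [ENNReal.tsum_mul_left, ENNReal.tsum_geometric, ENNReal.one_sub_inv_two, inv_inv, mul_comm]
  rw [hgeo]

theorem sp_zs_diff_finite (w : Om) (K : ℕ) : (zs 0 w \ zs K w).Finite := by
  refine ((Finset.range K).finite_toSet.biUnion (t := fun k => J k)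
    (fun k _ => J_finite k)).subset ?_
  rintro a ⟨⟨k, i, _, hi, ha⟩, hn⟩
  simp only [mem_iUnion, Finset.coe_range, mem_Iio, exists_prop]
  refine ⟨k, ?_, ha ▸ pt_mem_J w k i⟩
  by_contra hk
  exact hn ⟨k, i, not_lt.1 hk, hi, ha⟩

theorem sparse_ae {c : ℕ} {O : Set ℕ} (h : Sparse c O) : ∀ᵐ w ∂P, (zs 0 w ∩ O).Finite := by
  rw [ae_iff]
  have hle : ∀ K : ℕ, P {w | ¬ (zs 0 w ∩ O).Finite} ≤ c * (2 * (2 : ℝ≥0∞)⁻¹ ^ K) := by
    intro K
    refine (measure_mono ?_).trans (sparse_hit h K)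
    intro w hw
    simp only [mem_ofPred_eq] at hw ⊢
    by_contra hne
    rw [not_nonempty_iff_eq_empty] at hne
    apply hw
    refine (sp_zs_diff_finite w K).subset ?_
    rintro a ⟨ha, haO⟩
    refine ⟨ha, fun haK => ?_⟩
    have : a ∈ zs K w ∩ O := ⟨haK, haO⟩
    rw [hne] at this
    exact this
  have htend : Tendsto (fun K : ℕ => (c : ℝ≥0∞) * (2 * (2 : ℝ≥0∞)⁻¹ ^ K)) atTop (𝓝 0) := by
    have h1 : Tendsto (fun K : ℕ => (2 : ℝ≥0∞)⁻¹ ^ K) atTop (𝓝 0) :=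
      ENNReal.tendsto_pow_atTop_nhds_zero_of_lt_one (by simp)
    have h2 := ENNReal.Tendsto.const_mul (a := 2) h1 (Or.inr (by simp))
    have h3 := ENNReal.Tendsto.const_mul (a := (c : ℝ≥0∞)) h2 (Or.inr (by simp))
    simpa using h3
  exact le_antisymm (ge_of_tendsto' htend hle) bot_le

theorem sp_lt_of_mem_zs {K a : ℕ} {w : Om} (h : a ∈ zs K w) : K < a := by
  obtain ⟨k, i, hk, _, rfl⟩ := h
  have h1 : k ≤ ell k := by unfold ell; omega
  have h2 : 2 ^ k ≤ 2 ^ ell k := Nat.pow_le_pow_right (by norm_num) h1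
  have h3 : k < 2 ^ k := Nat.lt_two_pow_self
  unfold pt
  omega

theorem zs_disjoint_of_finite {w : Om} {O : Set ℕ} (h : (zs 0 w ∩ O).Finite) :
    ∃ K0, ∀ K, K0 ≤ K → Disjoint (zs K w) O := by
  obtain ⟨B, hB⟩ := h.bddAbove
  refine ⟨B, fun K hK => ?_⟩
  rw [Set.disjoint_left]
  intro a ha haO
  have h1 : a ≤ B := hB ⟨zs_anti w (Nat.zero_le K) ha, haO⟩
  have h2 := sp_lt_of_mem_zs ha
  omega

end Pool.Agent.Linf
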