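import Pool.Agent.Helper93.Linf.Defs
import Pool.Agent.Helper93.Linf.Comb1
import Pool.Agent.Helper93.Linf.Sparse

/-!
# MP_2ac9e4_an, module SUBM: submeasure lemmas
-/

namespace Pool.Agent.Linf

open MeasureTheory Set Filter
open scoped ENNReal Topology

theorem subm_zero : IsSubm (fun _ => 0) := by
  refine ⟨fun _ _ _ => le_refl _, fun _ _ => by simp, fun _ _ => rfl, 0, ?_⟩
  intro n R _
  simp

theorem IsSubm.nonneg {v : Set ℕ → ℝ} (hv : IsSubm v) (A : Set ℕ) : 0 ≤ v A := by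
  have h := hv.mono ∅ A (empty_subset A)
  rwa [hv.fin ∅ finite_empty] at h

/-- finite subadditivity -/
theorem IsSubm.sum_le {v : Set ℕ → ℝ} (hv : IsSubm v) {ι : Type} (s : Finset ι)
    (A : ι → Set ℕ) : v (⋃ i ∈ s, A i) ≤ ∑ i ∈ s, v (A i) := by
  classical
  induction s using Finset.induction_on with
  | empty => simp [hv.fin ∅ finite_empty]
  | insert a s ha ih =>
    rw [Finset.sum_insert ha, Finset.set_biUnion_insert]
    exact (hv.sub _ _).trans (add_le_add le_rfl ih)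

/-- bound for families which are disjoint up to null sets -/
theorem IsSubm.exh_ae {v : Set ℕ → ℝ} (hv : IsSubm v) :
    ∃ C : ℝ, ∀ (ι : Type) (s : Finset ι) (R : ι → Set ℕ),
      (∀ i ∈ s, ∀ j ∈ s, i ≠ j → v (R i ∩ R j) = 0) → ∑ i ∈ s, v (R i) ≤ C := by
  classical
  obtain ⟨C, hC⟩ := hv.exh
  refine ⟨C, fun ι s R h => ?_⟩
  set R' : ι → Set ℕ := fun i => R i \ ⋃ j ∈ s.erase i, R j with hR'
  have h1 : ∀ i ∈ s, v (R i) ≤ v (R' i) := by
    intro i hi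
    have hsub : R i ⊆ R' i ∪ ⋃ j ∈ s.erase i, (R i ∩ R j) := by
      intro a ha
      by_cases hb : a ∈ ⋃ j ∈ s.erase i, R j
      · right
        simp only [mem_iUnion] at hb ⊢
        obtain ⟨j, hj, haj⟩ := hb
        exact ⟨j, hj, ha, haj⟩
      · exact Or.inl ⟨ha, hb⟩
    have h2 : v (⋃ j ∈ s.erase i, (R i ∩ R j)) ≤ 0 := by
      refine (hv.sum_le _ _).trans ?_
      refine le_of_eq (Finset.sum_eq_zero ?_)
      intro j hj
      rw [Finset.mem_erase] at hj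
      exact h i hi j hj.2 (Ne.symm hj.1)
    calc v (R i) ≤ _ := hv.mono _ _ hsub
      _ ≤ _ := hv.sub _ _
      _ ≤ v (R' i) + 0 := by linarith
      _ = v (R' i) := add_zero _
  have h3 : ∀ i ∈ s, ∀ j ∈ s, i ≠ j → Disjoint (R' i) (R' j) := by
    intro i hi j hj hij
    rw [Set.disjoint_left]
    intro a ha hb
    apply ha.2
    simp only [mem_iUnion]
    exact ⟨j, Finset.mem_erase.2 ⟨Ne.symm hij, hj⟩, hb.1⟩
  refine (Finset.sum_le_sum h1).trans ?_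
  -- reindex
  have e := s.equivFin
  set R'' : ℕ → Set ℕ := fun k => if hk : k < s.card then R' (e.symm ⟨k, hk⟩) else ∅ with hR''
  have h4 := hC s.card R'' (by
    intro i hi j hj hij
    simp only [hR'', hi, hj, dif_pos]
    apply h3 _ (e.symm ⟨i, hi⟩).2 _ (e.symm ⟨j, hj⟩).2
    intro heq
    have := e.symm.injective (Subtype.ext heq)
    exact hij (by simpa using this))
  refine le_trans (le_of_eq ?_) h4
  rw [Finset.sum_range fun i => v (R'' i)]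
  rw [← Finset.sum_coe_sort s, ← Equiv.sum_comp e.symm]
  refine Finset.sum_congr rfl ?_
  intro k _
  simp [hR'']

/-- a set of positive outer measure contains a sequence with almost disjoint `zs` -/
theorem exists_almost_disjoint {A : Set Om} (hA : P A ≠ 0) :
    ∃ x : ℕ → Om, (∀ n, x n ∈ A) ∧ ∀ m n, m < n → (zs 0 (x m) ∩ zs 0 (x n)).Finite := by
  apply exists_seq_of_forall_finset_exists (fun x => x ∈ A)
    (fun x y => (zs 0 x ∩ zs 0 y).Finite)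
  intro s _
  have h1 : ∃ c, Sparse c (⋃ x ∈ s, zs 0 x) := by
    classical
    clear * - s
    induction s using Finset.induction_on with
    | empty => exact ⟨0, fun k => by simp⟩
    | insert a s ha ih =>
      obtain ⟨c, hc⟩ := ih
      rw [Finset.set_biUnion_insert]
      exact ⟨_, sparse_union (zs_sparse 0 a) hc⟩
  obtain ⟨c, hc⟩ := h1
  have h2 := sparse_ae hc
  obtain ⟨y, hyA, hy⟩ : ∃ y ∈ A, (zs 0 y ∩ ⋃ x ∈ s, zs 0 x).Finite := by
    by_contra hcon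
    push Not at hcon
    apply hA
    refine measure_mono_null ?_ h2
    intro y hy
    exact hcon y hy
  refine ⟨y, hyA, fun x hx => hy.subset ?_⟩
  rintro a ⟨ha, hb⟩
  refine ⟨hb, ?_⟩
  simp only [mem_iUnion]
  exact ⟨x, hx, ha⟩

theorem inter_null_of_almost_disjoint {v : Set ℕ → ℝ} (hv : IsSubm v) {x : ℕ → Om}
    (hx : ∀ m n, m < n → (zs 0 (x m) ∩ zs 0 (x n)).Finite) (i j : ℕ) (hij : i ≠ j) :
    v (zs 0 (x i) ∩ zs 0 (x j)) = 0 := by
  rcases lt_or_gt_of_ne hij with h | h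
  · exact hv.fin _ (hx i j h)
  · rw [inter_comm]
    exact hv.fin _ (hx j i h)

theorem subm_null {v : Set ℕ → ℝ} (hv : IsSubm v) : ∀ᵐ w ∂P, v (zs 0 w) = 0 := by
  rw [ae_iff]
  by_contra hne
  have h1 : {w : Om | ¬ v (zs 0 w) = 0} ⊆ ⋃ r : ℕ, {w : Om | 1 / ((r : ℝ) + 1) < v (zs 0 w)} := by
    intro w hw
    have h0 : 0 < v (zs 0 w) := lt_of_le_of_ne (hv.nonneg _) (Ne.symm hw)
    obtain ⟨r, hr⟩ := exists_nat_one_div_lt h0
    exact mem_iUnion.2 ⟨r, hr⟩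
  obtain ⟨r, hr⟩ : ∃ r : ℕ, P {w : Om | 1 / ((r : ℝ) + 1) < v (zs 0 w)} ≠ 0 := by
    by_contra hcon
    push Not at hcon
    exact hne (measure_mono_null h1 (measure_iUnion_null hcon))
  obtain ⟨x, hxA, hx⟩ := exists_almost_disjoint hr
  obtain ⟨C, hC⟩ := hv.exh_ae
  have hpos : (0 : ℝ) < 1 / ((r : ℝ) + 1) := by positivity
  obtain ⟨n, hn⟩ := exists_nat_gt (C / (1 / ((r : ℝ) + 1)))
  have h2 := hC ℕ (Finset.range n) (fun i => zs 0 (x i))
    (fun i _ j _ hij => inter_null_of_almost_disjoint hv hx i j hij)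
  have h3 : (n : ℝ) * (1 / ((r : ℝ) + 1)) ≤ ∑ i ∈ Finset.range n, v (zs 0 (x i)) := by
    calc (n : ℝ) * (1 / ((r : ℝ) + 1)) = ∑ i ∈ Finset.range n, (1 / ((r : ℝ) + 1)) := by
          rw [Finset.sum_const, Finset.card_range, nsmul_eq_mul]
      _ ≤ _ := Finset.sum_le_sum (fun i _ => le_of_lt (hxA i))
  rw [div_lt_iff₀ hpos] at hn
  linarith

theorem subm_bad (D : Set Om) (hD : P D = 1) (v : Om → Set ℕ → ℝ) (hv : ∀ w, IsSubm (v w))
    (ε : ℝ) (hε : 0 < ε) : ∀ᵐ x ∂P, P {w | w ∈ D ∧ v w (zs 0 x) < ε} = 1 := by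
  rw [ae_iff]
  by_contra hne
  set B : ℕ → Set Om := fun r =>
    {x : Om | P {w | w ∈ D ∧ v w (zs 0 x) < ε} ≤ 1 - ((r : ℝ≥0∞) + 1)⁻¹} with hB
  have h1 : {x : Om | ¬ P {w | w ∈ D ∧ v w (zs 0 x) < ε} = 1} ⊆ ⋃ r : ℕ, B r := by
    intro x hx
    have h0 : P {w | w ∈ D ∧ v w (zs 0 x) < ε} < 1 := lt_of_le_of_ne prob_le_one hx
    have h0' : (1 - P {w | w ∈ D ∧ v w (zs 0 x) < ε}) ≠ 0 := (tsub_pos_of_lt h0).ne'
    obtain ⟨r, hr⟩ := ENNReal.exists_inv_nat_lt h0'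
    refine mem_iUnion.2 ⟨r, ?_⟩
    change P {w | w ∈ D ∧ v w (zs 0 x) < ε} ≤ 1 - ((r : ℝ≥0∞) + 1)⁻¹
    have h3 : ((r : ℝ≥0∞) + 1)⁻¹ ≤ 1 - P {w | w ∈ D ∧ v w (zs 0 x) < ε} :=
      le_trans (ENNReal.inv_le_inv.2 le_self_add) hr.le
    have h4 : ((r : ℝ≥0∞) + 1)⁻¹ ≤ 1 := by
      rw [ENNReal.inv_le_one]
      exact le_add_self
    calc P {w | w ∈ D ∧ v w (zs 0 x) < ε}
        = 1 - (1 - P {w | w ∈ D ∧ v w (zs 0 x) < ε}) :=
          (ENNReal.sub_sub_cancel ENNReal.one_ne_top h0.le).symm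
      _ ≤ 1 - ((r : ℝ≥0∞) + 1)⁻¹ := tsub_le_tsub_left h3 1
  obtain ⟨r, hr⟩ : ∃ r : ℕ, P (B r) ≠ 0 := by
    by_contra hcon
    push Not at hcon
    exact hne (measure_mono_null h1 (measure_iUnion_null hcon))
  obtain ⟨x, hxA, hx⟩ := exists_almost_disjoint hr
  set DN : ℕ → Set Om := fun N => {w | w ∈ D ∧ ∀ i, N ≤ i → v w (zs 0 (x i)) < ε} with hDN
  have hmono : Monotone DN := by
    intro N N' hNN w hw
    exact ⟨hw.1, fun i hi => hw.2 i (hNN.trans hi)⟩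
  have hcov : D ⊆ ⋃ N, DN N := by
    intro w hw
    obtain ⟨C, hC⟩ := (hv w).exh_ae
    have hfin : {i : ℕ | ε ≤ v w (zs 0 (x i))}.Finite := by
      by_contra hinf
      obtain ⟨n, hn⟩ := exists_nat_gt (C / ε)
      obtain ⟨s, hs, hcard⟩ := Set.Infinite.exists_subset_card_eq hinf n
      have h2 := hC ℕ s (fun i => zs 0 (x i))
        (fun i _ j _ hij => inter_null_of_almost_disjoint (hv w) hx i j hij)
      have h3 : (n : ℝ) * ε ≤ ∑ i ∈ s, v w (zs 0 (x i)) := by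
        calc (n : ℝ) * ε = ∑ i ∈ s, ε := by
              rw [Finset.sum_const, hcard, nsmul_eq_mul]
          _ ≤ _ := Finset.sum_le_sum (fun i hi => hs hi)
      rw [div_lt_iff₀ hε] at hn
      linarith
    obtain ⟨N, hN⟩ := hfin.bddAbove
    refine mem_iUnion.2 ⟨N + 1, hw, fun i hi => ?_⟩
    by_contra hcon
    have := hN (show i ∈ {i : ℕ | ε ≤ v w (zs 0 (x i))} from not_lt.1 hcon)
    omega
  have hle : P D ≤ 1 - ((r : ℝ≥0∞) + 1)⁻¹ := by
    calc P D ≤ P (⋃ N, DN N) := measure_mono hcov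
      _ = ⨆ N, P (DN N) := hmono.measure_iUnion
      _ ≤ _ := by
        refine iSup_le fun N => ?_
        have hN : DN N ⊆ {w | w ∈ D ∧ v w (zs 0 (x N)) < ε} := fun w hw => ⟨hw.1, hw.2 N le_rfl⟩
        exact (measure_mono hN).trans (hxA N)
  rw [hD] at hle
  have hlt : 1 - ((r : ℝ≥0∞) + 1)⁻¹ < 1 := by
    apply ENNReal.sub_lt_self ENNReal.one_ne_top one_ne_zero
    apply ENNReal.inv_ne_zero.2
    exact ENNReal.add_ne_top.2 ⟨ENNReal.natCast_ne_top r, ENNReal.one_ne_top⟩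
  exact absurd hle (not_le.2 hlt)

/-- in an uncountable family of sets, pairwise disjoint up to null sets, some member is null;
in fact all but countably many -/
theorem subm_countable {ι : Type} {v : Set ℕ → ℝ} (hv : IsSubm v) (S : Set ι)
    (R : ι → Set ℕ) (h : ∀ i ∈ S, ∀ j ∈ S, i ≠ j → v (R i ∩ R j) = 0) :
    {i ∈ S | v (R i) ≠ 0}.Countable := by
  obtain ⟨C, hC⟩ := hv.exh_ae
  have h1 : {i ∈ S | v (R i) ≠ 0} ⊆ ⋃ r : ℕ, {i ∈ S | 1 / ((r : ℝ) + 1) < v (R i)} := by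
    rintro i ⟨hi, hne⟩
    have h0 : 0 < v (R i) := lt_of_le_of_ne (hv.nonneg _) (Ne.symm hne)
    obtain ⟨r, hr⟩ := exists_nat_one_div_lt h0
    exact mem_iUnion.2 ⟨r, hi, hr⟩
  refine Set.Countable.mono h1 (countable_iUnion fun r => Set.Finite.countable ?_)
  by_contra hinf
  have hpos : (0 : ℝ) < 1 / ((r : ℝ) + 1) := by positivity
  obtain ⟨n, hn⟩ := exists_nat_gt (C / (1 / ((r : ℝ) + 1)))
  obtain ⟨s, hs, hcard⟩ := Set.Infinite.exists_subset_card_eq hinf n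
  have h2 := hC ι s R (fun i hi j hj hij => h i (hs hi).1 j (hs hj).1 hij)
  have h3 : (n : ℝ) * (1 / ((r : ℝ) + 1)) ≤ ∑ i ∈ s, v (R i) := by
    calc (n : ℝ) * (1 / ((r : ℝ) + 1)) = ∑ i ∈ s, (1 / ((r : ℝ) + 1)) := by
          rw [Finset.sum_const, hcard, nsmul_eq_mul]
      _ ≤ _ := Finset.sum_le_sum (fun i hi => (hs hi).2.le)
  rw [div_lt_iff₀ hpos] at hn
  linarith

end Pool.Agent.Linf
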