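import Pool.Agent.Helper93.Linf.Comb1
import Pool.Agent.Helper93.Linf.Subm
import Pool.Agent.Helper93.Linf.Br1

/-!
# MP_2ac9e4_an, module BR2: a branch of the tree along which the later sets are null
-/

namespace Pool.Agent.Linf

open MeasureTheory Set Filter
open scoped ENNReal Topology

theorem path_lev {E : Set Om} {T : ℕ → Set Om} {V : ℕ → Om → Set ℕ → ℝ}
    {mo : ℕ → Om → ℕ} {nd : ℕ → Node} (h : TreeSpec E T V mo nd) (f : ℕ → Bool) (n : ℕ) :
    (nd (path f n)).lev = n := by
  induction n with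
  | zero => exact h.root
  | succ n ih =>
    show (nd (child (path f n) (f n))).lev = n + 1
    rw [h.lev, ih]

theorem br2_child_inj {j j' : ℕ} {b b' : Bool} (h : child j b = child j' b') : j = j' ∧ b = b' := by
  unfold child at h
  cases b <;> cases b' <;> simp at h ⊢ <;> omega

theorem br2_child_lt (j : ℕ) (b : Bool) : j < child j b := by
  unfold child; omega

theorem br2_path_lt (f : ℕ → Bool) {n i : ℕ} (h : n < i) : path f n < path f i := by
  induction i with
  | zero => omega
  | succ i ih =>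
    have h1 : path f i < path f (i + 1) := br2_child_lt _ _
    rcases Nat.lt_or_ge n i with h2 | h2
    · exact (ih h2).trans h1
    · have : n = i := by omega
      rw [this]; exact h1

theorem br2_path_le (f : ℕ → Bool) {n i : ℕ} (h : n ≤ i) : path f n ≤ path f i := by
  rcases Nat.lt_or_ge n i with h2 | h2
  · exact (br2_path_lt f h2).le
  · have : n = i := by omega
    rw [this]

/-- equal nodes of two branches: same prefix -/
theorem br2_path_eq {f g : ℕ → Bool} {i : ℕ} (h : path f i = path g i) : ∀ l < i, f l = g l := by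
  induction i with
  | zero => intro l hl; omega
  | succ i ih =>
    have h1 := br2_child_inj (h : child (path f i) (f i) = child (path g i) (g i))
    intro l hl
    rcases Nat.lt_or_ge l i with h2 | h2
    · exact ih h1.1 l h2
    · have : l = i := by omega
      rw [this]; exact h1.2

theorem br2_path_eq' {E : Set Om} {T : ℕ → Set Om} {V : ℕ → Om → Set ℕ → ℝ}
    {mo : ℕ → Om → ℕ} {nd : ℕ → Node} (h : TreeSpec E T V mo nd) {f g : ℕ → Bool} {i i' : ℕ}
    (hp : path f i = path g i') : i = i' := by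
  have h1 := path_lev h f i
  rw [hp, path_lev h g i'] at h1
  exact h1.symm

/-- finite unions of null sets are null -/
theorem br2_null {v : Set ℕ → ℝ} (hv : IsSubm v) (R : ℕ → Set ℕ) (N : ℕ)
    (h : ∀ i < N, v (R i) = 0) (A : Set ℕ) (hA : ∀ a ∈ A, ∃ i < N, a ∈ R i) : v A = 0 := by
  have key : ∀ M ≤ N, v {a | ∃ i < M, a ∈ R i} = 0 := by
    intro M
    induction M with
    | zero =>
      intro _
      have : {a | ∃ i < 0, a ∈ R i} = (∅ : Set ℕ) := by
        ext a; simp
      rw [this]; exact hv.fin _ finite_empty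
    | succ M ih =>
      intro hM
      have h1 := ih (by omega)
      have h2 : {a | ∃ i < M + 1, a ∈ R i} ⊆ {a | ∃ i < M, a ∈ R i} ∪ R M := by
        rintro a ⟨i, hi, ha⟩
        rcases Nat.lt_or_ge i M with h3 | h3
        · exact Or.inl ⟨i, h3, ha⟩
        · have : i = M := by omega
          exact Or.inr (this ▸ ha)
      have h3 := hv.mono _ _ h2
      have h4 := hv.sub {a | ∃ i < M, a ∈ R i} (R M)
      rw [h1, h M (by omega)] at h4
      have h5 := hv.nonneg {a | ∃ i < M + 1, a ∈ R i}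
      linarith
  have h1 := hv.mono A {a | ∃ i < N, a ∈ R i} (fun a ha => hA a ha)
  rw [key N le_rfl] at h1
  exact le_antisymm h1 (hv.nonneg A)

theorem br2_BB {E : Set Om} {T : ℕ → Set Om} {V : ℕ → Om → Set ℕ → ℝ}
    (hV : ∀ n w, IsSubm (V n w)) {mo : ℕ → Om → ℕ} {nd : ℕ → Node} (h : TreeSpec E T V mo nd)
    {f g : ℕ → Bool} {N : ℕ} (hN : f N ≠ g N) (n m : ℕ) (w : Om) :
    V m w (BB nd f n ∩ BB nd g n) = 0 := by
  apply (hV m w).fin
  have hfin : (⋃ i ∈ Finset.range (N + 1), ⋃ k ∈ Finset.range (nd (path f i)).K', J k).Finite := by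
    apply Set.Finite.biUnion (Finset.finite_toSet _)
    intro i _
    apply Set.Finite.biUnion (Finset.finite_toSet _)
    intro k _
    exact J_finite k
  refine hfin.subset ?_
  rintro a ⟨⟨i, hi, k, hk1, hk2, hak⟩, ⟨i', hi', k', hk1', hk2', hak'⟩⟩
  have hkk : k = k' := by
    by_contra hne
    exact Set.disjoint_left.1 (J_disjoint hne) hak hak'
  subst hkk
  have hp : path f i = path g i' := by
    rcases lt_trichotomy (path f i) (path g i') with h1 | h1 | h1
    · have := h.K'K _ _ h1; omega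
    · exact h1
    · have := h.K'K _ _ h1; omega
  have hii : i = i' := br2_path_eq' h hp
  subst hii
  have hiN : i ≤ N := by
    by_contra hlt
    exact hN (br2_path_eq hp N (by omega))
  simp only [mem_iUnion, Finset.mem_range]
  exact ⟨i, by omega, k, hk2, hak⟩

theorem br2_RR {E : Set Om} {T : ℕ → Set Om} {V : ℕ → Om → Set ℕ → ℝ}
    (hV : ∀ n w, IsSubm (V n w)) {mo : ℕ → Om → ℕ} {nd : ℕ → Node} (h : TreeSpec E T V mo nd)
    {f g : ℕ → Bool} {N : ℕ} (hN : f N ≠ g N) (n : ℕ) :
    V n (nd (path f n)).pt (RR nd f n ∩ RR nd g n) = 0 := by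
  have hz : ∀ K w, zs K w ⊆ zs 0 w := fun K w => zs_anti w (Nat.zero_le K)
  have hlev := path_lev h f n
  have hv := hV n (nd (path f n)).pt
  -- the two kinds of null sets
  have hA : V n (nd (path f n)).pt
      (RR nd f n ∩ RR nd g n ∩ {a | ∃ i, n < i ∧ i ≤ N ∧ a ∈ zs 0 (nd (path f i)).pt}) = 0 := by
    apply br2_null hv (fun i => if n < i then zs 0 (nd (path f i)).pt else ∅) (N + 1)
    · intro i _
      by_cases hi : n < i
      · simp only [if_pos hi]
        have := h.vp _ _ (br2_path_lt f hi)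
        rwa [hlev] at this
      · simp only [if_neg hi]
        exact hv.fin _ finite_empty
    · rintro a ⟨_, i, hi, hiN, ha⟩
      exact ⟨i, by omega, by simp only [if_pos hi]; exact ha⟩
  have hB : V n (nd (path f n)).pt
      (RR nd f n ∩ RR nd g n ∩ {a | ∃ i, n ≤ i ∧ i ≤ N ∧ a ∈ zs 0 ((nd (path f i)).w (f i))}) = 0 := by
    apply br2_null hv (fun i => if n ≤ i then zs 0 ((nd (path f i)).w (f i)) else ∅) (N + 1)
    · intro i _
      by_cases hi : n ≤ i
      · simp only [if_pos hi]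
        have := h.vw _ _ (f i) (br2_path_le f hi)
        rwa [hlev] at this
      · simp only [if_neg hi]
        exact hv.fin _ finite_empty
    · rintro a ⟨_, i, hi, hiN, ha⟩
      exact ⟨i, by omega, by simp only [if_pos hi]; exact ha⟩
  have hsub : RR nd f n ∩ RR nd g n ⊆
      (RR nd f n ∩ RR nd g n ∩ {a | ∃ i, n < i ∧ i ≤ N ∧ a ∈ zs 0 (nd (path f i)).pt}) ∪
      (RR nd f n ∩ RR nd g n ∩
        {a | ∃ i, n ≤ i ∧ i ≤ N ∧ a ∈ zs 0 ((nd (path f i)).w (f i))}) := by
    intro a ha
    have hle : ∀ i i', path f i = path g i' → i ≤ N := by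
      intro i i' hp
      have hii := br2_path_eq' h hp
      subst hii
      by_contra hlt
      exact hN (br2_path_eq hp N (by omega))
    obtain ⟨hf, hg⟩ := ha
    rcases hf with ⟨i, hi, hai⟩ | ⟨i, hi, hai⟩
    · rcases hg with ⟨i', hi', hai'⟩ | ⟨i', hi', hai'⟩
      · rcases lt_trichotomy (path f i) (path g i') with h1 | h1 | h1
        · exact absurd (hz _ _ hai) (Set.disjoint_left.1 (h.dpp _ _ h1) hai')
        · exact Or.inl ⟨⟨Or.inl ⟨i, hi, hai⟩, Or.inl ⟨i', hi', hai'⟩⟩,
            i, hi, hle i i' h1, hz _ _ hai⟩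
        · exact absurd (hz _ _ hai') (Set.disjoint_left.1 (h.dpp _ _ h1) hai)
      · exfalso
        rcases Nat.lt_or_ge (path g i') (path f i) with h1 | h1
        · exact Set.disjoint_left.1 (h.dpw _ _ (g i') h1) hai (hz _ _ hai')
        · exact Set.disjoint_left.1 (h.dwp _ _ (g i') h1) hai' (hz _ _ hai)
    · rcases hg with ⟨i', hi', hai'⟩ | ⟨i', hi', hai'⟩
      · exfalso
        rcases Nat.lt_or_ge (path f i) (path g i') with h1 | h1
        · exact Set.disjoint_left.1 (h.dpw _ _ (f i) h1) hai' (hz _ _ hai)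
        · exact Set.disjoint_left.1 (h.dwp _ _ (f i) h1) hai (hz _ _ hai')
      · rcases lt_trichotomy (path f i) (path g i') with h1 | h1 | h1
        · exact absurd (hz _ _ hai) (Set.disjoint_left.1 (h.dww _ _ _ _ h1) hai')
        · exact Or.inr ⟨⟨Or.inr ⟨i, hi, hai⟩, Or.inr ⟨i', hi', hai'⟩⟩,
            i, hi, hle i i' h1, hz _ _ hai⟩
        · exact absurd (hz _ _ hai') (Set.disjoint_left.1 (h.dww _ _ _ _ h1) hai)
  have h1 := hv.mono _ _ hsub
  have h2 := hv.sub
    (RR nd f n ∩ RR nd g n ∩ {a | ∃ i, n < i ∧ i ≤ N ∧ a ∈ zs 0 (nd (path f i)).pt})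
    (RR nd f n ∩ RR nd g n ∩ {a | ∃ i, n ≤ i ∧ i ≤ N ∧ a ∈ zs 0 ((nd (path f i)).w (f i))})
  rw [hA, hB] at h2
  have h3 := hv.nonneg (RR nd f n ∩ RR nd g n)
  linarith

theorem branch_good {E : Set Om} {T : ℕ → Set Om} {V : ℕ → Om → Set ℕ → ℝ}
    (hV : ∀ n w, IsSubm (V n w)) {mo : ℕ → Om → ℕ} {nd : ℕ → Node} (h : TreeSpec E T V mo nd) :
    ∃ f : ℕ → Bool, ∀ n, V n (nd (path f n)).pt (BB nd f n) = 0 ∧
      V n (nd (path f n)).pt (RR nd f n) = 0 := by
  have hc : (⋃ n : ℕ, ⋃ j : ℕ,
      ({f | f ∈ {f : ℕ → Bool | path f n = j} ∧ V n (nd j).pt (BB nd f n) ≠ 0} ∪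
       {f | f ∈ {f : ℕ → Bool | path f n = j} ∧ V n (nd j).pt (RR nd f n) ≠ 0})).Countable := by
    apply Set.countable_iUnion
    intro n
    apply Set.countable_iUnion
    intro j
    apply Set.Countable.union
    · apply subm_countable (hV n (nd j).pt) {f : ℕ → Bool | path f n = j} (fun f => BB nd f n)
      intro f _ g _ hne
      obtain ⟨N, hN⟩ := Function.ne_iff.1 hne
      exact br2_BB hV h hN n n _
    · apply subm_countable (hV n (nd j).pt) {f : ℕ → Bool | path f n = j} (fun f => RR nd f n)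
      intro f hf g _ hne
      obtain ⟨N, hN⟩ := Function.ne_iff.1 hne
      have hf' : path f n = j := hf
      have := br2_RR hV h hN n
      rw [hf'] at this
      exact this
  have hne : (⋃ n : ℕ, ⋃ j : ℕ,
      ({f | f ∈ {f : ℕ → Bool | path f n = j} ∧ V n (nd j).pt (BB nd f n) ≠ 0} ∪
       {f | f ∈ {f : ℕ → Bool | path f n = j} ∧ V n (nd j).pt (RR nd f n) ≠ 0})) ≠ univ := by
    intro he
    rw [he] at hc
    have hu : ¬ (univ : Set (ℕ → Bool)).Countable := by
      rw [Set.countable_univ_iff, ← Cardinal.mk_le_aleph0_iff, not_le]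
      simpa using Cardinal.cantor Cardinal.aleph0
    exact hu hc
  obtain ⟨f, hf⟩ := (Set.ne_univ_iff_exists_notMem _).1 hne
  refine ⟨f, fun n => ?_⟩
  simp only [mem_iUnion, not_exists] at hf
  have h1 := hf n (path f n)
  rw [Set.mem_union, not_or] at h1
  constructor
  · by_contra h2
    exact h1.1 ⟨rfl, h2⟩
  · by_contra h2
    exact h1.2 ⟨rfl, h2⟩

end Pool.Agent.Linf
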