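import Pool.Agent.Helper93.Linf.LDefs

/-! # MP_2ac9e4_an: a Fubini argument with a total measure (module FUB) -/

namespace Pool.Agent.Linf

open MeasureTheory Set Filter
open scoped ENNReal Topology

theorem total_fubini {ι : Type} [LinearOrder ι] [MeasurableSpace ι] [DiscreteMeasurableSpace ι]
    (lam : Measure ι) [IsFiniteMeasure lam] (hl : lam univ ≠ 0)
    (hseg : ∀ a : ι, lam (Iic a) = 0) (f : ι → (ℕ → Bool))
    (hf : lam.map f = lam univ • coin ℕ) (hnull : ∀ a : ι, coin ℕ (f '' Iio a) = 0) : False := by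
  have hfm : Measurable f := Measurable.of_discrete
  have hO : ∀ (a : ι) (m : ℕ), ∃ U : Set (ℕ → Bool), f '' Iio a ⊆ U ∧ IsOpen U ∧
      coin ℕ U < (2 : ℝ≥0∞)⁻¹ ^ m := by
    intro a m
    obtain ⟨U, h1, h2, h3⟩ := (f '' Iio a).exists_isOpen_lt_of_lt (μ := coin ℕ)
      ((2 : ℝ≥0∞)⁻¹ ^ m) (by
        rw [hnull a]
        exact ENNReal.pow_pos (by simp) m)
    exact ⟨U, h1, h2, h3⟩
  choose O hO1 hO2 hO3 using hO
  set G : Set (ι × (ℕ → Bool)) := {p | ∀ m, p.2 ∈ O p.1 m} with hGdef
  have hG : MeasurableSet G := by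
    have h : G = ⋂ m : ℕ, ⋃ s ∈ TopologicalSpace.countableBasis (ℕ → Bool),
        {a : ι | s ⊆ O a m} ×ˢ s := by
      ext ⟨a, x⟩
      simp only [hGdef, mem_ofPred_eq, mem_iInter, mem_iUnion, mem_prod, exists_prop]
      constructor
      · intro hx m
        obtain ⟨s, hs, hxs, hsub⟩ :=
          (TopologicalSpace.isBasis_countableBasis (ℕ → Bool)).exists_subset_of_mem_open
            (hx m) (hO2 a m)
        exact ⟨s, hs, hsub, hxs⟩
      · intro hx m
        obtain ⟨s, _, hsub, hxs⟩ := hx m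
        exact hsub hxs
    rw [h]
    refine MeasurableSet.iInter fun m => ?_
    refine MeasurableSet.biUnion (TopologicalSpace.countable_countableBasis _) fun s hs => ?_
    exact (MeasurableSet.of_discrete).prod
      (TopologicalSpace.isOpen_of_mem_countableBasis hs).measurableSet
  have h1 : (lam.prod (coin ℕ)) G = 0 := by
    rw [Measure.prod_apply hG]
    refine (lintegral_eq_zero_iff (measurable_measure_prodMk_left hG)).2 ?_
    refine Eventually.of_forall fun a => ?_
    show coin ℕ (Prod.mk a ⁻¹' G) = 0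
    have h2 : ∀ m : ℕ, coin ℕ (Prod.mk a ⁻¹' G) ≤ (2 : ℝ≥0∞)⁻¹ ^ m := by
      intro m
      refine (measure_mono ?_).trans (hO3 a m).le
      intro x hx
      exact hx m
    have h3 : Tendsto (fun m : ℕ => (2 : ℝ≥0∞)⁻¹ ^ m) atTop (𝓝 0) :=
      ENNReal.tendsto_pow_atTop_nhds_zero_of_lt_one (by simp)
    exact le_antisymm (ge_of_tendsto' h3 h2) zero_le
  rw [Measure.prod_apply_symm hG] at h1
  have hmeas := measurable_measure_prodMk_right (μ := lam) hG
  rw [lintegral_eq_zero_iff hmeas] at h1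
  set H : Set (ℕ → Bool) := {x | lam ((fun a => (a, x)) ⁻¹' G) ≠ 0} with hH
  have hHm : MeasurableSet H := (hmeas (measurableSet_singleton 0)).compl
  have hH0 : coin ℕ H = 0 := by
    have h4 := h1
    rw [Filter.EventuallyEq, ae_iff] at h4
    exact h4
  have hsub : f ⁻¹' H = univ := by
    ext b
    simp only [mem_preimage, mem_univ, iff_true, hH, mem_ofPred_eq]
    intro h0
    have h5 : Ioi b ⊆ (fun a => (a, f b)) ⁻¹' G := by
      intro a ha m
      exact hO1 a m ⟨b, ha, rfl⟩
    have h6 : lam (Ioi b) = 0 := measure_mono_null h5 h0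
    apply hl
    have h7 : (univ : Set ι) = Iic b ∪ Ioi b := by
      rw [Iic_union_Ioi]
    rw [h7]
    exact measure_union_null (hseg b) h6
  have h8 : lam.map f H = lam univ := by
    rw [Measure.map_apply hfm hHm, hsub]
  rw [hf, Measure.smul_apply, hH0, smul_zero] at h8
  exact hl h8.symm

end Pool.Agent.Linf
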