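import Pool.Agent.Helper93.Linf.Defs

/-! Module HALF of MP_2ac9e4_an: an atomless total measure on a set which injects into the reals
maps onto the coin measure. -/

namespace Pool.Agent.Linf

open MeasureTheory Set Filter
open scoped ENNReal Topology

namespace Half

/-- (same statement as `coin_cyl` in Coin.lean, local copy so that this file is independent) -/
theorem coin_cyl' {A : Type} (s : Finset A) (f : A → Bool) :
    coin A {x | ∀ a ∈ s, x a = f a} = (2 : ℝ≥0∞)⁻¹ ^ s.card := by
  have h : {x : A → Bool | ∀ a ∈ s, x a = f a} = Set.pi (s : Set A) (fun a => {f a}) := by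
    ext x; simp [Set.mem_pi]
  rw [h, coin, Measure.infinitePi_pi (fun _ => coin1) (fun i _ => measurableSet_singleton _)]
  simp [coin1_singleton]

end Half

theorem halve {S : Type} [MeasurableSpace S] [DiscreteMeasurableSpace S] (j : S → ℝ)
    (hj : Function.Injective j) (lam : Measure S) [IsFiniteMeasure lam] (h0 : ∀ a, lam {a} = 0)
    (C : Set S) : ∃ D ⊆ C, lam D = lam C / 2 := by
  classical
  set c := lam C with hc
  have hcfin : c ≠ ⊤ := measure_ne_top _ _
  rcases eq_or_ne c 0 with hc0 | hc0
  · exact ⟨∅, empty_subset _, by simp [hc0]⟩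
  set g : ℝ → ℝ≥0∞ := fun t => lam (C ∩ j ⁻¹' Iic t) with hg
  have hmono : Monotone g := fun s t h => measure_mono
    (inter_subset_inter_right _ (preimage_mono (Iic_subset_Iic.2 h)))
  have hhalf : c / 2 < c := ENNReal.half_lt_self hc0 hcfin
  have hhalf0 : 0 < c / 2 := ENNReal.half_pos hc0
  -- limit at top
  have htop : ∃ t, c / 2 ≤ g t := by
    by_contra hcon
    push Not at hcon
    have hU : C = ⋃ n : ℕ, (C ∩ j ⁻¹' Iic (n : ℝ)) := by
      ext a
      simp only [mem_iUnion, mem_inter_iff, mem_preimage, mem_Iic]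
      constructor
      · intro ha
        obtain ⟨n, hn⟩ := exists_nat_ge (j a)
        exact ⟨n, ha, hn⟩
      · rintro ⟨n, ha, -⟩
        exact ha
    have hm : Monotone (fun n : ℕ => C ∩ j ⁻¹' Iic (n : ℝ)) := by
      intro m n h
      exact inter_subset_inter_right _ (preimage_mono (Iic_subset_Iic.2 (by exact_mod_cast h)))
    have : c = ⨆ n : ℕ, g n := by
      rw [hc, hU, hm.measure_iUnion]
    have h2 : c ≤ c / 2 := by
      rw [this]
      conv_rhs => rw [← this]
      exact iSup_le fun n => (hcon n).le
    exact absurd h2 (not_le.2 hhalf)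
  -- limit at bottom
  have hbot : ∃ t, g t < c / 2 := by
    by_contra hcon
    push Not at hcon
    have hI : (⋂ n : ℕ, (C ∩ j ⁻¹' Iic (-(n : ℝ)))) = ∅ := by
      ext a
      simp only [mem_iInter, mem_inter_iff, mem_preimage, mem_Iic, mem_empty_iff_false, iff_false]
      intro h
      obtain ⟨n, hn⟩ := exists_nat_gt (-(j a))
      have := (h n).2
      linarith
    have hm : Antitone (fun n : ℕ => C ∩ j ⁻¹' Iic (-(n : ℝ))) := by
      intro m n h
      exact inter_subset_inter_right _ (preimage_mono (Iic_subset_Iic.2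
        (by have : (m : ℝ) ≤ n := by exact_mod_cast h
            linarith)))
    have hlim := tendsto_measure_iInter_atTop (μ := lam)
      (fun n : ℕ => (MeasurableSet.of_discrete (s := C ∩ j ⁻¹' Iic (-(n : ℝ)))).nullMeasurableSet)
      hm ⟨0, measure_ne_top _ _⟩
    rw [hI, measure_empty] at hlim
    have h2 : c / 2 ≤ 0 := ge_of_tendsto' hlim fun n => hcon _
    exact absurd h2 (not_le.2 hhalf0)
  obtain ⟨t1, ht1⟩ := htop
  obtain ⟨t2, ht2⟩ := hbot
  set A : Set ℝ := {t | c / 2 ≤ g t} with hA
  have hAne : A.Nonempty := ⟨t1, ht1⟩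
  have hAbdd : BddBelow A := ⟨t2, fun t ht => by
    by_contra h
    push Not at h
    exact absurd (lt_of_le_of_lt (le_trans ht (hmono h.le)) ht2) (lt_irrefl _)⟩
  set t0 := sInf A with ht0
  have hle : ∀ t, t0 < t → c / 2 ≤ g t := by
    intro t ht
    obtain ⟨s, hs, hst⟩ := (csInf_lt_iff hAbdd hAne).1 ht
    exact le_trans hs (hmono hst.le)
  have hlt : ∀ t, t < t0 → g t < c / 2 := by
    intro t ht
    by_contra h
    push Not at h
    exact absurd (csInf_le hAbdd h) (not_le.2 ht)
  refine ⟨C ∩ j ⁻¹' Iic t0, inter_subset_left, le_antisymm ?_ ?_⟩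
  · -- `g t0 = lam (C ∩ j⁻¹ Iio t0) ≤ c/2`
    have h1 : C ∩ j ⁻¹' Iic t0 ⊆ (⋃ n : ℕ, (C ∩ j ⁻¹' Iic (t0 - 1 / ((n : ℝ) + 1)))) ∪ j ⁻¹' {t0} := by
      rintro a ⟨ha, hja⟩
      rcases eq_or_lt_of_le (show j a ≤ t0 from hja) with h | h
      · exact Or.inr h
      · left
        obtain ⟨n, hn⟩ := exists_nat_one_div_lt (sub_pos.2 h)
        exact mem_iUnion.2 ⟨n, ha, by
          simp only [mem_preimage, mem_Iic]
          linarith⟩
    have hfib : lam (j ⁻¹' {t0}) = 0 := by
      have hs : (j ⁻¹' {t0}).Subsingleton := fun a ha b hb => hj (ha.trans hb.symm)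
      rcases hs.eq_empty_or_singleton with h | ⟨a, h⟩
      · rw [h, measure_empty]
      · rw [h, h0]
    have hm : Monotone (fun n : ℕ => C ∩ j ⁻¹' Iic (t0 - 1 / ((n : ℝ) + 1))) := by
      intro m n h
      refine inter_subset_inter_right _ (preimage_mono (Iic_subset_Iic.2 ?_))
      have := Nat.one_div_le_one_div (α := ℝ) h
      linarith
    calc lam (C ∩ j ⁻¹' Iic t0) ≤ _ := measure_mono h1
      _ ≤ _ := measure_union_le _ _
      _ = lam (⋃ n : ℕ, (C ∩ j ⁻¹' Iic (t0 - 1 / ((n : ℝ) + 1)))) := by rw [hfib, add_zero]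
      _ = ⨆ n : ℕ, g (t0 - 1 / ((n : ℝ) + 1)) := hm.measure_iUnion
      _ ≤ c / 2 := iSup_le fun n => (hlt _ (by
          have : (0 : ℝ) < 1 / ((n : ℝ) + 1) := by positivity
          linarith)).le
  · have hI : (⋂ n : ℕ, (C ∩ j ⁻¹' Iic (t0 + 1 / ((n : ℝ) + 1)))) = C ∩ j ⁻¹' Iic t0 := by
      ext a
      simp only [mem_iInter, mem_inter_iff, mem_preimage, mem_Iic]
      constructor
      · intro h
        refine ⟨(h 0).1, ?_⟩
        by_contra hcon
        push Not at hcon
        obtain ⟨n, hn⟩ := exists_nat_one_div_lt (sub_pos.2 hcon)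
        have := (h n).2
        linarith
      · rintro ⟨h1, h2⟩ n
        have : (0 : ℝ) < 1 / ((n : ℝ) + 1) := by positivity
        exact ⟨h1, by linarith⟩
    have hm : Antitone (fun n : ℕ => C ∩ j ⁻¹' Iic (t0 + 1 / ((n : ℝ) + 1))) := by
      intro m n h
      refine inter_subset_inter_right _ (preimage_mono (Iic_subset_Iic.2 ?_))
      have := Nat.one_div_le_one_div (α := ℝ) h
      linarith
    have hlim := tendsto_measure_iInter_atTop (μ := lam)
      (fun n : ℕ => (MeasurableSet.of_discrete
        (s := C ∩ j ⁻¹' Iic (t0 + 1 / ((n : ℝ) + 1)))).nullMeasurableSet)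
      hm ⟨0, measure_ne_top _ _⟩
    rw [hI] at hlim
    exact ge_of_tendsto' hlim fun n => hle _ (by
      have : (0 : ℝ) < 1 / ((n : ℝ) + 1) := by positivity
      linarith)

/-- prefix cylinders -/
def pcyl (n : ℕ) (g : ℕ → Bool) : Set (ℕ → Bool) := {x | ∀ i < n, x i = g i}

theorem measurableSet_pcyl (n : ℕ) (g : ℕ → Bool) : MeasurableSet (pcyl n g) := by
  have : pcyl n g = ⋂ i : ℕ, ⋂ _ : i < n, (fun x : ℕ → Bool => x i) ⁻¹' {g i} := by
    ext x; simp [pcyl]
  rw [this]
  exact MeasurableSet.iInter fun i => MeasurableSet.iInter fun _ =>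
    measurable_pi_apply i (measurableSet_singleton _)

theorem ext_pcyl {μ ν : Measure (ℕ → Bool)} [IsFiniteMeasure μ]
    (h : ∀ n g, μ (pcyl n g) = ν (pcyl n g)) : μ = ν := by
  have hgen : (MeasurableSpace.pi : MeasurableSpace (ℕ → Bool)) =
      MeasurableSpace.generateFrom (insert ∅ {s | ∃ n g, s = pcyl n g}) := by
    apply le_antisymm
    · refine iSup_le fun i => ?_
      rintro _ ⟨t, -, rfl⟩
      have key : (fun x : ℕ → Bool => x i) ⁻¹' t =
          ⋃ (q : {q : Fin (i + 1) → Bool // q (Fin.last i) ∈ t}),
            pcyl (i + 1) (fun k => if hk : k < i + 1 then q.1 ⟨k, hk⟩ else false) := by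
        ext x
        simp only [mem_preimage, mem_iUnion, pcyl, mem_ofPred_eq]
        constructor
        · intro hx
          refine ⟨⟨fun k => x k, by simpa using hx⟩, fun k hk => ?_⟩
          simp [hk]
        · rintro ⟨q, hq⟩
          have := hq i (Nat.lt_succ_self i)
          rw [this]
          simp only [Nat.lt_succ_self, dif_pos]
          exact q.2
      rw [key]
      exact MeasurableSet.iUnion fun q =>
        MeasurableSpace.measurableSet_generateFrom (Or.inr ⟨_, _, rfl⟩)
    · refine MeasurableSpace.generateFrom_le ?_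
      rintro s (rfl | ⟨n, g, rfl⟩)
      · exact MeasurableSet.empty
      · exact measurableSet_pcyl n g
  refine ext_of_generate_finite _ hgen ?_ ?_ ?_
  · -- pi system
    rintro s hs t ht hne
    rcases hs with rfl | ⟨n, g, rfl⟩
    · simp at hne
    rcases ht with rfl | ⟨m, g', rfl⟩
    · simp at hne
    obtain ⟨x, hx1, hx2⟩ := hne
    right
    refine ⟨max n m, x, ?_⟩
    ext y
    simp only [pcyl, mem_inter_iff, mem_ofPred_eq] at *
    constructor
    · rintro ⟨h1, h2⟩ i hi
      rcases lt_max_iff.1 hi with hi | hi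
      · rw [h1 i hi, hx1 i hi]
      · rw [h2 i hi, hx2 i hi]
    · intro h1
      exact ⟨fun i hi => by rw [h1 i (lt_max_of_lt_left hi), hx1 i hi],
        fun i hi => by rw [h1 i (lt_max_of_lt_right hi), hx2 i hi]⟩
  · rintro s (rfl | ⟨n, g, rfl⟩)
    · simp
    · exact h n g
  · have := h 0 (fun _ => false)
    have hu : pcyl 0 (fun _ => false) = univ := by
      ext x; simp [pcyl]
    rwa [hu] at this

theorem exists_map_coin {S : Type} [MeasurableSpace S] [DiscreteMeasurableSpace S] (j : S → ℝ)
    (hj : Function.Injective j) (lam : Measure S) [IsFiniteMeasure lam] (h0 : ∀ a, lam {a} = 0) :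
    ∃ f : S → (ℕ → Bool), lam.map f = lam univ • coin ℕ := by
  classical
  choose H hH1 hH2 using halve j hj lam h0
  -- the decreasing sequence of sets containing `a`
  let st : S → ℕ → Set S := fun a n => Nat.rec univ (fun _ C => if a ∈ H C then H C else C \ H C) n
  have st0 : ∀ a, st a 0 = univ := fun a => rfl
  have stS : ∀ a n, st a (n + 1) = if a ∈ H (st a n) then H (st a n) else st a n \ H (st a n) :=
    fun a n => rfl
  -- the set coded by a word
  let ws : (ℕ → Bool) → ℕ → Set S := fun g n =>
    Nat.rec univ (fun i C => if g i then H C else C \ H C) n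
  have ws0 : ∀ g, ws g 0 = univ := fun g => rfl
  have wsS : ∀ g n, ws g (n + 1) = if g n then H (ws g n) else ws g n \ H (ws g n) :=
    fun g n => rfl
  let f : S → (ℕ → Bool) := fun a n => decide (a ∈ H (st a n))
  refine ⟨f, ?_⟩
  have hwsm : ∀ g n, lam (ws g n) = lam univ * (2 : ℝ≥0∞)⁻¹ ^ n := by
    intro g n
    induction n with
    | zero => rw [ws0]; simp
    | succ n ih =>
      rw [wsS]
      have hhalf : lam (ws g n \ H (ws g n)) = lam (ws g n) / 2 := by
        rw [measure_sdiff (hH1 _) (MeasurableSet.of_discrete).nullMeasurableSet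
          (measure_ne_top _ _), hH2]
        exact ENNReal.sub_half (measure_ne_top _ _)
      have : lam (if g n then H (ws g n) else ws g n \ H (ws g n)) = lam (ws g n) / 2 := by
        split_ifs
        · exact hH2 _
        · exact hhalf
      rw [this, ih, pow_succ, ← mul_assoc, div_eq_mul_inv]
  have hpre : ∀ g n, f ⁻¹' pcyl n g = ws g n := by
    intro g n
    have hkey : ∀ n a, ((∀ i < n, f a i = g i) ↔ a ∈ ws g n) ∧
        ((∀ i < n, f a i = g i) → st a n = ws g n) := by
      intro n
      induction n with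
      | zero => intro a; simp [ws0, st0]
      | succ n ih =>
        intro a
        have ih1 := (ih a).1
        have ih2 := (ih a).2
        have hsplit : (∀ i < n + 1, f a i = g i) ↔ ((∀ i < n, f a i = g i) ∧ f a n = g n) := by
          constructor
          · intro h
            exact ⟨fun i hi => h i (by omega), h n (by omega)⟩
          · rintro ⟨h1, h2⟩ i hi
            rcases Nat.lt_succ_iff_lt_or_eq.1 hi with h | rfl
            · exact h1 i h
            · exact h2
        rw [hsplit]
        constructor
        · constructor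
          · rintro ⟨h1, h2⟩
            have hst := ih2 h1
            have hmem := ih1.1 h1
            rw [wsS, ← h2]
            simp only [f, hst, decide_eq_true_eq]
            by_cases hm : a ∈ H (ws g n)
            · simp [hm]
            · simp [hm, hmem]
          · intro h
            have hmem : a ∈ ws g n := by
              rw [wsS] at h
              split_ifs at h
              · exact hH1 _ h
              · exact h.1
            have h1 := ih1.2 hmem
            refine ⟨h1, ?_⟩
            have hst := ih2 h1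
            simp only [f, hst]
            rw [wsS] at h
            cases hgn : g n
            · simp only [hgn, Bool.false_eq_true, if_false] at h
              simp [h.2]
            · simp only [hgn, if_true] at h
              simp [h]
        · rintro ⟨h1, h2⟩
          have hst := ih2 h1
          rw [wsS, stS, hst, ← h2]
          simp only [f, hst, decide_eq_true_eq]
    ext a
    exact (hkey n a).1
  have : IsFiniteMeasure (lam.map f) := by infer_instance
  refine ext_pcyl fun n g => ?_
  rw [Measure.map_apply (Measurable.of_discrete (f := f)) (measurableSet_pcyl n g), hpre, hwsm,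
    Measure.smul_apply, smul_eq_mul]
  congr 1
  have := Half.coin_cyl' (Finset.range n) g
  simp only [Finset.mem_range, Finset.card_range] at this
  exact this.symm

end Pool.Agent.Linf
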