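import Pool.Agent.Helper93.Linf.Coin
import Pool.Agent.Helper93.Linf.Half
import Pool.Agent.Helper93.Linf.Fub

/-!
# MP_2ac9e4_an: module CARD

Cardinal minimality: for a total probability `lam` on a set of at most continuum many points,
vanishing at points, there is a non-null set `A` of `Om` such that `A`-indexed unions of
`lam`-null sets are `lam`-null.
-/

namespace Pool.Agent.Linf

open MeasureTheory Set Filter
open scoped ENNReal Topology

/-- a measurable map from one sequence of coins onto the base space, carrying `coin` to `P` -/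
theorem exists_coin_map_P : ∃ e : (ℕ → Bool) → Om, Measurable e ∧ (coin ℕ).map e = P := by
  obtain ⟨g, hg⟩ : ∃ g : (ℕ ⊕ (ℕ × ℕ × ℕ)) → ℕ, Function.Injective g := by
    obtain ⟨g, hg⟩ := exists_injective_nat (ℕ ⊕ (ℕ × ℕ × ℕ))
    exact ⟨g, hg⟩
  refine ⟨fun x => ((fun a => x (g (Sum.inl a))), (fun b => x (g (Sum.inr b)))), by fun_prop, ?_⟩
  exact coin_map_pair (fun a => g (Sum.inl a)) (fun b => g (Sum.inr b))
    (fun a b h => Sum.inl_injective (hg h)) (fun a b h => Sum.inr_injective (hg h))
    (fun a b h => by simpa using hg h)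

/-- images of non-null sets of coins are non-null in `Om` -/
theorem P_image_ne_zero {e : (ℕ → Bool) → Om} (he : Measurable e) (hP : (coin ℕ).map e = P)
    {A : Set (ℕ → Bool)} (hA : coin ℕ A ≠ 0) : P (e '' A) ≠ 0 := by
  intro h
  apply hA
  rw [← measure_toMeasurable] at h
  rw [← hP, Measure.map_apply he (measurableSet_toMeasurable _ _), hP] at h
  refine measure_mono_null ?_ h
  intro x hx
  exact subset_toMeasurable P (e '' A) (mem_image_of_mem e hx)

theorem total {S : Type} [MeasurableSpace S] [DiscreteMeasurableSpace S] (j : S → ℝ)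
    (hj : Function.Injective j) (lam : Measure S) [IsProbabilityMeasure lam]
    (h0 : ∀ a, lam {a} = 0) :
    ∃ A : Set Om, P A ≠ 0 ∧
      ∀ N : Om → Set S, (∀ w ∈ A, lam (N w) = 0) → lam (⋃ w ∈ A, N w) = 0 := by
  classical
  -- cardinals of index sets of null families with non-null union
  let F : Set Cardinal.{0} := {κ | ∃ (I : Type) (N : I → Set S), Cardinal.mk I = κ ∧
    (∀ i, lam (N i) = 0) ∧ lam (⋃ i, N i) ≠ 0}
  have hS : Cardinal.mk S ∈ F := by
    refine ⟨S, fun s => {s}, rfl, h0, ?_⟩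
    rw [iUnion_of_singleton]
    simp
  have hmem : sInf F ∈ F := csInf_mem ⟨_, hS⟩
  have hmin : ∀ (I : Type) (N : I → Set S), Cardinal.mk I < sInf F → (∀ i, lam (N i) = 0) →
      lam (⋃ i, N i) = 0 := by
    intro I N hI hN
    by_contra hne
    exact absurd (csInf_le' (s := F) ⟨I, N, rfl, hN, hne⟩) (not_le.2 hI)
  generalize hκ : sInf F = κ at hmem hmin
  have hκS : κ ≤ Cardinal.mk S := by
    rw [← hκ]
    exact csInf_le' hS
  obtain ⟨I, N0, hI, hN0, hU0⟩ := hmem
  -- transport to the well order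
  have hιc : Cardinal.mk κ.ord.ToType = κ := Cardinal.mk_ord_toType κ
  obtain ⟨eI⟩ : Nonempty (κ.ord.ToType ≃ I) := Cardinal.eq.1 (hιc.trans hI.symm)
  let N : κ.ord.ToType → Set S := fun a => N0 (eI a)
  have hN : ∀ a, lam (N a) = 0 := fun a => hN0 _
  have hU : lam (⋃ a, N a) ≠ 0 := by
    have : (⋃ a, N a) = ⋃ i, N0 i := eI.surjective.iUnion_comp N0
    rw [this]
    exact hU0
  have hinf : Cardinal.aleph0 ≤ κ := by
    by_contra hlt
    rw [not_le, ← hI, Cardinal.lt_aleph0_iff_finite] at hlt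
    exact hU0 (measure_iUnion_null hN0)
  have hIio : ∀ a : κ.ord.ToType, Cardinal.mk (Iio a) < κ := by
    intro a
    have h := Cardinal.mk_Iio_lt a (by simp)
    simpa using h
  have hIic : ∀ a : κ.ord.ToType, Cardinal.mk (Iic a) < κ := by
    intro a
    have h := Cardinal.mk_Iic_lt a (by simp) (by simpa using hinf)
    simpa using h
  have hne : Nonempty (κ.ord.ToType) := by
    rw [← Cardinal.mk_ne_zero_iff, hιc]
    intro h
    rw [h] at hinf
    exact absurd hinf (not_le.2 Cardinal.aleph0_pos)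
  -- the first index map
  let U : Set S := ⋃ a, N a
  let φ : S → κ.ord.ToType := fun s =>
    if h : ∃ a, s ∈ N a then (wellFounded_lt (α := κ.ord.ToType)).min {a | s ∈ N a} h
    else Classical.arbitrary _
  have hφ : ∀ s ∈ U, s ∈ N (φ s) := by
    intro s hs
    have h : ∃ a, s ∈ N a := by simpa [U] using hs
    have h2 := (wellFounded_lt (α := κ.ord.ToType)).min_mem {a | s ∈ N a} h
    simp only [φ, dif_pos h]
    exact h2
  let _ : MeasurableSpace κ.ord.ToType := ⊤
  have hd : DiscreteMeasurableSpace κ.ord.ToType := ⟨fun _ => trivial⟩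
  have hφm : Measurable φ := Measurable.of_discrete
  let mu : Measure κ.ord.ToType := (lam.restrict U).map φ
  have hmu : ∀ B : Set κ.ord.ToType, mu B = lam (φ ⁻¹' B ∩ U) := by
    intro B
    have : MeasurableSet B := trivial
    simp only [mu]
    rw [Measure.map_apply hφm this, Measure.restrict_apply (hφm this)]
  have hfin : IsFiniteMeasure mu := by
    constructor
    rw [hmu]
    exact measure_lt_top _ _
  have hmu0 : mu univ ≠ 0 := by
    rw [hmu, preimage_univ, univ_inter]
    exact hU
  have hseg : ∀ a, mu (Iic a) = 0 := by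
    intro a
    rw [hmu]
    refine measure_mono_null (t := ⋃ b : Iic a, N b) ?_ (hmin _ _ (hIic a) (fun b => hN _))
    rintro s ⟨hs, hsU⟩
    exact mem_iUnion.2 ⟨⟨φ s, hs⟩, hφ s hsU⟩
  have hpt : ∀ a, mu {a} = 0 := fun a =>
    measure_mono_null (singleton_subset_iff.2 (mem_Iic.2 le_rfl)) (hseg a)
  -- the index set injects in the reals
  obtain ⟨j', hj'⟩ : ∃ j' : κ.ord.ToType → ℝ, Function.Injective j' := by
    have h : Cardinal.mk κ.ord.ToType ≤ Cardinal.mk S := hιc.trans_le hκS
    obtain ⟨g⟩ := h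
    exact ⟨fun a => j (g a), hj.comp g.injective⟩
  obtain ⟨f, hf⟩ := exists_map_coin j' hj' mu hpt
  have hex : ∃ a, coin ℕ (f '' Iio a) ≠ 0 := by
    by_contra hcon
    push Not at hcon
    exact total_fubini mu hmu0 hseg f hf hcon
  obtain ⟨a, ha⟩ := hex
  obtain ⟨e, he, hP⟩ := exists_coin_map_P
  refine ⟨e '' (f '' Iio a), P_image_ne_zero he hP ha, ?_⟩
  intro M hM
  rw [biUnion_eq_iUnion]
  refine hmin _ _ ?_ (fun w => hM w w.2)
  exact (Cardinal.mk_image_le.trans Cardinal.mk_image_le).trans_lt (hIio a)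

end Pool.Agent.Linf
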