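import Mathlib

/-!
# MP_2ac9e4_an (Fremlin's question): base definitions

There is a probability on the Borel sets of the weak topology of `l^infty` which does not extend
to a probability on the Borel sets of the norm topology.

`Om` is a product of fair coins: the *digits* `w.1 : Nat -> Bool` and the *bits*
`w.2 : Nat x Nat x Nat -> Bool`.  From the digits one reads a *level* `mm w.1 k`, from the bits
one reads points `pt w k i` of the block `J k`; `ys w` is the union over `k` of the first
`mm w.1 k` of them, `zs K w` the union over `k >= K` of all `MM k` of them.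
-/

namespace Pool.Agent.Linf

open MeasureTheory Set
open scoped ENNReal

/-- a fair coin -/
noncomputable def coin1 : Measure Bool :=
  (2 : ℝ≥0∞)⁻¹ • Measure.dirac true + (2 : ℝ≥0∞)⁻¹ • Measure.dirac false

theorem coin1_apply (s : Set Bool) :
    coin1 s = (2 : ℝ≥0∞)⁻¹ * s.indicator 1 true + (2 : ℝ≥0∞)⁻¹ * s.indicator 1 false := by
  simp only [coin1, Measure.coe_add, Measure.coe_smul, Pi.add_apply, Pi.smul_apply, smul_eq_mul]
  rw [Measure.dirac_apply' _ (MeasurableSet.of_discrete), Measure.dirac_apply' _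
    (MeasurableSet.of_discrete)]

instance : IsProbabilityMeasure coin1 := by
  constructor
  rw [coin1_apply]
  simp [ENNReal.inv_two_add_inv_two]

theorem coin1_singleton (b : Bool) : coin1 {b} = (2 : ℝ≥0∞)⁻¹ := by
  rw [coin1_apply]
  cases b <;> simp

/-- independent fair coins indexed by `A` -/
noncomputable def coin (A : Type) : Measure (A → Bool) := Measure.infinitePi (fun _ : A => coin1)

instance (A : Type) : IsProbabilityMeasure (coin A) := by
  unfold coin; infer_instance

/-- the base probability space -/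
abbrev Om : Type := (ℕ → Bool) × (ℕ × ℕ × ℕ → Bool)

noncomputable def P : Measure Om := (coin ℕ).prod (coin (ℕ × ℕ × ℕ))

instance : IsProbabilityMeasure P := by
  unfold P; infer_instance

/-- the maximal number of points in block `k` -/
def MM (k : ℕ) : ℕ := (k + 2) ^ (2 ^ (k + 1))

/-- block `k` is `J k = [2^(ell k), 2^(ell k + 1))` -/
def ell (k : ℕ) : ℕ := k + 2 * MM k

/-- `idx d k = sum over j <= k of d_j 2^(k-j)` -/
def idx (d : ℕ → Bool) : ℕ → ℕ
  | 0 => (d 0).toNat
  | k + 1 => 2 * idx d k + (d (k + 1)).toNat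

/-- the level in block `k` -/
def mm (d : ℕ → Bool) (k : ℕ) : ℕ := (k + 2) ^ (idx d k)

/-- the `i`-th point of block `k` -/
def pt (w : Om) (k i : ℕ) : ℕ :=
  2 ^ (ell k) + ∑ b ∈ Finset.range (ell k), (w.2 (k, i, b)).toNat * 2 ^ b

/-- block `k` -/
def J (k : ℕ) : Set ℕ := {a | 2 ^ (ell k) ≤ a ∧ a < 2 ^ (ell k + 1)}

/-- all points in the blocks `k >= K` -/
def zs (K : ℕ) (w : Om) : Set ℕ := {a | ∃ k i, K ≤ k ∧ i < MM k ∧ a = pt w k i}

/-- the selected points -/
def ys (w : Om) : Set ℕ := {a | ∃ k i, i < mm w.1 k ∧ a = pt w k i}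

/-- `u` and `v` have the same digits below `K` and the same bits `(k,i,b)`, `k < K`, `i, b < ell K` -/
def agree (K : ℕ) (u v : Om) : Prop :=
  (∀ k < K, u.1 k = v.1 k) ∧
    ∀ k < K, ∀ i < ell K, ∀ b < ell K, u.2 (k, i, b) = v.2 (k, i, b)

/-- Flip the digit `k` of `x n` (meant to be `false`) to `true`, keep the bits of `x n` in the
blocks below `k`; in a block `k1 >= k`, which is divided into intervals of length
`mm (x n).1 k1`, put the selected points of `x 0, ..., x n` into the first `n+1` intervals,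
and fresh points (from `w`) everywhere else. -/
def Theta (n : ℕ) (x : ℕ → Om) (k : ℕ) (w : Om) : Om :=
  (Function.update (x n).1 k true, fun t =>
    if t.1 < k then (x n).2 t
    else if t.2.1 / mm (x n).1 t.1 ≤ n ∧
        t.2.1 % mm (x n).1 t.1 < mm (x (t.2.1 / mm (x n).1 t.1)).1 t.1
      then (x (t.2.1 / mm (x n).1 t.1)).2 (t.1, t.2.1 % mm (x n).1 t.1, t.2.2)
      else w.2 t)

/-- the law of an i.i.d. sequence in `Om`; as an image of a measure on pairs
(all digits, all bits) -/
noncomputable def Q : Measure (ℕ → Om) :=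
  ((coin (ℕ × ℕ)).prod (coin (ℕ × ℕ × ℕ × ℕ))).map
    (fun p q => (fun j => p.1 (q, j), fun t => p.2 (q, t)))

instance : IsProbabilityMeasure Q := by
  unfold Q
  exact Measure.isProbabilityMeasure_map (by fun_prop)

/-- if `x n` is in `E` then for infinitely many `k` with `(x n).1 k = false` most `w` give a point
`Theta n x k w` of `E`. -/
def phi (E : Set Om) (n : ℕ) (x : ℕ → Om) : Prop :=
  x n ∈ E → ∀ N : ℕ, ∃ k, N ≤ k ∧ (x n).1 k = false ∧ 3 / 4 < P {w | Theta n x k w ∈ E}

/-- first `n` entries from `x`, then `s` -/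
def splice (n : ℕ) (x s : ℕ → Om) : ℕ → Om := fun i => if i < n then x i else s (i - n)

def Rich (E : Set Om) (n : ℕ) (x : ℕ → Om) : Prop := ∀ᵐ s ∂Q, ∀ m, phi E m (splice n x s)

/-- at most `c * MM k` elements in block `k`, for all `k` -/
def Sparse (c : ℕ) (O : Set ℕ) : Prop := ∀ k, (O ∩ J k).ncard ≤ c * MM k

/-- the submeasures used: monotone, subadditive, vanishing on finite sets, with a bound for
finite disjoint families -/
structure IsSubm (v : Set ℕ → ℝ) : Prop where
  mono : ∀ A B, A ⊆ B → v A ≤ v B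
  sub : ∀ A B, v (A ∪ B) ≤ v A + v B
  fin : ∀ A, A.Finite → v A = 0
  exh : ∃ C : ℝ, ∀ (n : ℕ) (R : ℕ → Set ℕ),
    (∀ i < n, ∀ j < n, i ≠ j → Disjoint (R i) (R j)) → ∑ i ∈ Finset.range n, v (R i) ≤ C

/-- data at a node of the tree -/
structure Node where
  /-- level -/
  lev : ℕ
  /-- history: `x 0, ..., x lev` are the points at the ancestors, `x lev` the point of the node -/
  x : ℕ → Om
  /-- the two fresh points -/
  w : Bool → Om
  /-- starting block -/
  K : ℕ
  /-- branching block -/
  K' : ℕ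

/-- the point of the node -/
def Node.pt (p : Node) : Om := p.x p.lev

/-- the target of the child `b` -/
def Node.th (p : Node) (b : Bool) : Om := Theta p.lev p.x p.K' (p.w b)

instance : Inhabited Node := ⟨⟨0, fun _ => (fun _ => false, fun _ => false),
  fun _ => (fun _ => false, fun _ => false), 0, 0⟩⟩

/-- the children of node `j` are `2j+1` and `2j+2` -/
def child (j : ℕ) (b : Bool) : ℕ := 2 * j + 1 + b.toNat

/-- The specification of the tree. -/
structure TreeSpec (E : Set Om) (T : ℕ → Set Om) (V : ℕ → Om → Set ℕ → ℝ) (mo : ℕ → Om → ℕ)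
    (nd : ℕ → Node) : Prop where
  root : (nd 0).lev = 0
  lev : ∀ j b, (nd (child j b)).lev = (nd j).lev + 1
  hist : ∀ j b, ∀ l ≤ (nd j).lev, (nd (child j b)).x l = (nd j).x l
  near : ∀ j b, agree (nd (child j b)).K (nd (child j b)).pt ((nd j).th b)
  memE : ∀ j, (nd j).pt ∈ E
  memT : ∀ j, (nd j).pt ∈ T (nd j).lev
  thE : ∀ j b, (nd j).th b ∈ E
  KK' : ∀ j, (nd j).K ≤ (nd j).K'
  levK' : ∀ j, (nd j).lev ≤ (nd j).K'
  moK' : ∀ j, mo (nd j).lev (nd j).pt ≤ (nd j).K'
  digit : ∀ j, (nd j).pt.1 (nd j).K' = false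
  K'K : ∀ i j, i < j → (nd i).K' < (nd j).K
  /-- disjointness from earlier objects -/
  dpp : ∀ i j, i < j → Disjoint (zs (nd j).K' (nd j).pt) (zs 0 (nd i).pt)
  dpw : ∀ i j b, i < j → Disjoint (zs (nd j).K' (nd j).pt) (zs 0 ((nd i).w b))
  dwp : ∀ i j b, i ≤ j → Disjoint (zs (nd j).K' ((nd j).w b)) (zs 0 (nd i).pt)
  dww : ∀ i j b c, i < j → Disjoint (zs (nd j).K' ((nd j).w b)) (zs 0 ((nd i).w c))
  dw : ∀ j, Disjoint (zs (nd j).K' ((nd j).w false)) (zs (nd j).K' ((nd j).w true))
  /-- nullity of later objects for earlier submeasures -/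
  vp : ∀ i j, i < j → V (nd i).lev (nd i).pt (zs 0 (nd j).pt) = 0
  vw : ∀ i j b, i ≤ j → V (nd i).lev (nd i).pt (zs 0 ((nd j).w b)) = 0
  /-- smallness of earlier points (on the same branch) for later submeasures -/
  small : ∀ j, ∀ l < (nd j).lev, V (nd j).lev (nd j).pt (zs 0 ((nd j).x l)) < 2⁻¹ ^ (l + 3)

end Pool.Agent.Linf
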