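import Pool.Agent.Helper93.Linf.Main

/-!
# MP_2ac9e4_an, module EXT1: the exceptional sets have inner measure zero
-/

namespace Pool.Agent.Linf

open MeasureTheory Set Filter
open scoped ENNReal Topology

theorem inner_null (W : ℕ → Set Om) (hW : ∀ n, Nb (W n)) (E0 : Set Om)
    (hE0 : MeasurableSet E0) (hsub : E0 ⊆ ⋃ n, (toMeasurable P (W n) \ W n)) : P E0 = 0 := by
  classical
  by_contra hpos
  set B : ℕ → Set Om := fun n => toMeasurable P (W n) with hB
  have hBm : ∀ n, MeasurableSet (B n) := fun n => measurableSet_toMeasurable _ _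
  have hWB : ∀ n, W n ⊆ B n := fun n => subset_toMeasurable _ _
  set T : ℕ → Set Om := fun n => W n ∪ (B n)ᶜ with hTdef
  have hT : ∀ n, P (T n) = 1 := by
    intro n
    have h1 : P (T n ∩ B n) + P (T n \ B n) = P (T n) := measure_inter_add_sdiff _ (hBm n)
    have h2 : T n ∩ B n = W n := by
      ext w
      simp only [hTdef, mem_inter_iff, mem_union, mem_compl_iff]
      constructor
      · rintro ⟨h | h, h'⟩
        · exact h
        · exact absurd h' h
      · intro h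
        exact ⟨Or.inl h, hWB n h⟩
    have h3 : T n \ B n = (B n)ᶜ := by
      ext w
      simp only [hTdef, Set.mem_sdiff, mem_union, mem_compl_iff]
      constructor
      · rintro ⟨_, h'⟩
        exact h'
      · intro h
        exact ⟨Or.inr h, h⟩
    rw [← h1, h2, h3, ← measure_toMeasurable (W n)]
    exact prob_add_prob_compl (hBm n)
  -- closed sets
  obtain ⟨δ, hδpos, hδ⟩ := ENNReal.exists_pos_sum_of_countable' hpos ℕ
  have hF : ∀ n, ∃ F, F ⊆ E0 ∩ B n ∧ IsClosed F ∧ P ((E0 ∩ B n) \ F) < δ n / 2 := fun n =>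
    (hE0.inter (hBm n)).exists_isClosed_sdiff_lt (measure_ne_top _ _)
      (ENNReal.half_pos (hδpos n).ne').ne'
  have hG : ∀ n, ∃ G, G ⊆ E0 \ B n ∧ IsClosed G ∧ P ((E0 \ B n) \ G) < δ n / 2 := fun n =>
    (hE0.diff (hBm n)).exists_isClosed_sdiff_lt (measure_ne_top _ _)
      (ENNReal.half_pos (hδpos n).ne').ne'
  choose F hFs hFc hFm using hF
  choose G hGs hGc hGm using hG
  set E : Set Om := ⋂ n, (F n ∪ G n) with hE
  have hEc : IsClosed E := isClosed_iInter (fun n => (hFc n).union (hGc n))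
  have hEsub : E ⊆ E0 := by
    intro w hw
    rcases mem_iInter.1 hw 0 with h | h
    · exact (hFs 0 h).1
    · exact (hGs 0 h).1
  have hPE : P E ≠ 0 := by
    intro h0
    have h1 : E0 ⊆ E ∪ ⋃ n, (((E0 ∩ B n) \ F n) ∪ ((E0 \ B n) \ G n)) := by
      intro w hw
      by_cases hwE : w ∈ E
      · exact Or.inl hwE
      · right
        simp only [hE, mem_iInter, not_forall] at hwE
        obtain ⟨n, hn⟩ := hwE
        refine mem_iUnion.2 ⟨n, ?_⟩
        by_cases hB' : w ∈ B n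
        · exact Or.inl ⟨⟨hw, hB'⟩, fun h => hn (Or.inl h)⟩
        · exact Or.inr ⟨⟨hw, hB'⟩, fun h => hn (Or.inr h)⟩
    have h2 : P E0 ≤ ∑' n, δ n := by
      calc P E0 ≤ P (E ∪ ⋃ n, (((E0 ∩ B n) \ F n) ∪ ((E0 \ B n) \ G n))) := measure_mono h1
        _ ≤ P E + P (⋃ n, (((E0 ∩ B n) \ F n) ∪ ((E0 \ B n) \ G n))) := measure_union_le _ _
        _ = P (⋃ n, (((E0 ∩ B n) \ F n) ∪ ((E0 \ B n) \ G n))) := by rw [h0, zero_add]
        _ ≤ ∑' n, P (((E0 ∩ B n) \ F n) ∪ ((E0 \ B n) \ G n)) := measure_iUnion_le _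
        _ ≤ ∑' n, δ n := by
            refine ENNReal.tsum_le_tsum (fun n => ?_)
            calc _ ≤ P ((E0 ∩ B n) \ F n) + P ((E0 \ B n) \ G n) := measure_union_le _ _
              _ ≤ δ n / 2 + δ n / 2 := add_le_add (hFm n).le (hGm n).le
              _ = δ n := ENNReal.add_halves _
    exact absurd (lt_of_le_of_lt h2 hδ) (lt_irrefl _)
  have hEB : ∀ n, E ∩ B n = E ∩ F n := by
    intro n
    ext w
    constructor
    · rintro ⟨h1, h2⟩
      refine ⟨h1, ?_⟩
      rcases mem_iInter.1 h1 n with h | h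
      · exact h
      · exact absurd h2 (hGs n h).2
    · rintro ⟨h1, h2⟩
      exact ⟨h1, (hFs n h2).2⟩
  -- the data of the main lemma
  have key : ∀ n w, ∃ (v : Set ℕ → ℝ) (m : ℕ), IsSubm v ∧ (w ∈ T n → w ∈ E →
      ∀ u ∈ E, agree m u w → v (symmDiff (ys u) (ys w)) < 1 → u ∈ T n) := by
    intro n w
    by_cases hw : w ∈ W n
    · obtain ⟨v, m, hv, h⟩ := hW n w hw
      exact ⟨v, m, hv, fun _ _ u _ hu h' => Or.inl (h u hu h')⟩
    · by_cases hwE : w ∈ E ∧ w ∉ B n
      · have hcl : IsClosed (E ∩ F n) := hEc.inter (hFc n)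
        have hnot : w ∈ (E ∩ F n)ᶜ := fun h => hwE.2 ((hEB n).symm ▸ h).2
        obtain ⟨m, hm⟩ := exists_agree_of_isOpen hcl.isOpen_compl hnot
        refine ⟨fun _ => 0, m, subm_zero, fun _ _ u huE hu _ => Or.inr ?_⟩
        intro huB
        exact hm u hu ((hEB n) ▸ (⟨huE, huB⟩ : u ∈ E ∩ B n))
      · refine ⟨fun _ => 0, 0, subm_zero, fun h1 h2 => ?_⟩
        exfalso
        rcases h1 with h1 | h1
        · exact hw h1
        · exact hwE ⟨h2, h1⟩
  choose V mo hV hkey using key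
  obtain ⟨u, huE, hu⟩ := main_lemma T hT E hEc hPE V hV mo
    (fun n w hwT hwE u huE hag hlt => hkey n w hwT hwE u huE hag hlt)
  obtain ⟨n, hn⟩ := mem_iUnion.1 (hsub (hEsub huE))
  rcases hu n with h | h
  · exact hn.2 h
  · exact h hn.1

end Pool.Agent.Linf
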