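import Pool.Agent.Helper93.Linf.LDefs

/-!
# Extension of a measure modulo an ideal (section EXT2)
-/

set_option autoImplicit false

namespace Pool.Agent.Linf

open MeasureTheory Set Filter
open scoped ENNReal Topology

section

variable {Ω Y : Type} [MeasurableSpace Ω] [TopologicalSpace Y]

/-- the set which is added to the null sets -/
def extJ (Q : Measure Ω) (p : Ω → Y) (W : ℕ → Set Y) : Set Ω :=
  ⋃ n, (toMeasurable Q (p ⁻¹' W n) \ p ⁻¹' W n)

/-- sequences of open sets -/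
def OSeq (Y : Type) [TopologicalSpace Y] : Type := {W : ℕ → Set Y // ∀ n, IsOpen (W n)}

instance : Nonempty (OSeq Y) := ⟨⟨fun _ => ∅, fun _ => isOpen_empty⟩⟩

/-- sequences of sequences can be merged -/
theorem exists_merge (Q : Measure Ω) (p : Ω → Y) (Ws : ℕ → OSeq Y) :
    ∃ V : OSeq Y, ∀ n, extJ Q p (Ws n).1 ⊆ extJ Q p V.1 := by
  refine ⟨⟨fun k => (Ws k.unpair.1).1 k.unpair.2, fun k => (Ws _).2 _⟩, fun n => ?_⟩
  refine iUnion_subset fun i => ?_
  refine subset_trans ?_ (subset_iUnion _ (Nat.pair n i))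
  simp only [Nat.unpair_pair]
  exact subset_rfl

/-- the outer measure -/
noncomputable def extM (Q : Measure Ω) (p : Ω → Y) : OuterMeasure Ω where
  measureOf A := ⨅ W : OSeq Y, Q (A \ extJ Q p W.1)
  empty := by simp
  mono {A B} h := iInf_mono fun W => measure_mono (diff_subset_diff_left h)
  iUnion_nat A _ := by
    refine ENNReal.le_of_forall_pos_le_add fun ε hε hfin => ?_
    obtain ⟨ε', hε', hsum⟩ := ENNReal.exists_pos_sum_of_countable (ENNReal.coe_pos.2 hε).ne' ℕ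
    have hex : ∀ n, ∃ W : OSeq Y, Q (A n \ extJ Q p W.1) ≤
        (⨅ W : OSeq Y, Q (A n \ extJ Q p W.1)) + ε' n := by
      intro n
      have hn : (⨅ W : OSeq Y, Q (A n \ extJ Q p W.1)) ≠ ⊤ :=
        ne_top_of_le_ne_top hfin.ne (ENNReal.le_tsum n)
      have hlt : (⨅ W : OSeq Y, Q (A n \ extJ Q p W.1)) <
          (⨅ W : OSeq Y, Q (A n \ extJ Q p W.1)) + ε' n :=
        ENNReal.lt_add_right hn (ENNReal.coe_pos.2 (hε' n)).ne'
      obtain ⟨W, hW⟩ := iInf_lt_iff.1 hlt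
      exact ⟨W, hW.le⟩
    choose Ws hWs using hex
    obtain ⟨V, hV⟩ := exists_merge Q p Ws
    calc (⨅ W : OSeq Y, Q ((⋃ n, A n) \ extJ Q p W.1)) ≤ Q ((⋃ n, A n) \ extJ Q p V.1) :=
          iInf_le _ V
      _ ≤ Q (⋃ n, (A n \ extJ Q p (Ws n).1)) := by
          apply measure_mono
          rintro x ⟨hx, hx'⟩
          obtain ⟨n, hn⟩ := mem_iUnion.1 hx
          exact mem_iUnion.2 ⟨n, hn, fun h => hx' (hV n h)⟩
      _ ≤ ∑' n, Q (A n \ extJ Q p (Ws n).1) := measure_iUnion_le _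
      _ ≤ ∑' n, ((⨅ W : OSeq Y, Q (A n \ extJ Q p W.1)) + ε' n) := ENNReal.tsum_le_tsum hWs
      _ = (∑' n, ⨅ W : OSeq Y, Q (A n \ extJ Q p W.1)) + ∑' n, (ε' n : ℝ≥0∞) :=
          ENNReal.tsum_add
      _ ≤ (∑' n, ⨅ W : OSeq Y, Q (A n \ extJ Q p W.1)) + ε := by gcongr

theorem extM_apply (Q : Measure Ω) (p : Ω → Y) (A : Set Ω) :
    extM Q p A = ⨅ W : OSeq Y, Q (A \ extJ Q p W.1) := rfl

theorem extM_cara (Q : Measure Ω) (p : Ω → Y) {E : Set Ω} (hE : MeasurableSet E) (A : Set Ω) :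
    extM Q p (A ∩ E) + extM Q p (A \ E) ≤ extM Q p A := by
  rw [extM_apply Q p A]
  refine le_iInf fun W => ?_
  have h1 := measure_inter_add_diff (μ := Q) (A \ extJ Q p W.1) hE
  rw [← h1]
  refine add_le_add ?_ ?_
  · refine (iInf_le _ W).trans (measure_mono ?_)
    rintro x ⟨⟨hx, hE⟩, hJ⟩
    exact ⟨⟨hx, hJ⟩, hE⟩
  · refine (iInf_le _ W).trans (measure_mono ?_)
    rintro x ⟨⟨hx, hE⟩, hJ⟩
    exact ⟨⟨hx, hJ⟩, hE⟩

theorem extM_eq (Q : Measure Ω) (p : Ω → Y)
    (hin : ∀ W : ℕ → Set Y, (∀ n, IsOpen (W n)) → ∀ E0 : Set Ω, MeasurableSet E0 →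
      E0 ⊆ extJ Q p W → Q E0 = 0) {E : Set Ω} (hE : MeasurableSet E) :
    extM Q p E = Q E := by
  apply le_antisymm
  · obtain ⟨W⟩ : Nonempty (OSeq Y) := inferInstance
    exact (iInf_le _ W).trans (measure_mono diff_subset)
  · refine le_iInf fun W => ?_
    set D := toMeasurable Q (E \ extJ Q p W.1) with hD
    have h1 : Q (E \ D) = 0 := by
      refine hin W.1 W.2 _ (hE.diff (measurableSet_toMeasurable _ _)) ?_
      rintro x ⟨hx, hxD⟩
      by_contra hJ
      exact hxD (subset_toMeasurable Q _ ⟨hx, hJ⟩)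
    calc Q E ≤ Q (D ∪ E \ D) := measure_mono (by
          intro x hx
          by_cases h : x ∈ D
          · exact Or.inl h
          · exact Or.inr ⟨hx, h⟩)
      _ ≤ Q D + Q (E \ D) := measure_union_le _ _
      _ = Q (E \ extJ Q p W.1) := by rw [h1, add_zero, hD, measure_toMeasurable]

theorem extM_null (Q : Measure Ω) (p : Ω → Y) {W : Set Y} (hW : IsOpen W) :
    extM Q p (toMeasurable Q (p ⁻¹' W) \ p ⁻¹' W) = 0 := by
  apply le_antisymm _ bot_le
  refine (iInf_le _ ⟨fun _ => W, fun _ => hW⟩).trans ?_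
  have h1 : (toMeasurable Q (p ⁻¹' W) \ p ⁻¹' W) \ extJ Q p (fun _ => W) = ∅ := by
    apply diff_eq_empty.2
    exact subset_iUnion (fun _ : ℕ => toMeasurable Q (p ⁻¹' W) \ p ⁻¹' W) 0
  change Q ((toMeasurable Q (p ⁻¹' W) \ p ⁻¹' W) \ extJ Q p (fun _ => W)) ≤ ⊥
  rw [h1, measure_empty]
  exact le_rfl

theorem extM_open_cara (Q : Measure Ω) (p : Ω → Y) {W : Set Y} (hW : IsOpen W) (A : Set Ω) :
    extM Q p (A ∩ p ⁻¹' W) + extM Q p (A \ p ⁻¹' W) ≤ extM Q p A := by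
  set B := toMeasurable Q (p ⁻¹' W) with hB
  have h1 := extM_cara Q p (measurableSet_toMeasurable Q (p ⁻¹' W)) A
  rw [← hB] at h1
  have h2 := extM_null Q p hW
  rw [← hB] at h2
  refine le_trans (add_le_add ?_ ?_) h1
  · apply (extM Q p).mono
    exact inter_subset_inter_right _ (subset_toMeasurable _ _)
  · calc extM Q p (A \ p ⁻¹' W) ≤ extM Q p ((A \ B) ∪ (B \ p ⁻¹' W)) := by
          apply (extM Q p).mono
          rintro x ⟨hx, hx'⟩
          by_cases h : x ∈ B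
          · exact Or.inr ⟨h, hx'⟩
          · exact Or.inl ⟨hx, h⟩
      _ ≤ extM Q p (A \ B) + extM Q p (B \ p ⁻¹' W) := measure_union_le _ _
      _ = extM Q p (A \ B) := by rw [h2, add_zero]

theorem extM_open (Q : Measure Ω) (p : Ω → Y)
    (hin : ∀ W : ℕ → Set Y, (∀ n, IsOpen (W n)) → ∀ E0 : Set Ω, MeasurableSet E0 →
      E0 ⊆ extJ Q p W → Q E0 = 0) {W : Set Y} (hW : IsOpen W) :
    extM Q p (p ⁻¹' W) = Q (p ⁻¹' W) := by
  apply le_antisymm
  · obtain ⟨V⟩ : Nonempty (OSeq Y) := inferInstance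
    exact (iInf_le _ V).trans (measure_mono diff_subset)
  · set B := toMeasurable Q (p ⁻¹' W) with hB
    have h2 := extM_null Q p hW
    rw [← hB] at h2
    calc Q (p ⁻¹' W) = Q B := by rw [hB, measure_toMeasurable]
      _ = extM Q p B := (extM_eq Q p hin (measurableSet_toMeasurable Q (p ⁻¹' W))).symm
      _ ≤ extM Q p (p ⁻¹' W ∪ (B \ p ⁻¹' W)) := by
          apply (extM Q p).mono
          intro x hx
          by_cases h : x ∈ p ⁻¹' W
          · exact Or.inl h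
          · exact Or.inr ⟨hx, h⟩
      _ ≤ extM Q p (p ⁻¹' W) + extM Q p (B \ p ⁻¹' W) := measure_union_le _ _
      _ = extM Q p (p ⁻¹' W) := by rw [h2, add_zero]

end

theorem ext_abstract {Y : Type} [TopologicalSpace Y] (p : Om → Y)
    (hin : ∀ W : ℕ → Set Y, (∀ n, IsOpen (W n)) → ∀ E0 : Set Om, MeasurableSet E0 →
      E0 ⊆ ⋃ n, (toMeasurable P (p ⁻¹' W n) \ p ⁻¹' W n) → P E0 = 0) :
    ∃ μ : @Measure Y (borel Y), μ univ = 1 ∧ ∀ W, IsOpen W → μ W = P (p ⁻¹' W) := by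
  letI : MeasurableSpace Y := borel Y
  set m : OuterMeasure Y := OuterMeasure.map p (extM P p) with hm
  have hle : borel Y ≤ m.caratheodory := by
    apply MeasurableSpace.generateFrom_le
    intro W hW
    apply (OuterMeasure.isCaratheodory_iff_le m).2
    intro T
    exact extM_open_cara P p hW (p ⁻¹' T)
  have hopen : ∀ W, IsOpen W → m.toMeasure hle W = P (p ⁻¹' W) := by
    intro W hW
    rw [toMeasure_apply m hle (MeasurableSpace.measurableSet_generateFrom hW)]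
    exact extM_open P p hin hW
  refine ⟨m.toMeasure hle, ?_, hopen⟩
  rw [hopen univ isOpen_univ, preimage_univ]
  exact measure_univ

end Pool.Agent.Linf
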