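import Pool.Agent.Helper93.Linf.Sparse

set_option autoImplicit false

namespace Pool.Agent.Linf

open MeasureTheory Set Filter
open scoped ENNReal Topology

/-! ## LAM -/

theorem ind_injective : Function.Injective ind := by
  intro a b hab
  ext i
  have h : (ind a : ∀ _ : ℕ, ℝ) i = (ind b : ∀ _ : ℕ, ℝ) i := by rw [hab]
  rw [ind_apply, ind_apply] at h
  by_cases ha : i ∈ a <;> by_cases hb : i ∈ b <;> simp_all

theorem lam_one_le_dist {a b : Set ℕ} (h : a ≠ b) : 1 ≤ dist (ind a) (ind b) := by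
  rw [dist_eq_norm]
  have hex : ∃ i, ¬ (i ∈ a ↔ i ∈ b) := by
    by_contra hn
    push Not at hn
    exact h (Set.ext hn)
  obtain ⟨i, hi⟩ := hex
  refine le_trans ?_ (lp.norm_apply_le_norm ENNReal.top_ne_zero (ind a - ind b) i)
  rw [lp.coeFn_sub, Pi.sub_apply, ind_apply, ind_apply]
  by_cases ha : i ∈ a <;> by_cases hb : i ∈ b <;> simp_all

/-- sets of indicators are norm closed -/
theorem isClosed_ind_image (A : Set (Set ℕ)) : IsClosed (ind '' A) := by
  refine Metric.isClosed_of_pairwise_le_dist (ε := 1) zero_lt_one ?_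
  rintro _ ⟨a, _, rfl⟩ _ ⟨b, _, rfl⟩ hne
  exact lam_one_le_dist (fun h => hne (by rw [h]))

/-- the set of all indicators is weakly closed -/
theorem isClosed_ind_range : IsClosed (toWeakSpace ℝ LInf '' (range ind)) := by
  have hev : ∀ i : ℕ, Continuous (fun z : WeakSpace ℝ LInf =>
      (lp.evalCLM ℝ (fun _ : ℕ => ℝ) ⊤ i) ((toWeakSpace ℝ LInf).symm z)) := by
    intro i
    exact WeakBilin.eval_continuous (topDualPairing ℝ LInf).flip
      (lp.evalCLM ℝ (fun _ : ℕ => ℝ) ⊤ i)
  have heq : toWeakSpace ℝ LInf '' (range ind) =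
      ⋂ i : ℕ, (fun z : WeakSpace ℝ LInf =>
        (lp.evalCLM ℝ (fun _ : ℕ => ℝ) ⊤ i) ((toWeakSpace ℝ LInf).symm z)) ⁻¹' {0, 1} := by
    ext z
    simp only [mem_image, mem_range, exists_exists_eq_and, mem_iInter, mem_preimage,
      mem_insert_iff, mem_singleton_iff]
    constructor
    · rintro ⟨a, rfl⟩ i
      rw [LinearEquiv.symm_apply_apply]
      change (ind a : ∀ _ : ℕ, ℝ) i = 0 ∨ (ind a : ∀ _ : ℕ, ℝ) i = 1
      rw [ind_apply]
      by_cases h : i ∈ a <;> simp [h]
    · intro hz
      refine ⟨{i | ((toWeakSpace ℝ LInf).symm z : ∀ _ : ℕ, ℝ) i = 1}, ?_⟩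
      rw [← LinearEquiv.eq_symm_apply]
      ext i
      rw [ind_apply]
      have h := hz i
      change ((toWeakSpace ℝ LInf).symm z : ∀ _ : ℕ, ℝ) i = 0 ∨
        ((toWeakSpace ℝ LInf).symm z : ∀ _ : ℕ, ℝ) i = 1 at h
      rcases h with h | h
      · rw [h, Set.indicator_of_notMem]
        simp [h]
      · rw [h, Set.indicator_of_mem]
        exact h
  rw [heq]
  exact isClosed_iInter (fun i => (Set.toFinite _).isClosed.preimage (hev i))

/-- from a probability on the norm Borel sets giving mass one to the indicators, the induced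
total measure on sets of naturals -/
theorem exists_total (ν : @Measure LInf (borel LInf)) (h1 : ν (range ind) = 1) :
    ∃ lam : @Measure (Set ℕ) ⊤, ∀ A : Set (Set ℕ), lam A = ν (ind '' A) := by
  let _ : MeasurableSpace (Set ℕ) := ⊤
  let _ : MeasurableSpace LInf := borel LInf
  have hb : BorelSpace LInf := ⟨rfl⟩
  refine ⟨Measure.comap ind ν, fun A => ?_⟩
  exact Measure.comap_apply ind ind_injective
    (fun s _ => (isClosed_ind_image s).measurableSet) ν trivial

theorem P_ys_eq (a : Set ℕ) : P {w | ys w = a} = 0 := by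
  by_cases hne : ({w : Om | ys w = a}).Nonempty
  · obtain ⟨w0, hw0⟩ := hne
    simp only [mem_ofPred_eq] at hw0
    have h := sparse_ae (zs_sparse 0 w0)
    rw [ae_iff] at h
    refine measure_mono_null ?_ h
    intro w hw hfin
    simp only [mem_ofPred_eq] at hw
    refine ys_infinite w0 (hfin.subset ?_)
    intro i hi
    exact ⟨ys_subset_zs w (by rw [hw, ← hw0]; exact hi), ys_subset_zs w0 hi⟩
  · rw [not_nonempty_iff_eq_empty] at hne
    rw [hne]
    simp

end Pool.Agent.Linf
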