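import Pool.Agent.Helper93.Linf.LDefs
import Pool.Agent.Helper93.Linf.Comb1
import Pool.Agent.Helper93.Linf.Subm

/-!
# Module NB: null weak neighbourhoods of the points `ppi w`
-/

namespace Pool.Agent.Linf

open MeasureTheory Set Filter
open scoped ENNReal Topology

/-! ## the limit functional along an ultrafilter -/

theorem nb_abs_le (y : LInf) (n : ℕ) : |(y : ∀ _ : ℕ, ℝ) n| ≤ ‖y‖ := by
  have h := lp.norm_apply_le_norm (p := ⊤) ENNReal.top_ne_zero y n
  simpa using h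

theorem nb_exists_lim (U : Ultrafilter ℕ) (y : LInf) :
    ∃ l : ℝ, |l| ≤ ‖y‖ ∧ Tendsto (fun n => (y : ∀ _ : ℕ, ℝ) n) U (𝓝 l) := by
  have hc : IsCompact (Icc (-‖y‖) ‖y‖) := isCompact_Icc
  have hmem : (U.map (fun n => (y : ∀ _ : ℕ, ℝ) n) : Filter ℝ) ≤ 𝓟 (Icc (-‖y‖) ‖y‖) := by
    rw [le_principal_iff, Ultrafilter.coe_map, mem_map]
    refine univ_mem' fun n => ?_
    have := abs_le.1 (nb_abs_le y n)
    exact ⟨this.1, this.2⟩
  obtain ⟨l, hl, hl'⟩ := hc.ultrafilter_le_nhds _ hmem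
  exact ⟨l, abs_le.2 ⟨hl.1, hl.2⟩, hl'⟩

noncomputable def nbLim (U : Ultrafilter ℕ) (y : LInf) : ℝ := (nb_exists_lim U y).choose

theorem nbLim_abs (U : Ultrafilter ℕ) (y : LInf) : |nbLim U y| ≤ ‖y‖ :=
  (nb_exists_lim U y).choose_spec.1

theorem nbLim_tendsto (U : Ultrafilter ℕ) (y : LInf) :
    Tendsto (fun n => (y : ∀ _ : ℕ, ℝ) n) U (𝓝 (nbLim U y)) :=
  (nb_exists_lim U y).choose_spec.2

theorem nbLim_unique (U : Ultrafilter ℕ) (y : LInf) {l : ℝ}
    (h : Tendsto (fun n => (y : ∀ _ : ℕ, ℝ) n) U (𝓝 l)) : nbLim U y = l :=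
  tendsto_nhds_unique (nbLim_tendsto U y) h

noncomputable def nbL (U : Ultrafilter ℕ) : LInf →L[ℝ] ℝ :=
  LinearMap.mkContinuous
    { toFun := nbLim U
      map_add' := fun x y => nbLim_unique U _ (by
        simpa using! (nbLim_tendsto U x).add (nbLim_tendsto U y))
      map_smul' := fun c x => nbLim_unique U _ (by
        simpa using! (nbLim_tendsto U x).const_mul c) } 1
    (fun x => by simpa using! nbLim_abs U x)

theorem nbL_apply (U : Ultrafilter ℕ) (y : LInf) : nbL U y = nbLim U y := rfl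

theorem nbL_ind_mem (U : Ultrafilter ℕ) {R : Set ℕ} (h : R ∈ U) : nbL U (ind R) = 1 := by
  rw [nbL_apply]
  refine nbLim_unique U _ (tendsto_const_nhds.congr' ?_)
  filter_upwards [h] with n hn
  simp [hn]

theorem nbL_ind_not_mem (U : Ultrafilter ℕ) {R : Set ℕ} (h : R ∉ U) : nbL U (ind R) = 0 := by
  rw [nbL_apply]
  refine nbLim_unique U _ (tendsto_const_nhds.congr' ?_)
  have h' : Rᶜ ∈ U := Ultrafilter.compl_mem_iff_notMem.2 h
  filter_upwards [h'] with n hn
  have : n ∉ R := hn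
  simp [this]

open Classical in
/-- the submeasure of an ultrafilter -/
noncomputable def nbV (U : Ultrafilter ℕ) (R : Set ℕ) : ℝ := if R ∈ U then 1 else 0

theorem nbV_mem {U : Ultrafilter ℕ} {R : Set ℕ} (h : R ∈ U) : nbV U R = 1 := if_pos h

theorem nbV_not_mem {U : Ultrafilter ℕ} {R : Set ℕ} (h : R ∉ U) : nbV U R = 0 := if_neg h

theorem nbV_nonneg (U : Ultrafilter ℕ) (R : Set ℕ) : 0 ≤ nbV U R := by
  by_cases h : R ∈ U
  · rw [nbV_mem h]; exact zero_le_one
  · rw [nbV_not_mem h]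

theorem nbV_le_one (U : Ultrafilter ℕ) (R : Set ℕ) : nbV U R ≤ 1 := by
  by_cases h : R ∈ U
  · rw [nbV_mem h]
  · rw [nbV_not_mem h]; exact zero_le_one

theorem nbV_isSubm (U : Ultrafilter ℕ) (hU : (U : Filter ℕ) ≤ cofinite) : IsSubm (nbV U) := by
  refine ⟨?_, ?_, ?_, 1, ?_⟩
  · intro A B hAB
    by_cases h : A ∈ U
    · rw [nbV_mem h, nbV_mem (mem_of_superset h hAB)]
    · rw [nbV_not_mem h]; exact nbV_nonneg _ _
  · intro A B
    by_cases h : A ∪ B ∈ U
    · rcases Ultrafilter.union_mem_iff.1 h with h1 | h1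
      · rw [nbV_mem h, nbV_mem h1]
        linarith [nbV_nonneg U B]
      · rw [nbV_mem h, nbV_mem h1]
        linarith [nbV_nonneg U A]
    · rw [nbV_not_mem h]
      exact add_nonneg (nbV_nonneg _ _) (nbV_nonneg _ _)
  · intro A hA
    refine nbV_not_mem fun h => ?_
    have h1 : Aᶜ ∈ (U : Filter ℕ) := hU hA.compl_mem_cofinite
    exact Ultrafilter.compl_mem_iff_notMem.1 h1 h
  · intro n R hR
    by_cases h : ∃ i < n, R i ∈ U
    · obtain ⟨i, hi, hiU⟩ := h
      rw [Finset.sum_eq_single i]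
      · exact nbV_le_one _ _
      · intro j hj hji
        refine nbV_not_mem fun hjU => ?_
        have h1 : R j ∩ R i ∈ U := inter_mem hjU hiU
        rw [(hR j (Finset.mem_range.1 hj) i hi hji).inter_eq] at h1
        exact U.neBot.ne (empty_mem_iff_bot.1 h1)
      · intro h1
        exact absurd (Finset.mem_range.2 hi) h1
    · push Not at h
      rw [Finset.sum_eq_zero]
      · exact zero_le_one
      · intro j hj
        exact nbV_not_mem (h j (Finset.mem_range.1 hj))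

theorem null_nbhd_of_infinite (a : Set ℕ) (ha : a.Infinite) :
    ∃ V : Set (WeakSpace ℝ LInf), IsOpen V ∧ toWeakSpace ℝ LInf (ind a) ∈ V ∧
      P (ppi ⁻¹' V) = 0 := by
  have : (cofinite ⊓ 𝓟 a).NeBot := ha.cofinite_inf_principal_neBot
  set U : Ultrafilter ℕ := Ultrafilter.of (cofinite ⊓ 𝓟 a) with hUdef
  have hU1 : (U : Filter ℕ) ≤ cofinite ⊓ 𝓟 a := Ultrafilter.of_le _
  have hU : (U : Filter ℕ) ≤ cofinite := hU1.trans inf_le_left
  have hw : a ∈ U := (hU1.trans inf_le_right) (mem_principal_self _)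
  have hcont : Continuous fun y : WeakSpace ℝ LInf => nbL U ((toWeakSpace ℝ LInf).symm y) :=
    WeakBilin.eval_continuous (topDualPairing ℝ LInf).flip (nbL U)
  refine ⟨{y | 1 / 2 < nbL U ((toWeakSpace ℝ LInf).symm y)}, isOpen_lt continuous_const hcont,
    ?_, ?_⟩
  · show 1 / 2 < nbL U ((toWeakSpace ℝ LInf).symm (toWeakSpace ℝ LInf (ind a)))
    rw [LinearEquiv.symm_apply_apply, nbL_ind_mem U hw]
    norm_num
  · have h0 := subm_null (nbV_isSubm U hU)
    rw [ae_iff] at h0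
    refine measure_mono_null ?_ h0
    intro w' hw'
    have h1 : 1 / 2 < nbL U ((toWeakSpace ℝ LInf).symm (ppi w')) := hw'
    rw [ppi, LinearEquiv.symm_apply_apply] at h1
    have h2 : ys w' ∈ U := by
      by_contra h
      rw [nbL_ind_not_mem U h] at h1
      norm_num at h1
    have h3 : zs 0 w' ∈ U := mem_of_superset h2 (ys_subset_zs w')
    show ¬ nbV U (zs 0 w') = 0
    rw [nbV_mem h3]
    exact one_ne_zero

theorem null_nbhd (w : Om) :
    ∃ V : Set (WeakSpace ℝ LInf), IsOpen V ∧ ppi w ∈ V ∧ P (ppi ⁻¹' V) = 0 :=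
  null_nbhd_of_infinite (ys w) (ys_infinite w)

end Pool.Agent.Linf
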