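import Pool.Agent.Helper93.Linf.Nb

set_option autoImplicit false

namespace Pool.Agent.Linf

open MeasureTheory Set Filter
open scoped ENNReal Topology

/-! ## WK1: the variation of a functional -/

theorem wk_norm_ind_le (R : Set ℕ) : ‖ind R‖ ≤ 1 := by
  refine lp.norm_le_of_forall_le zero_le_one ?_
  intro i
  rw [ind_apply]
  by_cases h : i ∈ R <;> simp [h]

theorem wk_bdd (L : LInf →L[ℝ] ℝ) (R : Set ℕ) :
    BddAbove (range (fun T : {T : Set ℕ // T ⊆ R} => |L (ind T)|)) := by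
  refine ⟨‖L‖, ?_⟩
  rintro _ ⟨T, rfl⟩
  have h1 := L.le_opNorm (ind T)
  have h2 := wk_norm_ind_le (T : Set ℕ)
  rw [Real.norm_eq_abs] at h1
  calc |L (ind T)| ≤ ‖L‖ * ‖ind (T : Set ℕ)‖ := h1
    _ ≤ ‖L‖ * 1 := by gcongr
    _ = ‖L‖ := mul_one _

theorem wk_ind_empty : ind (∅ : Set ℕ) = 0 := by
  ext i
  simp

theorem le_fvar (L : LInf →L[ℝ] ℝ) {T R : Set ℕ} (h : T ⊆ R) : |L (ind T)| ≤ fvar L R :=
  le_ciSup (wk_bdd L R) ⟨T, h⟩

theorem fvar_nonneg (L : LInf →L[ℝ] ℝ) (R : Set ℕ) : 0 ≤ fvar L R :=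
  (abs_nonneg _).trans (le_fvar L (empty_subset R))

theorem wk_fvar_le (L : LInf →L[ℝ] ℝ) {R : Set ℕ} {c : ℝ} (h : ∀ T ⊆ R, |L (ind T)| ≤ c) :
    fvar L R ≤ c := by
  have : Nonempty {T : Set ℕ // T ⊆ R} := ⟨⟨∅, empty_subset R⟩⟩
  exact ciSup_le (fun T => h T T.2)

theorem fvar_empty (L : LInf →L[ℝ] ℝ) : fvar L ∅ = 0 := by
  refine le_antisymm (wk_fvar_le L ?_) (fvar_nonneg L ∅)
  intro T hT
  rw [subset_empty_iff.1 hT, wk_ind_empty]
  simp

theorem fvar_mono (L : LInf →L[ℝ] ℝ) {A B : Set ℕ} (h : A ⊆ B) : fvar L A ≤ fvar L B :=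
  wk_fvar_le L (fun _ hT => le_fvar L (hT.trans h))

theorem wk_ind_union {A B : Set ℕ} (h : Disjoint A B) : ind (A ∪ B) = ind A + ind B := by
  ext i
  rw [lp.coeFn_add, Pi.add_apply, ind_apply, ind_apply, ind_apply]
  have := congrFun (Set.indicator_union_of_disjoint h (fun _ : ℕ => (1 : ℝ))) i
  simpa using this

theorem fvar_union (L : LInf →L[ℝ] ℝ) (A B : Set ℕ) : fvar L (A ∪ B) ≤ fvar L A + fvar L B := by
  refine wk_fvar_le L ?_
  intro T hT
  have h1 : T = (T ∩ A) ∪ (T \ A) := (inter_union_sdiff T A).symm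
  have h2 : Disjoint (T ∩ A) (T \ A) := disjoint_sdiff_inter.symm
  rw [h1, wk_ind_union h2, map_add]
  refine (abs_add_le _ _).trans (add_le_add (le_fvar L inter_subset_right) (le_fvar L ?_))
  rintro a ⟨ha, hn⟩
  exact (hT ha).resolve_left hn

theorem wk_norm_sum_le (n : ℕ) (T : ℕ → Set ℕ)
    (h : ∀ i < n, ∀ j < n, i ≠ j → Disjoint (T i) (T j)) (s : ℕ → ℝ) (hs : ∀ i, |s i| ≤ 1) :
    ‖∑ i ∈ Finset.range n, s i • ind (T i)‖ ≤ 1 := by
  refine lp.norm_le_of_forall_le zero_le_one ?_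
  intro a
  have hval : (∑ i ∈ Finset.range n, s i • ind (T i) : LInf) a =
      ∑ i ∈ Finset.range n, s i * (T i).indicator (fun _ => (1 : ℝ)) a := by
    rw [lp.coeFn_sum, Finset.sum_apply]
    refine Finset.sum_congr rfl (fun i _ => ?_)
    rw [lp.coeFn_smul, Pi.smul_apply, ind_apply, smul_eq_mul]
  rw [hval]
  by_cases hex : ∃ i, i < n ∧ a ∈ T i
  · obtain ⟨i, hi, ha⟩ := hex
    rw [Finset.sum_eq_single_of_mem i (Finset.mem_range.2 hi)]
    · simpa [ha] using hs i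
    · intro j hj hji
      have : a ∉ T j := fun haj =>
        Set.disjoint_left.1 (h j (Finset.mem_range.1 hj) i hi hji) haj ha
      simp [this]
  · rw [Finset.sum_eq_zero]
    · simp
    · intro j hj
      have : a ∉ T j := fun haj => hex ⟨j, Finset.mem_range.1 hj, haj⟩
      simp [this]

theorem fvar_exh (L : LInf →L[ℝ] ℝ) (n : ℕ) (R : ℕ → Set ℕ)
    (h : ∀ i < n, ∀ j < n, i ≠ j → Disjoint (R i) (R j)) :
    ∑ i ∈ Finset.range n, fvar L (R i) ≤ ‖L‖ := by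
  refine le_of_forall_pos_le_add ?_
  intro ε hε
  have hδ : 0 < ε / (n + 1) := by positivity
  have hch : ∀ i, ∃ T : Set ℕ, T ⊆ R i ∧ fvar L (R i) - ε / (n + 1) < |L (ind T)| := by
    intro i
    have : Nonempty {T : Set ℕ // T ⊆ R i} := ⟨⟨∅, empty_subset _⟩⟩
    obtain ⟨T, hT⟩ := exists_lt_of_lt_ciSup
      (show fvar L (R i) - ε / (n + 1) < ⨆ T : {T : Set ℕ // T ⊆ R i}, |L (ind T)| from
        sub_lt_self _ hδ)
    exact ⟨T, T.2, hT⟩
  choose T hTR hT using hch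
  let s : ℕ → ℝ := fun i => if 0 ≤ L (ind (T i)) then 1 else -1
  have hs : ∀ i, |s i| ≤ 1 := by
    intro i
    by_cases h0 : 0 ≤ L (ind (T i)) <;> simp [s, h0]
  have hsL : ∀ i, s i * L (ind (T i)) = |L (ind (T i))| := by
    intro i
    by_cases h0 : 0 ≤ L (ind (T i))
    · simp [s, h0, abs_of_nonneg h0]
    · simp [s, h0, abs_of_neg (not_le.1 h0)]
  have hsum : ∑ i ∈ Finset.range n, |L (ind (T i))| ≤ ‖L‖ := by
    have h1 : ∑ i ∈ Finset.range n, |L (ind (T i))| =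
        L (∑ i ∈ Finset.range n, s i • ind (T i)) := by
      rw [map_sum]
      refine Finset.sum_congr rfl (fun i _ => ?_)
      rw [map_smul, smul_eq_mul, hsL]
    rw [h1]
    have h2 := L.le_opNorm (∑ i ∈ Finset.range n, s i • ind (T i))
    have h3 := wk_norm_sum_le n T (fun i hi j hj hij => (h i hi j hj hij).mono (hTR i) (hTR j)) s hs
    calc L (∑ i ∈ Finset.range n, s i • ind (T i)) ≤
          ‖L (∑ i ∈ Finset.range n, s i • ind (T i))‖ := Real.le_norm_self _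
      _ ≤ ‖L‖ * ‖∑ i ∈ Finset.range n, s i • ind (T i)‖ := h2
      _ ≤ ‖L‖ * 1 := by gcongr
      _ = ‖L‖ := mul_one _
  have hfin : ∑ i ∈ Finset.range n, fvar L (R i) ≤
      ∑ i ∈ Finset.range n, (|L (ind (T i))| + ε / (n + 1)) :=
    Finset.sum_le_sum (fun i _ => by have := hT i; linarith)
  rw [Finset.sum_add_distrib, Finset.sum_const, Finset.card_range, nsmul_eq_mul] at hfin
  have hn : (n : ℝ) * (ε / (n + 1)) ≤ ε := by
    rw [mul_div_assoc', div_le_iff₀ (by positivity)]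
    nlinarith
  linarith

theorem abs_sub_le_fvar (L : LInf →L[ℝ] ℝ) (A B : Set ℕ) :
    |L (ind A - ind B)| ≤ 2 * fvar L (symmDiff A B) := by
  have hA : ind A = ind (A ∩ B) + ind (A \ B) := by
    rw [← wk_ind_union disjoint_sdiff_inter.symm, inter_union_sdiff]
  have hB : ind B = ind (A ∩ B) + ind (B \ A) := by
    rw [inter_comm, ← wk_ind_union disjoint_sdiff_inter.symm, inter_union_sdiff]
  have h : ind A - ind B = ind (A \ B) - ind (B \ A) := by
    rw [hA, hB]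
    abel
  rw [h, map_sub]
  have h1 : |L (ind (A \ B))| ≤ fvar L (symmDiff A B) := le_fvar L (fun a ha => Or.inl ha)
  have h2 : |L (ind (B \ A))| ≤ fvar L (symmDiff A B) := le_fvar L (fun a ha => Or.inr ha)
  calc |L (ind (A \ B)) - L (ind (B \ A))| ≤ |L (ind (A \ B))| + |L (ind (B \ A))| := abs_sub _ _
    _ ≤ 2 * fvar L (symmDiff A B) := by linarith

end Pool.Agent.Linf
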