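import Pool.Agent.Helper93.Linf.LDefs

/-!
# Uniform tails of an exhaustive submeasure (section WK2)
-/

set_option autoImplicit false

namespace Pool.Agent.Linf

open MeasureTheory Set Filter
open scoped ENNReal Topology

theorem exists_subm_tail (w : Set ℕ → ℝ) (h0 : w ∅ = 0) (hm : ∀ A B, A ⊆ B → w A ≤ w B)
    (hs : ∀ A B, w (A ∪ B) ≤ w A + w B)
    (he : ∃ C : ℝ, ∀ (n : ℕ) (R : ℕ → Set ℕ),
      (∀ i < n, ∀ j < n, i ≠ j → Disjoint (R i) (R j)) → ∑ i ∈ Finset.range n, w (R i) ≤ C) :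
    ∃ (v : Set ℕ → ℝ) (N : ℕ), IsSubm v ∧ ∀ R, v R < 1 → w (R ∩ Ici N) < 1 := by
  have hnn : ∀ A, 0 ≤ w A := fun A => h0 ▸ hm ∅ A (empty_subset A)
  have hbdd : ∀ R, BddBelow (Set.range fun N : ℕ => w (R ∩ Ici N)) := fun R =>
    ⟨0, by rintro _ ⟨N, rfl⟩; exact hnn _⟩
  have hanti : ∀ R, ∀ N M : ℕ, N ≤ M → w (R ∩ Ici M) ≤ w (R ∩ Ici N) := fun R N M h =>
    hm _ _ (inter_subset_inter_right _ (Ici_subset_Ici.2 h))
  set u : Set ℕ → ℝ := fun R => ⨅ N : ℕ, w (R ∩ Ici N) with hu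
  have hule : ∀ R N, u R ≤ w (R ∩ Ici N) := fun R N => ciInf_le (hbdd R) N
  have hlt : ∀ R c, u R < c → ∃ N, w (R ∩ Ici N) < c := fun R c h =>
    exists_lt_of_ciInf_lt h
  have hu0 : ∀ R, 0 ≤ u R := fun R => le_ciInf fun N => hnn _
  have hsub : IsSubm (fun R => 2 * u R) := by
    refine ⟨fun A B h => ?_, fun A B => ?_, fun A hA => ?_, ?_⟩
    · have h1 : u A ≤ u B := le_ciInf fun N => (hule A N).trans
        (hm _ _ (inter_subset_inter_left _ h))
      simpa using h1
    · have h1 : u (A ∪ B) ≤ u A + u B := by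
        apply le_of_forall_pos_lt_add
        intro ε hε
        obtain ⟨N, hN⟩ := hlt A (u A + ε / 2) (by linarith)
        obtain ⟨M, hM⟩ := hlt B (u B + ε / 2) (by linarith)
        have h2 := hule (A ∪ B) (max N M)
        have h3 := hs (A ∩ Ici (max N M)) (B ∩ Ici (max N M))
        rw [← union_inter_distrib_right] at h3
        have h4 := hanti A N (max N M) (le_max_left _ _)
        have h5 := hanti B M (max N M) (le_max_right _ _)
        linarith
      change 2 * u (A ∪ B) ≤ 2 * u A + 2 * u B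
      linarith
    · obtain ⟨N, hN⟩ := hA.bddAbove
      have h1 : A ∩ Ici (N + 1) = ∅ := by
        ext x
        simp only [mem_inter_iff, mem_Ici, mem_empty_iff_false, iff_false, not_and, not_le]
        intro hx
        exact Nat.lt_succ_of_le (hN hx)
      have h2 := hule A (N + 1)
      rw [h1, h0] at h2
      have h3 : u A = 0 := le_antisymm h2 (hu0 A)
      change 2 * u A = 0
      rw [h3, mul_zero]
    · obtain ⟨C, hC⟩ := he
      refine ⟨2 * C, fun n R hR => ?_⟩
      rw [← Finset.mul_sum]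
      have h1 : ∑ i ∈ Finset.range n, u (R i) ≤ ∑ i ∈ Finset.range n, w (R i) :=
        Finset.sum_le_sum fun i _ => (hule (R i) 0).trans (hm _ _ inter_subset_left)
      linarith [hC n R hR]
  by_contra hcon
  push Not at hcon
  have key : ∀ N : ℕ, ∃ (S : Set ℕ) (M : ℕ), N ≤ M ∧ S ⊆ Ico N M ∧ 1 / 2 < w S := by
    intro N
    obtain ⟨R, hR1, hR2⟩ := hcon (fun R => 2 * u R) N hsub
    obtain ⟨M, hM⟩ := hlt R (1 / 2) (by linarith)
    refine ⟨R ∩ Ico N (max N M), max N M, le_max_left _ _, inter_subset_right, ?_⟩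
    have h1 := hs (R ∩ Ico N (max N M)) (R ∩ Ici (max N M))
    have h2 : R ∩ Ici N ⊆ R ∩ Ico N (max N M) ∪ R ∩ Ici (max N M) := by
      rintro x ⟨hx, hx'⟩
      by_cases h : x < max N M
      · exact Or.inl ⟨hx, hx', h⟩
      · exact Or.inr ⟨hx, not_lt.1 h⟩
    have h3 := hm _ _ h2
    have h4 := hanti R M (max N M) (le_max_right _ _)
    linarith
  choose S M hNM hS hw using key
  -- the sequence of cut points
  let c : ℕ → ℕ := fun k => Nat.rec 0 (fun _ N => M N) k
  have hc : ∀ k, c (k + 1) = M (c k) := fun k => rfl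
  have hcm : Monotone c := monotone_nat_of_le_succ fun k => by rw [hc]; exact hNM _
  obtain ⟨C, hC⟩ := he
  obtain ⟨n, hn⟩ := exists_nat_gt (2 * C)
  have h1 := hC n (fun i => S (c i)) (by
    intro i _ j _ hij
    rw [Set.disjoint_left]
    intro x hx hx'
    have h2 := hS _ hx
    have h3 := hS _ hx'
    rw [← hc] at h2 h3
    rcases lt_or_gt_of_ne hij with h | h
    · have h4 := hcm (Nat.succ_le_of_lt h)
      exact absurd (h2.2.trans_le h4) (not_lt.2 h3.1)
    · have h4 := hcm (Nat.succ_le_of_lt h)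
      exact absurd (h3.2.trans_le h4) (not_lt.2 h2.1))
  have h2 : ∑ i ∈ Finset.range n, (1 / 2 : ℝ) ≤ ∑ i ∈ Finset.range n, w (S (c i)) :=
    Finset.sum_le_sum fun i _ => (hw _).le
  rw [Finset.sum_const, Finset.card_range, nsmul_eq_mul] at h2
  linarith

end Pool.Agent.Linf
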