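import Pool.Agent.Helper93.Linf.Nb
import Pool.Agent.Helper93.Linf.Wk1
import Pool.Agent.Helper93.Linf.Wk2
import Pool.Agent.Helper93.Linf.Comb1
import Pool.Agent.Helper93.Linf.Agree

/-!
# Module WK3: weak neighbourhoods
-/

namespace Pool.Agent.Linf

open MeasureTheory Set Filter
open scoped ENNReal Topology

/-! ## basic weak neighbourhoods -/

/-- a weak neighbourhood contains a basic one -/
theorem wk3_basic (W : Set (WeakSpace ℝ LInf)) (hW : IsOpen W) (y : LInf)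
    (hy : toWeakSpace ℝ LInf y ∈ W) :
    ∃ (I : Finset (LInf →L[ℝ] ℝ)) (e : (LInf →L[ℝ] ℝ) → ℝ), (∀ L, 0 < e L) ∧
      ∀ z : LInf, (∀ L ∈ I, |L (z - y)| < e L) → toWeakSpace ℝ LInf z ∈ W := by
  obtain ⟨O, hO, rfl⟩ := isOpen_induced_iff.1 hW
  have hy' : (fun L : StrongDual ℝ LInf => L y) ∈ O := hy
  obtain ⟨I, U, hIU, hsub⟩ := isOpen_pi_iff.1 hO _ hy'
  have hex : ∀ L : LInf →L[ℝ] ℝ, ∃ ε : ℝ, 0 < ε ∧ (L ∈ I → Metric.ball (L y) ε ⊆ U L) := by
    intro L
    by_cases hL : L ∈ I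
    · obtain ⟨ε, hε, h⟩ := Metric.isOpen_iff.1 (hIU L hL).1 _ (hIU L hL).2
      exact ⟨ε, hε, fun _ => h⟩
    · exact ⟨1, one_pos, fun h => absurd h hL⟩
  choose e he0 he using hex
  refine ⟨I, e, he0, fun z hz => ?_⟩
  apply hsub
  intro L hL
  refine he L hL ?_
  have h1 := hz L hL
  rw [map_sub] at h1
  rw [Metric.mem_ball, Real.dist_eq]
  exact h1

theorem wk3_sub {m : ℕ} {u w : Om} (h : agree m u w) :
    symmDiff (ys u) (ys w) ⊆ Ici m := by
  intro a ha
  by_contra hcon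
  have ham : a < m := not_le.1 hcon
  -- `a` is a point of some block
  have hblock : ∀ v : Om, a ∈ ys v → ∃ k, a ∈ J k := by
    rintro v ⟨k, i, _, rfl⟩
    exact ⟨k, pt_mem_J v k i⟩
  have hk : ∃ k, a ∈ J k := by
    rcases ha with ha | ha
    · exact hblock u ha.1
    · exact hblock w ha.1
  obtain ⟨k, hk⟩ := hk
  have hkm : k < m := by
    have h1 : 2 ^ (ell k) ≤ a := hk.1
    have h2 : k ≤ ell k := by unfold ell; omega
    have h3 : k < 2 ^ k := Nat.lt_two_pow_self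
    have h4 : 2 ^ k ≤ 2 ^ (ell k) := Nat.pow_le_pow_right (by norm_num) h2
    omega
  have heq := agree_ys h hkm
  rcases ha with ha | ha
  · have h1 : a ∈ ys u ∩ J k := ⟨ha.1, hk⟩
    rw [heq] at h1
    exact ha.2 h1.1
  · have h1 : a ∈ ys w ∩ J k := ⟨ha.1, hk⟩
    rw [← heq] at h1
    exact ha.2 h1.1

theorem weak_nb (W : Set (WeakSpace ℝ LInf)) (hW : IsOpen W) : Nb (ppi ⁻¹' W) := by
  intro w hw
  obtain ⟨I, e, he0, hI⟩ := wk3_basic W hW (ind (ys w)) hw
  set g : Set ℕ → ℝ := fun R => ∑ L ∈ I, 2 / e L * fvar L R with hg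
  have hc : ∀ L, 0 ≤ 2 / e L := fun L => (div_pos two_pos (he0 L)).le
  obtain ⟨v, N, hv, hN⟩ := exists_subm_tail g
    (by simp [hg, fvar_empty])
    (fun A B hAB => Finset.sum_le_sum fun L _ =>
      mul_le_mul_of_nonneg_left (fvar_mono L hAB) (hc L))
    (fun A B => by
      simp only [hg]
      rw [← Finset.sum_add_distrib]
      refine Finset.sum_le_sum fun L _ => ?_
      rw [← mul_add]
      exact mul_le_mul_of_nonneg_left (fvar_union L A B) (hc L))
    ⟨∑ L ∈ I, 2 / e L * ‖L‖, fun n R hR => by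
      simp only [hg]
      rw [Finset.sum_comm]
      refine Finset.sum_le_sum fun L _ => ?_
      rw [← Finset.mul_sum]
      exact mul_le_mul_of_nonneg_left (fvar_exh L n R hR) (hc L)⟩
  refine ⟨v, N, hv, fun u hu hvu => ?_⟩
  have h1 := hN _ hvu
  have h2 : symmDiff (ys u) (ys w) ∩ Ici N = symmDiff (ys u) (ys w) :=
    inter_eq_left.2 (wk3_sub hu)
  rw [h2] at h1
  show toWeakSpace ℝ LInf (ind (ys u)) ∈ W
  refine hI _ fun L hL => ?_
  refine (abs_sub_le_fvar L _ _).trans_lt ?_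
  have h3 : 2 / e L * fvar L (symmDiff (ys u) (ys w)) ≤ g (symmDiff (ys u) (ys w)) :=
    Finset.single_le_sum (f := fun L => 2 / e L * fvar L (symmDiff (ys u) (ys w)))
      (fun L _ => mul_nonneg (hc L) (fvar_nonneg L _)) hL
  have h4 := h3.trans_lt h1
  have h5 := he0 L
  rw [div_mul_eq_mul_div, div_lt_one h5] at h4
  exact h4

end Pool.Agent.Linf
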