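import Pool.Agent.Helper93.Linf.Ext1
import Pool.Agent.Helper93.Linf.Ext2
import Pool.Agent.Helper93.Linf.Wk3
import Pool.Agent.Helper93.Linf.Nbhd
import Pool.Agent.Helper93.Linf.Card
import Pool.Agent.Helper93.Linf.Lam

/-!
# MP_2ac9e4_an, module FINAL: the measure does not extend and is not Radon
-/

namespace Pool.Agent.Linf

open MeasureTheory Set Filter
open scoped ENNReal Topology

/-- basic facts on a measure on the weak Borel sets which is `P (ppi ⁻¹' W)` on weakly open sets -/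
theorem mu_closed (μ : @Measure (WeakSpace ℝ LInf) (borel (WeakSpace ℝ LInf))) (hμ1 : μ univ = 1)
    (hμ : ∀ W, IsOpen W → μ W = P (ppi ⁻¹' W)) (C : Set (WeakSpace ℝ LInf)) (hC : IsClosed C) :
    μ C = 1 - P (ppi ⁻¹' Cᶜ) := by
  let _ := borel (WeakSpace ℝ LInf)
  have : BorelSpace (WeakSpace ℝ LInf) := ⟨rfl⟩
  have hmeas : MeasurableSet Cᶜ := hC.isOpen_compl.measurableSet
  have : IsProbabilityMeasure μ := ⟨hμ1⟩
  have h := prob_compl_eq_one_sub (μ := μ) hmeas
  rw [compl_compl, hμ _ hC.isOpen_compl] at h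
  exact h

theorem toWeak_injective : Function.Injective (toWeakSpace ℝ LInf) :=
  (toWeakSpace ℝ LInf).injective

theorem P_compl_point (a : Set ℕ) : P (ppi ⁻¹' {toWeakSpace ℝ LInf (ind a)}ᶜ) = 1 := by
  apply le_antisymm prob_le_one
  have hsub : univ ⊆ (ppi ⁻¹' {toWeakSpace ℝ LInf (ind a)}ᶜ) ∪ {w | ys w = a} := by
    intro w _
    by_cases hw : ys w = a
    · exact Or.inr hw
    · refine Or.inl ?_
      simp only [mem_preimage, mem_compl_iff, mem_singleton_iff, ppi]
      intro h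
      exact hw (ind_injective (toWeak_injective h))
  calc (1 : ℝ≥0∞) = P univ := (measure_univ).symm
    _ ≤ _ := measure_mono hsub
    _ ≤ _ := measure_union_le _ _
    _ = _ := by rw [P_ys_eq, add_zero]

theorem mu_point (μ : @Measure (WeakSpace ℝ LInf) (borel (WeakSpace ℝ LInf))) (hμ1 : μ univ = 1)
    (hμ : ∀ W, IsOpen W → μ W = P (ppi ⁻¹' W)) (a : Set ℕ) :
    μ {toWeakSpace ℝ LInf (ind a)} = 0 := by
  rw [mu_closed μ hμ1 hμ _ isClosed_singleton, P_compl_point]
  simp

theorem P_compl_range : P (ppi ⁻¹' (toWeakSpace ℝ LInf '' range ind)ᶜ) = 0 := by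
  have : ppi ⁻¹' (toWeakSpace ℝ LInf '' range ind)ᶜ = ∅ := by
    ext w
    simp only [mem_preimage, mem_compl_iff, mem_empty_iff_false, iff_false, not_not]
    exact ⟨ind (ys w), ⟨_, rfl⟩, rfl⟩
  rw [this, measure_empty]

/-- such a measure is not Radon -/
theorem not_radon (μ : @Measure (WeakSpace ℝ LInf) (borel (WeakSpace ℝ LInf))) (hμ1 : μ univ = 1)
    (hμ : ∀ W, IsOpen W → μ W = P (ppi ⁻¹' W)) :
    ∃ A : Set (WeakSpace ℝ LInf), MeasurableSet[borel (WeakSpace ℝ LInf)] A ∧ μ A = 1 ∧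
      ∀ L ⊆ A, IsCompact L → μ L = 0 := by
  let _ := borel (WeakSpace ℝ LInf)
  have hB : BorelSpace (WeakSpace ℝ LInf) := ⟨rfl⟩
  set R : Set (WeakSpace ℝ LInf) := toWeakSpace ℝ LInf '' range ind with hR
  set F : Set (WeakSpace ℝ LInf) := (fun a => toWeakSpace ℝ LInf (ind a)) '' {a : Set ℕ | a.Finite}
    with hF
  have hfc : {a : Set ℕ | a.Finite}.Countable := Set.Countable.ofPred_finite
  have hFc : F.Countable := hfc.image _
  have hFm : MeasurableSet F := hFc.measurableSet
  have hF0 : μ F = 0 := by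
    rw [hF, ← biUnion_of_singleton (_ '' _), biUnion_image]
    exact (measure_biUnion_null_iff hfc).2
      (fun a _ => mu_point μ hμ1 hμ a)
  have hRm : MeasurableSet R := (isClosed_ind_range).measurableSet
  have hR1 : μ R = 1 := by
    rw [mu_closed μ hμ1 hμ _ isClosed_ind_range, P_compl_range]
    simp
  refine ⟨R \ F, hRm.diff hFm, ?_, ?_⟩
  · rw [measure_sdiff_null hF0, hR1]
  · intro L hL hLc
    refine hLc.measure_zero_of_nhdsWithin ?_
    intro y hy
    obtain ⟨⟨_, ⟨a, rfl⟩, rfl⟩, hyF⟩ := hL hy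
    have ha : a.Infinite := by
      intro hfin
      exact hyF ⟨a, hfin, rfl⟩
    obtain ⟨V, hVo, hVm, hV0⟩ := null_nbhd_of_infinite a ha
    refine ⟨V, mem_nhdsWithin_of_mem_nhds (hVo.mem_nhds hVm), ?_⟩
    rw [hμ V hVo, hV0]

theorem no_extension (μ : @Measure (WeakSpace ℝ LInf) (borel (WeakSpace ℝ LInf)))
    (hμ1 : μ univ = 1) (hμ : ∀ W, IsOpen W → μ W = P (ppi ⁻¹' W)) :
    ¬ ∃ ν : @Measure LInf (borel LInf), ν univ = 1 ∧
      ∀ A : Set (WeakSpace ℝ LInf), MeasurableSet[borel (WeakSpace ℝ LInf)] A →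
        ν (toWeakSpace ℝ LInf ⁻¹' A) = μ A := by
  rintro ⟨ν, hν1, hν⟩
  have hopen : ∀ W : Set (WeakSpace ℝ LInf), IsOpen W →
      ν (toWeakSpace ℝ LInf ⁻¹' W) = P (ppi ⁻¹' W) := by
    intro W hW
    rw [hν W (MeasurableSpace.measurableSet_generateFrom hW), hμ W hW]
  have hclosed : ∀ C : Set (WeakSpace ℝ LInf), IsClosed C →
      ν (toWeakSpace ℝ LInf ⁻¹' C) = 1 - P (ppi ⁻¹' Cᶜ) := by
    intro C hC
    have hm : MeasurableSet[borel (WeakSpace ℝ LInf)] C := by
      have h : MeasurableSet[borel (WeakSpace ℝ LInf)] Cᶜ :=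
        MeasurableSpace.measurableSet_generateFrom hC.isOpen_compl
      simpa using MeasurableSet.compl h
    rw [hν C hm, mu_closed μ hμ1 hμ C hC]
  -- the indicators have full measure
  have hrange : ν (range ind) = 1 := by
    have h := hclosed _ isClosed_ind_range
    rw [preimage_image_eq _ toWeak_injective] at h
    rw [h, P_compl_range]
    simp
  obtain ⟨lam, hlam⟩ := exists_total ν hrange
  let _ : MeasurableSpace (Set ℕ) := ⊤
  have hd : DiscreteMeasurableSpace (Set ℕ) := ⟨fun _ => trivial⟩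
  have hprob : IsProbabilityMeasure lam := ⟨by rw [hlam, image_univ, hrange]⟩
  have hcard : ∃ j : Set ℕ → ℝ, Function.Injective j := by
    have h : Cardinal.mk (Set ℕ) = Cardinal.mk ℝ := by
      rw [Cardinal.mk_real, Cardinal.mk_set, Cardinal.mk_nat, Cardinal.two_power_aleph0]
    obtain ⟨e⟩ := Cardinal.eq.1 h
    exact ⟨e, e.injective⟩
  obtain ⟨j, hj⟩ := hcard
  have hpts : ∀ a : Set ℕ, lam {a} = 0 := by
    intro a
    rw [hlam, image_singleton]
    have hc : IsClosed ({toWeakSpace ℝ LInf (ind a)} : Set (WeakSpace ℝ LInf)) :=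
      isClosed_singleton
    have h := hclosed _ hc
    have hpre : toWeakSpace ℝ LInf ⁻¹' {toWeakSpace ℝ LInf (ind a)} = {ind a} := by
      ext y; simp
    rw [hpre, P_compl_point] at h
    rw [h]
    simp
  obtain ⟨A, hA, hN⟩ := total j hj lam hpts
  choose V hVo hVm hV0 using null_nbhd
  have hnull := hN (fun w => {a | toWeakSpace ℝ LInf (ind a) ∈ V w}) (fun w _ => by
    rw [hlam]
    refine measure_mono_null ?_ ((hopen _ (hVo w)).trans (hV0 w))
    rintro _ ⟨a, ha, rfl⟩
    exact ha)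
  have hWo : IsOpen (⋃ w ∈ A, V w) := isOpen_biUnion (fun w _ => hVo w)
  have hpos : P (ppi ⁻¹' (⋃ w ∈ A, V w)) ≠ 0 := by
    intro h
    apply hA
    refine measure_mono_null ?_ h
    intro w hw
    exact mem_biUnion hw (hVm w)
  apply hpos
  rw [← hopen _ hWo]
  have hcompl : ν (range ind)ᶜ = 0 := by
    have hm : MeasurableSet[borel LInf] (range ind) := by
      have h := isClosed_ind_image univ
      rw [image_univ] at h
      have h' : MeasurableSet[borel LInf] (range ind)ᶜ :=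
        MeasurableSpace.measurableSet_generateFrom h.isOpen_compl
      simpa using MeasurableSet.compl h'
    let _ := borel LInf
    have : IsProbabilityMeasure ν := ⟨hν1⟩
    rw [prob_compl_eq_zero_iff hm]
    exact hrange
  refine measure_mono_null (t := (ind '' (⋃ w ∈ A, {a | toWeakSpace ℝ LInf (ind a) ∈ V w})) ∪
    (range ind)ᶜ) ?_ ?_
  · intro y hy
    by_cases h : y ∈ range ind
    · obtain ⟨a, rfl⟩ := h
      left
      refine ⟨a, ?_, rfl⟩
      simp only [mem_preimage, mem_iUnion] at hy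
      simp only [mem_iUnion]
      exact hy
    · exact Or.inr h
  · rw [measure_union_null_iff]
    refine ⟨?_, hcompl⟩
    rw [← hlam]
    exact hnull

end Pool.Agent.Linf

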