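import Pool.Agent.Helper93.Linf.Defs

/-!
# MP_2ac9e4_an: the space `l^infty` and indicator vectors
-/

namespace Pool.Agent.Linf

open MeasureTheory Set
open scoped ENNReal

/-- the space `l^infty` of bounded real sequences with the supremum norm -/
abbrev LInf : Type := lp (fun _ : ℕ => ℝ) ⊤

theorem memlp_ind (R : Set ℕ) : Memℓp (E := fun _ : ℕ => ℝ) (R.indicator (fun _ => (1 : ℝ))) ⊤ := by
  refine memℓp_infty ⟨1, ?_⟩
  rintro _ ⟨i, rfl⟩
  by_cases h : i ∈ R <;> simp [h]

/-- the indicator of a set of naturals as an element of `l^infty` -/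
noncomputable def ind (R : Set ℕ) : LInf := ⟨R.indicator (fun _ => (1 : ℝ)), memlp_ind R⟩

@[simp] theorem ind_apply (R : Set ℕ) (i : ℕ) : (ind R : ∀ _ : ℕ, ℝ) i = R.indicator (fun _ => (1 : ℝ)) i :=
  rfl

/-- the indicator of the selected points of `w`, as a point of `l^infty` with the weak topology -/
noncomputable def ppi (w : Om) : WeakSpace ℝ LInf := toWeakSpace ℝ LInf (ind (ys w))

end Pool.Agent.Linf
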