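import Pool.Agent.Helper93.Linf.LDefs

/-!
# Module LAW1: measurability and continuity of `Theta`
-/

namespace Pool.Agent.Linf

open MeasureTheory Set Filter
open scoped ENNReal Topology

theorem law1_idx (k : ℕ) : Measurable fun d : ℕ → Bool => idx d k := by
  induction k with
  | zero =>
    have h : Measurable fun b : Bool => b.toNat := measurable_from_top
    exact h.comp (measurable_pi_apply 0)
  | succ k ih =>
    have h : Measurable fun b : Bool => b.toNat := measurable_from_top
    exact (ih.const_mul 2).add (h.comp (measurable_pi_apply (k + 1)))

theorem law1_mm (k : ℕ) : Measurable fun d : ℕ → Bool => mm d k := by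
  have h : Measurable fun i : ℕ => (k + 2) ^ i := measurable_from_top
  exact h.comp (law1_idx k)

theorem law1_digit (q k : ℕ) : Measurable fun p : (ℕ → Om) × Om => mm (p.1 q).1 k :=
  (law1_mm k).comp (measurable_fst.comp ((measurable_pi_apply q).comp measurable_fst))

theorem law1_bit (q : ℕ) (t : ℕ × ℕ × ℕ) :
    Measurable fun p : (ℕ → Om) × Om => (p.1 q).2 t :=
  (measurable_pi_apply t).comp
    (measurable_snd.comp ((measurable_pi_apply q).comp measurable_fst))

theorem measurable_Theta (n k : ℕ) :
    Measurable (fun p : (ℕ → Om) × Om => Theta n p.1 k p.2) := by
  refine Measurable.prodMk ?_ ?_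
  · refine measurable_pi_iff.2 fun j => ?_
    by_cases hj : j = k
    · subst hj
      simp only [Function.update_self]
      exact measurable_const
    · simp only [Function.update_of_ne hj]
      exact (measurable_pi_apply j).comp
        (measurable_fst.comp ((measurable_pi_apply n).comp measurable_fst))
  · refine measurable_pi_iff.2 fun t => ?_
    by_cases ht : t.1 < k
    · simp only [ht, if_true]
      exact law1_bit n t
    · simp only [ht, if_false]
      set g : ℕ × ((ℕ → Om) × Om) → Bool := fun q =>
        if t.2.1 / q.1 ≤ n ∧ t.2.1 % q.1 < mm (q.2.1 (t.2.1 / q.1)).1 t.1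
          then (q.2.1 (t.2.1 / q.1)).2 (t.1, t.2.1 % q.1, t.2.2)
          else q.2.2.2 t with hg
      have hgm : Measurable g := by
        refine measurable_from_prod_countable_right fun m => ?_
        simp only [hg]
        by_cases h1 : t.2.1 / m ≤ n
        · simp only [h1, true_and]
          refine Measurable.ite ?_ (law1_bit _ _)
            ((measurable_pi_apply t).comp (measurable_snd.comp measurable_snd))
          exact measurableSet_lt measurable_const (law1_digit _ _)
        · simp only [h1, false_and, if_false]
          exact (measurable_pi_apply t).comp (measurable_snd.comp measurable_snd)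
      exact hgm.comp ((law1_digit n t.1).prodMk measurable_id)

theorem continuous_Theta (n k : ℕ) (x : ℕ → Om) : Continuous (Theta n x k) := by
  refine Continuous.prodMk continuous_const (continuous_pi fun t => ?_)
  by_cases ht : t.1 < k
  · simp only [ht, if_true]
    exact continuous_const
  · simp only [ht, if_false]
    split_ifs
    · exact continuous_const
    · exact (continuous_apply t).comp continuous_snd

end Pool.Agent.Linf
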