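import Pool.Agent.Helper93.Linf.Coin
import Pool.Agent.Helper93.Linf.Law1

namespace Pool.Agent.Linf

open MeasureTheory Set Filter
open scoped ENNReal Topology

/-- the coordinate map of `Theta` for fixed digits -/
def lawSig (n k : ℕ) (e : ℕ × ℕ → Bool) (t : ℕ × ℕ × ℕ) :
    (ℕ × ℕ × ℕ × ℕ) ⊕ (ℕ × ℕ × ℕ) :=
  if t.1 < k then Sum.inl (n, t)
  else if t.2.1 / mm (fun j => e (n, j)) t.1 ≤ n ∧
      t.2.1 % mm (fun j => e (n, j)) t.1 <
        mm (fun j => e (t.2.1 / mm (fun j => e (n, j)) t.1, j)) t.1
    then Sum.inl (t.2.1 / mm (fun j => e (n, j)) t.1,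
      (t.1, t.2.1 % mm (fun j => e (n, j)) t.1, t.2.2))
    else Sum.inr t

theorem lawSig_injective (n k : ℕ) (e : ℕ × ℕ → Bool) : Function.Injective (lawSig n k e) := by
  rintro ⟨t1, t2, t3⟩ ⟨s1, s2, s3⟩ h
  unfold lawSig at h
  simp only at h
  split_ifs at h with h1 h2 h3 h4 h5 h6 h7
  · simpa using h
  · simp only [Sum.inl.injEq, Prod.mk.injEq] at h
    omega
  · simp only [Sum.inl.injEq, Prod.mk.injEq] at h
    omega
  · simp only [Sum.inl.injEq, Prod.mk.injEq] at h
    obtain ⟨ha, hb, hc, hd⟩ := h
    subst hb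
    have := Nat.div_add_mod t2 (mm (fun j => e (n, j)) t1)
    have := Nat.div_add_mod s2 (mm (fun j => e (n, j)) t1)
    simp only [Prod.mk.injEq, true_and]
    refine ⟨?_, hd⟩
    rw [ha, hc] at *
    omega
  · simpa using h

/-- the flip of a coordinate, as an equality of measures -/
theorem law_flip_map (k : ℕ) :
    ((coin ℕ).restrict {d | d k = false}).map (fun d => Function.update d k true) =
      (coin ℕ).restrict {d | d k = true} := by
  have hm : Measurable (fun d : ℕ → Bool => Function.update d k true) := by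
    refine measurable_pi_iff.2 (fun j => ?_)
    by_cases h : j = k
    · subst h
      simp
    · simp only [Function.update_of_ne h]
      exact measurable_pi_apply j
  ext S hS
  rw [Measure.map_apply hm hS, Measure.restrict_apply (hm hS), Measure.restrict_apply hS,
    ← coin_flip k S hS]
  congr 1
  ext d
  simp only [mem_inter_iff, mem_preimage, mem_ofPred_eq]
  exact and_comm

theorem law (n k : ℕ) (A : Set Om) (hA : MeasurableSet A) :
    (Q.prod P) {p | (p.1 n).1 k = false ∧ Theta n p.1 k p.2 ∈ A} =
      P (A ∩ {w | w.1 k = true}) := by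
  -- measurability
  have hS : MeasurableSet {p : (ℕ → Om) × Om | (p.1 n).1 k = false ∧ Theta n p.1 k p.2 ∈ A} := by
    refine MeasurableSet.inter ?_ (measurable_Theta n k hA)
    have : Measurable (fun p : (ℕ → Om) × Om => (p.1 n).1 k) := by fun_prop
    exact this (measurableSet_singleton false)
  have hg : Measurable (fun (p : (ℕ × ℕ → Bool) × (ℕ × ℕ × ℕ × ℕ → Bool)) (q : ℕ) =>
      ((fun j => p.1 (q, j), fun t => p.2 (q, t)) : Om)) := by fun_prop
  -- the function of the digits
  set D2 := coin (ℕ × ℕ × ℕ) with hD2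
  set h : (ℕ → Bool) → ℝ≥0∞ := fun d => D2 (Prod.mk d ⁻¹' A) with hh
  have hhm : Measurable h := measurable_measure_prodMk_left hA
  have hupd : Measurable (fun d : ℕ → Bool => Function.update d k true) := by
    refine measurable_pi_iff.2 (fun j => ?_)
    by_cases h : j = k
    · subst h
      simp
    · simp only [Function.update_of_ne h]
      exact measurable_pi_apply j
  have hkm : Measurable (fun d : ℕ → Bool => d k) := measurable_pi_apply k
  have hkf : MeasurableSet {d : ℕ → Bool | d k = false} := hkm (measurableSet_singleton false)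
  have hkt : MeasurableSet {d : ℕ → Bool | d k = true} := hkm (measurableSet_singleton true)
  -- right hand side
  have hR : P (A ∩ {w | w.1 k = true}) = ∫⁻ d in {d : ℕ → Bool | d k = true}, h d ∂(coin ℕ) := by
    have hm : MeasurableSet (A ∩ {w : Om | w.1 k = true}) := by
      refine hA.inter ?_
      have : Measurable (fun w : Om => w.1 k) := by fun_prop
      exact this (measurableSet_singleton true)
    unfold P
    rw [Measure.prod_apply hm, ← lintegral_indicator hkt]
    refine lintegral_congr (fun d => ?_)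
    by_cases hd : d k = true
    · rw [indicator_of_mem (by exact hd)]
      congr 1
      ext η
      simp [hd]
    · rw [indicator_of_notMem (by exact hd)]
      convert measure_empty (μ := coin (ℕ × ℕ × ℕ))
      ext η
      simp [hd]
  rw [hR, ← law_flip_map k, lintegral_map hhm hupd]
  -- left hand side
  rw [Measure.prod_apply hS]
  have hsec : Measurable (fun x : ℕ → Om => P (Prod.mk x ⁻¹'
      {p : (ℕ → Om) × Om | (p.1 n).1 k = false ∧ Theta n p.1 k p.2 ∈ A})) :=
    measurable_measure_prodMk_left hS
  unfold Q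
  rw [lintegral_map hsec hg, lintegral_prod _ (by exact (hsec.comp hg).aemeasurable)]
  have key : ∀ e : ℕ × ℕ → Bool, (∫⁻ b : ℕ × ℕ × ℕ × ℕ → Bool, P (Prod.mk (fun q : ℕ =>
      ((fun j => e (q, j), fun t => b (q, t)) : Om)) ⁻¹'
      {p : (ℕ → Om) × Om | (p.1 n).1 k = false ∧ Theta n p.1 k p.2 ∈ A}) ∂(coin (ℕ × ℕ × ℕ × ℕ))) =
      {d : ℕ → Bool | d k = false}.indicator (fun d => h (Function.update d k true))
        (fun j => e (n, j)) := by
    intro e
    by_cases hd : e (n, k) = false
    · rw [indicator_of_mem (by exact hd)]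
      set d' : ℕ → Bool := Function.update (fun j => e (n, j)) k true with hd'
      set Ψ : (ℕ × ℕ × ℕ × ℕ → Bool) × (ℕ × ℕ × ℕ → Bool) → (ℕ × ℕ × ℕ → Bool) :=
        fun p c => Sum.elim p.1 p.2 (lawSig n k e c) with hΨ
      have hΨm : Measurable Ψ := by
        refine measurable_pi_iff.2 (fun c => ?_)
        simp only [hΨ]
        cases lawSig n k e c with
        | inl a => simp only [Sum.elim_inl]; fun_prop
        | inr a => simp only [Sum.elim_inr]; fun_prop
      have hAd : MeasurableSet (Prod.mk d' ⁻¹' A) := measurable_prodMk_left hA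
      have h1 : ∀ b : ℕ × ℕ × ℕ × ℕ → Bool, P (Prod.mk (fun q : ℕ =>
        ((fun j => e (q, j), fun t => b (q, t)) : Om)) ⁻¹'
        {p : (ℕ → Om) × Om | (p.1 n).1 k = false ∧ Theta n p.1 k p.2 ∈ A}) =
        D2 (Prod.mk b ⁻¹' (Ψ ⁻¹' (Prod.mk d' ⁻¹' A))) := by
        intro b
        have hset : Prod.mk (fun q : ℕ => ((fun j => e (q, j), fun t => b (q, t)) : Om)) ⁻¹'
            {p : (ℕ → Om) × Om | (p.1 n).1 k = false ∧ Theta n p.1 k p.2 ∈ A} =
            (Prod.snd : Om → (ℕ × ℕ × ℕ → Bool)) ⁻¹'
              (Prod.mk b ⁻¹' (Ψ ⁻¹' (Prod.mk d' ⁻¹' A))) := by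
          ext w
          simp only [mem_preimage, mem_ofPred_eq, hd, true_and]
          have : Theta n (fun q : ℕ => ((fun j => e (q, j), fun t => b (q, t)) : Om)) k w =
              (d', Ψ (b, w.2)) := by
            unfold Theta
            refine Prod.ext rfl ?_
            funext t
            simp only [hΨ, lawSig]
            split_ifs <;> simp
          rw [this]
        rw [hset]
        exact (measurePreserving_snd (μ := coin ℕ) (ν := D2)).measure_preimage
          ((measurable_prodMk_left (hΨm hAd)).nullMeasurableSet)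
      simp_rw [h1]
      rw [← Measure.prod_apply (hΨm hAd), ← Measure.map_apply hΨm hAd, hΨ, hD2,
        coin_prod_map_inj (lawSig n k e) (lawSig_injective n k e)]
    · rw [indicator_of_notMem (by exact hd)]
      have h1 : ∀ b : ℕ × ℕ × ℕ × ℕ → Bool, Prod.mk (fun q : ℕ =>
        ((fun j => e (q, j), fun t => b (q, t)) : Om)) ⁻¹'
        {p : (ℕ → Om) × Om | (p.1 n).1 k = false ∧ Theta n p.1 k p.2 ∈ A} = ∅ := by
        intro b
        ext w
        simp [hd]
      simp [h1]
  have hfm : Measurable ({d : ℕ → Bool | d k = false}.indicator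
      (fun d => h (Function.update d k true))) := (hhm.comp hupd).indicator hkf
  have hrow : Measurable (fun (e : ℕ × ℕ → Bool) (j : ℕ) => e (n, j)) := by fun_prop
  calc _ = ∫⁻ e : ℕ × ℕ → Bool, {d : ℕ → Bool | d k = false}.indicator
        (fun d => h (Function.update d k true)) (fun j => e (n, j)) ∂(coin (ℕ × ℕ)) :=
        lintegral_congr key
    _ = ∫⁻ d, {d : ℕ → Bool | d k = false}.indicator
        (fun d => h (Function.update d k true)) d ∂(coin ℕ) := by
        rw [← coin_map_inj (fun j : ℕ => (n, j)) (fun a b hab => (Prod.mk.inj hab).2),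
          lintegral_map hfm hrow]
    _ = _ := lintegral_indicator hkf _

end Pool.Agent.Linf
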