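import Pool.Agent.Helper93.Linf.Tree
import Pool.Agent.Helper93.Linf.Br1
import Pool.Agent.Helper93.Linf.Br2

/-!
# MP_2ac9e4_an, module MAIN: the main lemma
-/

namespace Pool.Agent.Linf

open MeasureTheory Set Filter
open scoped ENNReal Topology

theorem main_lemma (T : ℕ → Set Om) (hT : ∀ n, P (T n) = 1) (E : Set Om) (hE : IsClosed E)
    (hPE : P E ≠ 0) (V : ℕ → Om → Set ℕ → ℝ) (hV : ∀ n w, IsSubm (V n w)) (mo : ℕ → Om → ℕ)
    (h : ∀ n, ∀ w ∈ T n, w ∈ E → ∀ u ∈ E, agree (mo n w) u w →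
      V n w (symmDiff (ys u) (ys w)) < 1 → u ∈ T n) :
    ∃ u ∈ E, ∀ n, u ∈ T n := by
  -- a self-supporting part of `E`
  set E' : Set Om := E ∩ (P.restrict E).support with hE'
  have hE'c : IsClosed E' := hE.inter Measure.isClosed_support
  have hsub : E' ⊆ E := inter_subset_left
  have hnull : P (E ∩ (P.restrict E).supportᶜ) = 0 := by
    have h1 : (P.restrict E) (P.restrict E).supportᶜ = 0 := Measure.measure_compl_support
    rw [Measure.restrict_apply' hE.measurableSet] at h1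
    rwa [inter_comm] at h1
  have hadd : ∀ C : Set Om, P (E ∩ C) ≤ P (E' ∩ C) := by
    intro C
    calc P (E ∩ C) ≤ P ((E' ∩ C) ∪ (E ∩ (P.restrict E).supportᶜ)) := by
          apply measure_mono
          rintro w ⟨h1, h2⟩
          by_cases hw : w ∈ (P.restrict E).support
          · exact Or.inl ⟨⟨h1, hw⟩, h2⟩
          · exact Or.inr ⟨h1, hw⟩
      _ ≤ P (E' ∩ C) + P (E ∩ (P.restrict E).supportᶜ) := measure_union_le _ _
      _ = P (E' ∩ C) := by rw [hnull, add_zero]
  have hsupp : ∀ u ∈ E', ∀ K, P {w | w ∈ E' ∧ agree K w u} ≠ 0 := by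
    intro u hu K
    have h1 : {w | agree K w u} ∈ 𝓝 u :=
      (agree_isClopen K u).2.mem_nhds (agree_refl K u)
    have h2 := (Measure.mem_support_iff_forall u).1 hu.2 _ h1
    rw [Measure.restrict_apply' hE.measurableSet, inter_comm] at h2
    exact (lt_of_lt_of_le h2 (hadd _)).ne'
  have hne : E'.Nonempty := by
    by_contra hcon
    rw [not_nonempty_iff_eq_empty] at hcon
    have := hadd univ
    rw [hcon, inter_univ, empty_inter, measure_empty] at this
    exact hPE (le_antisymm this (zero_le))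
  obtain ⟨nd, hnd⟩ := tree E' hE'c hne hsupp T hT V hV mo
  obtain ⟨f, hf⟩ := branch_good hV hnd
  obtain ⟨u, huE, hu⟩ := branch_limit hE'c hnd f
  refine ⟨u, hsub huE, fun n => ?_⟩
  obtain ⟨hag, hsym⟩ := hu n
  have hlev := path_lev hnd f n
  have hmT := hnd.memT (path f n)
  have hmo := hnd.moK' (path f n)
  have hsm := hnd.small (path f n)
  rw [hlev] at hmT hmo hsm
  refine h n _ hmT (hsub (hnd.memE _)) u (hsub huE) (agree_mono hmo hag) ?_
  set v := V n (nd (path f n)).pt with hv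
  have hvS : IsSubm v := hV _ _
  have hfin : ∀ m : ℕ, m ≤ n → v {a | ∃ l < m, a ∈ zs 0 ((nd (path f n)).x l)} ≤
      1 / 4 - 1 / 4 * 2⁻¹ ^ m := by
    intro m
    induction m with
    | zero =>
      intro _
      have : {a | ∃ l < 0, a ∈ zs 0 ((nd (path f n)).x l)} = ∅ := by ext a; simp
      rw [this, hvS.fin ∅ finite_empty]
      norm_num
    | succ m ih =>
      intro hm
      have h1 := ih (by omega)
      have h2 := hsm m (by omega)
      have h3 : {a | ∃ l < m + 1, a ∈ zs 0 ((nd (path f n)).x l)} ⊆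
          {a | ∃ l < m, a ∈ zs 0 ((nd (path f n)).x l)} ∪ zs 0 ((nd (path f n)).x m) := by
        rintro a ⟨l, hl, ha⟩
        rcases Nat.lt_succ_iff_lt_or_eq.1 hl with hl | rfl
        · exact Or.inl ⟨l, hl, ha⟩
        · exact Or.inr ha
      have h4 := (hvS.mono _ _ h3).trans (hvS.sub _ _)
      have h5 : (2⁻¹ : ℝ) ^ (m + 3) = 1 / 8 * 2⁻¹ ^ m := by
        rw [pow_add]; norm_num; ring
      have h6 : (2⁻¹ : ℝ) ^ (m + 1) = 1 / 2 * 2⁻¹ ^ m := by
        rw [pow_succ]; ring
      rw [h5] at h2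
      rw [h6]
      linarith
  have h1 := hfin n le_rfl
  have h2 := (hvS.mono _ _ hsym).trans (hvS.sub _ _)
  have h3 := hvS.sub (BB nd f n) (RR nd f n)
  obtain ⟨h4, h5⟩ := hf n
  have h6 : (0 : ℝ) < 2⁻¹ ^ n := by positivity
  rw [← hv] at h4 h5
  linarith

end Pool.Agent.Linf
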