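import Pool.Agent.Helper93.Linf.LDefs

/-!
# MP_2ac9e4_an: two shared definitions
-/

namespace Pool.Agent.Linf

open MeasureTheory Set
open scoped ENNReal

/-- a set which is a neighbourhood of each of its points in the sense of the main lemma -/
def Nb (W : Set Om) : Prop :=
  ∀ w ∈ W, ∃ (v : Set ℕ → ℝ) (m : ℕ), IsSubm v ∧
    ∀ u, agree m u w → v (symmDiff (ys u) (ys w)) < 1 → u ∈ W

def Full (T : ℕ → Set Om) (V : ℕ → Om → Set ℕ → ℝ) (n : ℕ) (x : ℕ → Om) : Prop :=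
  ∀ m, P {w | w ∈ T m ∧ ∀ l < n, V m w (zs 0 (x l)) < 2⁻¹ ^ (l + 3)} = 1

/-- put `w` in front of the sequence `s` -/
def consSeq (w : Om) (s : ℕ → Om) : ℕ → Om
  | 0 => w
  | n + 1 => s n

def path (f : ℕ → Bool) : ℕ → ℕ
  | 0 => 0
  | n + 1 => child (path f n) (f n)

/-- the full blocks in the gaps `[K, K')` of the later nodes -/
def BB (nd : ℕ → Node) (f : ℕ → Bool) (n : ℕ) : Set ℕ :=
  {a | ∃ i, n < i ∧ ∃ k, (nd (path f i)).K ≤ k ∧ k < (nd (path f i)).K' ∧ a ∈ J k}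

/-- the later fresh points -/
def RR (nd : ℕ → Node) (f : ℕ → Bool) (n : ℕ) : Set ℕ :=
  {a | (∃ i, n < i ∧ a ∈ zs (nd (path f i)).K' (nd (path f i)).pt) ∨
    ∃ i, n ≤ i ∧ a ∈ zs (nd (path f i)).K' ((nd (path f i)).w (f i))}

/-- variation of a functional -/
noncomputable def fvar (L : LInf →L[ℝ] ℝ) (R : Set ℕ) : ℝ := ⨆ T : {T : Set ℕ // T ⊆ R}, |L (ind T)|

end Pool.Agent.Linf
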