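import Pool.Agent.Helper93.Linf.Nb
import Pool.Agent.Helper93.Linf.Coin

/-!
# Module QF: the law of an i.i.d. sequence
-/

namespace Pool.Agent.Linf

open MeasureTheory Set Filter
open scoped ENNReal Topology

theorem measurable_consSeq : Measurable (fun p : Om × (ℕ → Om) => consSeq p.1 p.2) := by
  refine measurable_pi_iff.2 fun i => ?_
  cases i with
  | zero => exact measurable_fst
  | succ i => exact (measurable_pi_apply i).comp measurable_snd

/-- the map defining `Q` -/
def qfPsi (p : (ℕ × ℕ → Bool) × (ℕ × ℕ × ℕ × ℕ → Bool)) : ℕ → Om :=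
  fun q => (fun j => p.1 (q, j), fun t => p.2 (q, t))

theorem measurable_qfPsi : Measurable qfPsi := by
  refine measurable_pi_iff.2 fun q => Measurable.prodMk ?_ ?_
  · exact measurable_pi_iff.2 fun j => (measurable_pi_apply _).comp measurable_fst
  · exact measurable_pi_iff.2 fun j => (measurable_pi_apply _).comp measurable_snd

theorem Q_eq_map : Q = ((coin (ℕ × ℕ)).prod (coin (ℕ × ℕ × ℕ × ℕ))).map qfPsi := rfl

theorem qf_measurable_comp {A C : Type} (σ : A → C) :
    Measurable fun (x : C → Bool) (a : A) => x (σ a) :=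
  measurable_pi_iff.2 fun _ => measurable_pi_apply _

theorem Q_eval (n : ℕ) : Q.map (fun x => x n) = P := by
  rw [Q_eq_map, Measure.map_map (measurable_pi_apply n) measurable_qfPsi]
  have h : (fun x : ℕ → Om => x n) ∘ qfPsi =
      Prod.map (fun (a : ℕ × ℕ → Bool) (j : ℕ) => a (n, j))
        (fun (b : ℕ × ℕ × ℕ × ℕ → Bool) (t : ℕ × ℕ × ℕ) => b (n, t)) := rfl
  rw [h, ← Measure.map_prod_map _ _ (qf_measurable_comp _) (qf_measurable_comp _),
    coin_map_inj (fun j : ℕ => (n, j)) (fun a b hab => by simpa using hab),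
    coin_map_inj (fun t : ℕ × ℕ × ℕ => (n, t)) (fun a b hab => by simpa using hab)]
  rfl

/-- exchange of the middle factors -/
theorem qf_comm {α β γ δ : Type} [MeasurableSpace α] [MeasurableSpace β] [MeasurableSpace γ]
    [MeasurableSpace δ] (a : Measure α) (b : Measure β) (c : Measure γ) (e : Measure δ)
    [SFinite a] [SFinite b] [SFinite c] [SFinite e] :
    MeasurePreserving (fun p : (α × β) × (γ × δ) => ((p.1.1, p.2.1), (p.1.2, p.2.2)))
      ((a.prod b).prod (c.prod e)) ((a.prod c).prod (b.prod e)) := by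
  have h1 := measurePreserving_prodAssoc a b (c.prod e)
  have h2 : MeasurePreserving (MeasurableEquiv.prodAssoc : (β × γ) × δ ≃ᵐ β × γ × δ).symm
      (b.prod (c.prod e)) ((b.prod c).prod e) := (measurePreserving_prodAssoc b c e).symm _
  have h3 : MeasurePreserving (Prod.map (Prod.swap : β × γ → γ × β) (id : δ → δ))
      ((b.prod c).prod e) ((c.prod b).prod e) :=
    (Measure.measurePreserving_swap).prod (MeasurePreserving.id e)
  have h4 := measurePreserving_prodAssoc c b e
  have h5 : MeasurePreserving (Prod.map (id : α → α)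
      ((MeasurableEquiv.prodAssoc : (γ × β) × δ ≃ᵐ γ × β × δ) ∘
        (Prod.map (Prod.swap : β × γ → γ × β) (id : δ → δ)) ∘
        (MeasurableEquiv.prodAssoc : (β × γ) × δ ≃ᵐ β × γ × δ).symm))
      (a.prod (b.prod (c.prod e))) (a.prod (c.prod (b.prod e))) :=
    (MeasurePreserving.id a).prod (h4.comp (h3.comp h2))
  have h6 : MeasurePreserving (MeasurableEquiv.prodAssoc : (α × γ) × (β × δ) ≃ᵐ α × γ × (β × δ)).symm
      (a.prod (c.prod (b.prod e))) ((a.prod c).prod (b.prod e)) :=
    (measurePreserving_prodAssoc a c (b.prod e)).symm _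
  have h7 := h6.comp (h5.comp h1)
  exact h7

/-- the index map of the shift -/
def qfSigma {A : Type} : ℕ × A → A ⊕ (ℕ × A)
  | (0, j) => Sum.inl j
  | (q + 1, j) => Sum.inr (q, j)

theorem qfSigma_inj {A : Type} : Function.Injective (qfSigma (A := A)) := by
  rintro ⟨q, j⟩ ⟨q', j'⟩ h
  cases q <;> cases q' <;> simp [qfSigma] at h ⊢
  · exact h
  · exact h

theorem Q_cons : (P.prod Q).map (fun p => consSeq p.1 p.2) = Q := by
  set A := coin ℕ with hA
  set B := coin (ℕ × ℕ × ℕ) with hB
  set A' := coin (ℕ × ℕ) with hA'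
  set B' := coin (ℕ × ℕ × ℕ × ℕ) with hB'
  have hP : P = A.prod B := rfl
  have hQ : Q = (A'.prod B').map qfPsi := rfl
  have e1 : P.prod Q = ((A.prod B).prod (A'.prod B')).map (Prod.map id qfPsi) := by
    rw [← Measure.map_prod_map _ _ measurable_id measurable_qfPsi, Measure.map_id, ← hP, ← hQ]
  have m1 : Measurable (Prod.map (id : Om → Om) qfPsi) := measurable_id.prodMap measurable_qfPsi
  rw [e1, Measure.map_map measurable_consSeq m1]
  set F : (ℕ → Bool) × (ℕ × ℕ → Bool) → (ℕ × ℕ → Bool) :=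
    fun p c => Sum.elim p.1 p.2 (qfSigma c) with hF
  set G : (ℕ × ℕ × ℕ → Bool) × (ℕ × ℕ × ℕ × ℕ → Bool) → (ℕ × ℕ × ℕ × ℕ → Bool) :=
    fun p c => Sum.elim p.1 p.2 (qfSigma c) with hG
  have mF : Measurable F := by
    refine measurable_pi_iff.2 ?_
    rintro ⟨q, j⟩
    cases q with
    | zero => exact (measurable_pi_apply j).comp measurable_fst
    | succ q => exact (measurable_pi_apply (q, j)).comp measurable_snd
  have mG : Measurable G := by
    refine measurable_pi_iff.2 ?_
    rintro ⟨q, j⟩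
    cases q with
    | zero => exact (measurable_pi_apply j).comp measurable_fst
    | succ q => exact (measurable_pi_apply (q, j)).comp measurable_snd
  have hc := qf_comm A B A' B'
  have e2 : (fun p : Om × (ℕ → Om) => consSeq p.1 p.2) ∘ Prod.map id qfPsi =
      qfPsi ∘ (Prod.map F G) ∘
        (fun p : ((ℕ → Bool) × (ℕ × ℕ × ℕ → Bool)) × ((ℕ × ℕ → Bool) × (ℕ × ℕ × ℕ × ℕ → Bool)) =>
          ((p.1.1, p.2.1), (p.1.2, p.2.2))) := by
    funext p
    funext q
    cases q with
    | zero => rfl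
    | succ q => rfl
  rw [e2, ← Measure.map_map measurable_qfPsi ((mF.prodMap mG).comp hc.measurable),
    ← Measure.map_map (mF.prodMap mG) hc.measurable, hc.map_eq,
    ← Measure.map_prod_map _ _ mF mG, hF, hG,
    coin_prod_map_inj qfSigma qfSigma_inj, coin_prod_map_inj qfSigma qfSigma_inj]
  rfl

theorem P_digit_io (k : ℕ → ℕ) (hk : StrictMono k) :
    P {w | ∃ N, ∀ j, N ≤ j → w.1 (k j) = true} = 0 :=
  (Measure.quasiMeasurePreserving_fst (μ := coin ℕ) (ν := coin (ℕ × ℕ × ℕ))).preimage_null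
    (coin_digit_io k hk)

end Pool.Agent.Linf
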