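import Pool.Agent.Helper93.Linf.QF
import Pool.Agent.Helper93.Linf.Law1
import Pool.Agent.Helper93.Linf.Law2
import Pool.Agent.Helper93.Linf.Agree

namespace Pool.Agent.Linf

open MeasureTheory Set Filter
open scoped ENNReal Topology

/-- the bad event in block `k` -/
def seBad (E : Set Om) (n k : ℕ) : Set (ℕ → Om) :=
  {x | x n ∈ E ∧ (x n).1 k = false ∧ P {w | Theta n x k w ∈ E} ≤ 3 / 4}

theorem measurable_se_section {E : Set Om} (hE : MeasurableSet E) (n k : ℕ) :
    Measurable (fun x : ℕ → Om => P {w | Theta n x k w ∈ E}) := by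
  have h : MeasurableSet {p : (ℕ → Om) × Om | Theta n p.1 k p.2 ∈ E} :=
    measurable_Theta n k hE
  exact measurable_measure_prodMk_left h

theorem seBad_le {E : Set Om} (hE : IsClosed E) (n k : ℕ) :
    Q (seBad E n k) ≤ 4 * P ({w | ∃ u ∈ E, agree k w u} \ E) := by
  set A : Set Om := {w | ∃ u ∈ E, agree k w u} \ E with hA
  have hAm : MeasurableSet A := (measurableSet_agree E k).diff hE.measurableSet
  have hS : MeasurableSet {p : (ℕ → Om) × Om | (p.1 n).1 k = false ∧ Theta n p.1 k p.2 ∈ A} := by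
    refine MeasurableSet.inter ?_ (measurable_Theta n k hAm)
    have h1 : Measurable (fun p : (ℕ → Om) × Om => (p.1 n).1 k) := by fun_prop
    exact h1 (MeasurableSet.of_discrete (s := ({false} : Set Bool)))
  have hlaw := law n k A hAm
  rw [Measure.prod_apply hS] at hlaw
  have hf : Measurable (fun x : ℕ → Om =>
      P (Prod.mk x ⁻¹' {p : (ℕ → Om) × Om | (p.1 n).1 k = false ∧ Theta n p.1 k p.2 ∈ A})) :=
    measurable_measure_prodMk_left hS
  have hmark := mul_meas_ge_le_lintegral (μ := Q) hf (1 / 4)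
  have hsub : seBad E n k ⊆ {x | (1 / 4 : ℝ≥0∞) ≤
      P (Prod.mk x ⁻¹' {p : (ℕ → Om) × Om | (p.1 n).1 k = false ∧ Theta n p.1 k p.2 ∈ A})} := by
    rintro x ⟨hxE, hxd, hxP⟩
    simp only [mem_ofPred_eq]
    have hset : Prod.mk x ⁻¹' {p : (ℕ → Om) × Om | (p.1 n).1 k = false ∧ Theta n p.1 k p.2 ∈ A} =
        {w | Theta n x k w ∈ E}ᶜ := by
      ext w
      simp only [mem_preimage, mem_ofPred_eq, hxd, true_and, hA, Set.mem_sdiff, mem_compl_iff]
      constructor
      · exact fun h => h.2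
      · exact fun h => ⟨⟨x n, hxE, theta_agree n x k w⟩, h⟩
    have hm : MeasurableSet {w | Theta n x k w ∈ E} := by
      have h : MeasurableSet {p : (ℕ → Om) × Om | Theta n p.1 k p.2 ∈ E} :=
        measurable_Theta n k hE.measurableSet
      exact measurable_prodMk_left (x := x) h
    rw [hset, prob_compl_eq_one_sub hm]
    have h34 : (1 / 4 : ℝ≥0∞) = 1 - 3 / 4 := by
      apply ENNReal.eq_sub_of_add_eq (by finiteness)
      rw [ENNReal.div_add_div_same, show (1 : ℝ≥0∞) + 3 = 4 by norm_num]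
      exact ENNReal.div_self (by norm_num) (by norm_num)
    rw [h34]
    exact tsub_le_tsub_left hxP 1
  have h1 : (1 / 4 : ℝ≥0∞) * Q (seBad E n k) ≤ P A := by
    calc (1 / 4 : ℝ≥0∞) * Q (seBad E n k) ≤ _ := by gcongr
      _ ≤ _ := hmark
      _ = _ := hlaw
      _ ≤ P A := measure_mono inter_subset_left
  have h44 : (4 : ℝ≥0∞) * 4⁻¹ = 1 := ENNReal.mul_inv_cancel (by norm_num) (by norm_num)
  calc Q (seBad E n k) = 4 * ((1 / 4 : ℝ≥0∞) * Q (seBad E n k)) := by
        rw [← mul_assoc, one_div, h44, one_mul]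
    _ ≤ 4 * P A := by gcongr

theorem se_tendsto {E : Set Om} (hE : IsClosed E) :
    Tendsto (fun k => P ({w | ∃ u ∈ E, agree k w u} \ E)) atTop (𝓝 0) := by
  have h := tendsto_measure_iInter_atTop (μ := P)
    (s := fun k : ℕ => {w | ∃ u ∈ E, agree k w u} \ E)
    (fun k => ((measurableSet_agree E k).diff hE.measurableSet).nullMeasurableSet)
    (fun k l hkl => by
      rintro w ⟨⟨u, hu, hw⟩, hwE⟩
      exact ⟨⟨u, hu, agree_mono hkl hw⟩, hwE⟩)
    ⟨0, by finiteness⟩
  have h0 : ⋂ k : ℕ, ({w | ∃ u ∈ E, agree k w u} \ E) = ∅ := by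
    ext w
    simp only [mem_iInter, mem_empty_iff_false, iff_false]
    intro hw
    have hmem : w ∈ ⋂ k : ℕ, {w | ∃ u ∈ E, agree k w u} := mem_iInter.2 (fun k => (hw k).1)
    rw [iInter_agree hE] at hmem
    exact (hw 0).2 hmem
  rw [h0, measure_empty] at h
  exact h

theorem se {E : Set Om} (hE : IsClosed E) (n : ℕ) : ∀ᵐ x ∂Q, phi E n x := by
  have ht : Tendsto (fun k => Q (seBad E n k)) atTop (𝓝 0) := by
    have h4 : Tendsto (fun k => 4 * P ({w | ∃ u ∈ E, agree k w u} \ E)) atTop (𝓝 (4 * 0)) :=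
      ENNReal.Tendsto.const_mul (se_tendsto hE) (Or.inr (by norm_num))
    rw [mul_zero] at h4
    exact tendsto_of_tendsto_of_tendsto_of_le_of_le tendsto_const_nhds h4
      (fun _ => bot_le) (fun k => seBad_le hE n k)
  -- a subsequence with summable measures
  have hsub : ∃ k : ℕ → ℕ, StrictMono k ∧ ∀ j, Q (seBad E n (k j)) ≤ (2 : ℝ≥0∞)⁻¹ ^ j := by
    apply Filter.extraction_forall_of_eventually (P := fun j k => Q (seBad E n k) ≤ (2 : ℝ≥0∞)⁻¹ ^ j)
    intro j
    have hpos : (0 : ℝ≥0∞) < (2 : ℝ≥0∞)⁻¹ ^ j := by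
      apply ENNReal.pow_pos
      norm_num
    exact (ht.eventually (ge_mem_nhds hpos))
  obtain ⟨k, hk, hkb⟩ := hsub
  have hsum : ∑' j, Q (seBad E n (k j)) ≠ ∞ := by
    refine ne_top_of_le_ne_top ?_ (ENNReal.tsum_le_tsum hkb)
    rw [ENNReal.tsum_geometric]
    simp
  have hBC := ae_eventually_notMem hsum
  have hio : ∀ᵐ x ∂Q, ¬ ∃ N, ∀ j, N ≤ j → (x n).1 (k j) = true := by
    have h := P_digit_io k hk
    rw [← Q_eval n] at h
    have h2 : ∀ᵐ w ∂(Q.map (fun x => x n)), ¬ ∃ N, ∀ j, N ≤ j → w.1 (k j) = true := by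
      rw [ae_iff]
      simpa using h
    exact ae_of_ae_map (f := fun x : ℕ → Om => x n)
      (p := fun w : Om => ¬ ∃ N, ∀ j, N ≤ j → w.1 (k j) = true) (measurable_pi_apply n).aemeasurable h2
  filter_upwards [hBC, hio] with x hx1 hx2
  intro hxE N
  obtain ⟨N0, hN0⟩ := eventually_atTop.1 hx1
  have hx3 : ∃ j, max N N0 ≤ j ∧ (x n).1 (k j) = false := by
    by_contra hcon
    apply hx2
    refine ⟨max N N0, fun j hj => ?_⟩
    by_contra hjt
    exact hcon ⟨j, hj, by simpa using hjt⟩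
  obtain ⟨j, hj, hjf⟩ := hx3
  refine ⟨k j, le_trans (le_trans (le_max_left _ _) hj) (hk.id_le j), hjf, ?_⟩
  have hnb := hN0 j (le_trans (le_max_right _ _) hj)
  by_contra hle
  exact hnb ⟨hxE, hjf, not_lt.1 hle⟩

end Pool.Agent.Linf
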