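import Pool.Agent.Helper93.Linf.Nb
import Pool.Agent.Helper93.Linf.QF
import Pool.Agent.Helper93.Linf.SE

/-!
# Module RICH
-/

namespace Pool.Agent.Linf

open MeasureTheory Set Filter
open scoped ENNReal Topology

/-! ## the module -/

theorem rich_theta_congr {n : ℕ} {x y : ℕ → Om} (h : ∀ i ≤ n, x i = y i) (k : ℕ) (w : Om) :
    Theta n x k w = Theta n y k w := by
  have hn : x n = y n := h n le_rfl
  unfold Theta
  rw [hn]
  refine Prod.ext rfl ?_
  funext t
  by_cases h1 : t.2.1 / mm (y n).1 t.1 ≤ n
  · simp only [h _ h1]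
  · simp only [h1, false_and, if_false]

theorem phi_congr {E : Set Om} {n : ℕ} {x y : ℕ → Om} (h : ∀ i ≤ n, x i = y i) :
    phi E n x ↔ phi E n y := by
  unfold phi
  simp only [h n le_rfl, rich_theta_congr h]

theorem rich_splice_congr {n : ℕ} {x y : ℕ → Om} (h : ∀ i < n, x i = y i) (s : ℕ → Om) :
    splice n x s = splice n y s := by
  funext i
  unfold splice
  by_cases hi : i < n
  · simp only [hi, if_true, h i hi]
  · simp only [hi, if_false]

theorem rich_congr {E : Set Om} {n : ℕ} {x y : ℕ → Om} (h : ∀ i < n, x i = y i) :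
    Rich E n x ↔ Rich E n y := by
  unfold Rich
  simp only [rich_splice_congr h]

theorem rich_zero {E : Set Om} (hE : IsClosed E) (x : ℕ → Om) : Rich E 0 x := by
  unfold Rich
  have h : ∀ s : ℕ → Om, splice 0 x s = s := by
    intro s
    funext i
    simp [splice]
  simp only [h]
  exact ae_all_iff.2 fun m => se hE m

theorem rich_splice_cons (n : ℕ) (x s : ℕ → Om) (w : Om) :
    splice n x (consSeq w s) = splice (n + 1) (Function.update x n w) s := by
  funext i
  unfold splice
  rcases lt_trichotomy i n with hi | hi | hi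
  · rw [if_pos hi, if_pos (by omega), Function.update_of_ne hi.ne]
  · subst hi
    simp [consSeq]
  · rw [if_neg (by omega), if_neg (by omega)]
    obtain ⟨j, rfl⟩ : ∃ j, i = n + 1 + j := ⟨i - (n + 1), by omega⟩
    have e1 : n + 1 + j - n = j + 1 := by omega
    have e2 : n + 1 + j - (n + 1) = j := by omega
    rw [e1, e2]
    rfl

theorem rich_succ {E : Set Om} {n : ℕ} {x : ℕ → Om} (h : Rich E n x) :
    ∀ᵐ w ∂P, Rich E (n + 1) (Function.update x n w) := by
  unfold Rich at h ⊢
  rw [← Q_cons] at h
  have h1 := ae_of_ae_map measurable_consSeq.aemeasurable h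
  have h2 := Measure.ae_ae_of_ae_prod h1
  filter_upwards [h2] with w hw
  filter_upwards [hw] with s hs
  intro m
  rw [← rich_splice_cons]
  exact hs m

theorem rich_phi {E : Set Om} {n : ℕ} {x : ℕ → Om} (h : Rich E (n + 1) x) : phi E n x := by
  obtain ⟨s, hs⟩ := h.exists
  refine (phi_congr fun i hi => ?_).1 (hs n)
  unfold splice
  rw [if_pos (by omega)]

end Pool.Agent.Linf
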