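import Pool.Agent.Helper93.Linf.Nb
import Pool.Agent.Helper93.Linf.Rich
import Pool.Agent.Helper93.Linf.Subm
import Pool.Agent.Helper93.Linf.Agree

namespace Pool.Agent.Linf

open MeasureTheory Set Filter
open scoped ENNReal Topology

/-- a set of full outer measure, a measurable set of positive measure and an almost sure
property have a common point -/
theorem step_exists (D C : Set Om) (hD : P D = 1) (hC : MeasurableSet C) (hC0 : P C ≠ 0)
    {G : Om → Prop} (hG : ∀ᵐ w ∂P, G w) : ∃ w, w ∈ D ∧ w ∈ C ∧ G w := by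
  by_contra hno
  push Not at hno
  have h1 : D ⊆ {w | ¬ G w} ∪ Cᶜ := by
    intro w hw
    by_cases hwC : w ∈ C
    · exact Or.inl (hno w hw hwC)
    · exact Or.inr hwC
  have h2 : P D ≤ 0 + (1 - P C) := by
    calc P D ≤ P ({w | ¬ G w} ∪ Cᶜ) := measure_mono h1
      _ ≤ P {w | ¬ G w} + P Cᶜ := measure_union_le _ _
      _ = 0 + (1 - P C) := by
        rw [ae_iff.1 hG, prob_compl_eq_one_sub hC]
  rw [hD, zero_add] at h2
  have h3 : (1 : ℝ≥0∞) - P C < 1 := ENNReal.sub_lt_self ENNReal.one_ne_top one_ne_zero hC0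
  exact absurd (lt_of_le_of_lt h2 h3) (lt_irrefl _)

/-- choice of a fresh point -/
theorem step_pick (S : Set Om) (hS : 3 / 4 < P S) {c : ℕ} {O : Set ℕ} (hO : Sparse c O) (k : ℕ)
    (hk : c * (2 * (2 : ℝ≥0∞)⁻¹ ^ k) ≤ 3 / 4)
    (VV : Set (Set ℕ → ℝ)) (hVVf : VV.Finite) (hVV : ∀ v ∈ VV, IsSubm v) :
    ∃ w ∈ S, Disjoint (zs k w) O ∧ ∀ v ∈ VV, v (zs 0 w) = 0 := by
  by_contra hno
  push Not at hno
  have hG : ∀ᵐ w ∂P, ∀ v ∈ VV, v (zs 0 w) = 0 :=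
    (ae_ball_iff hVVf.countable).2 (fun v hv => subm_null (hVV v hv))
  have h1 : S ⊆ {w | ¬ ∀ v ∈ VV, v (zs 0 w) = 0} ∪ {w | (zs k w ∩ O).Nonempty} := by
    intro w hw
    by_cases hd : Disjoint (zs k w) O
    · left
      obtain ⟨v, hv, hv0⟩ := hno w hw hd
      intro h
      exact hv0 (h v hv)
    · right
      exact Set.not_disjoint_iff_nonempty_inter.1 hd
  have h2 : P S ≤ 3 / 4 := by
    calc P S ≤ P ({w | ¬ ∀ v ∈ VV, v (zs 0 w) = 0} ∪ {w | (zs k w ∩ O).Nonempty}) :=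
          measure_mono h1
      _ ≤ P {w | ¬ ∀ v ∈ VV, v (zs 0 w) = 0} + P {w | (zs k w ∩ O).Nonempty} :=
          measure_union_le _ _
      _ ≤ 0 + c * (2 * (2 : ℝ≥0∞)⁻¹ ^ k) := by
          rw [ae_iff.1 hG]
          gcongr
          exact sparse_hit hO k
      _ ≤ 3 / 4 := by rw [zero_add]; exact hk
  exact absurd (lt_of_lt_of_le hS h2) (lt_irrefl _)

theorem step_small (c : ℕ) : ∃ N, ∀ k, N ≤ k → (c : ℝ≥0∞) * (2 * (2 : ℝ≥0∞)⁻¹ ^ k) ≤ 3 / 4 := by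
  have h : Tendsto (fun k : ℕ => (c : ℝ≥0∞) * (2 * (2 : ℝ≥0∞)⁻¹ ^ k)) atTop (𝓝 (c * (2 * 0))) := by
    refine ENNReal.Tendsto.const_mul (ENNReal.Tendsto.const_mul ?_ (Or.inr (by simp)))
      (Or.inr (by simp))
    exact ENNReal.tendsto_pow_atTop_nhds_zero_of_lt_one (by simp [ENNReal.inv_lt_one])
  rw [mul_zero, mul_zero] at h
  have h2 : ∀ᶠ k : ℕ in atTop, (c : ℝ≥0∞) * (2 * (2 : ℝ≥0∞)⁻¹ ^ k) < 3 / 4 :=
    h.eventually (gt_mem_nhds (by norm_num))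
  obtain ⟨N, hN⟩ := eventually_atTop.1 h2
  exact ⟨N, fun k hk => (hN k hk).le⟩

theorem step (E : Set Om) (hE : IsClosed E)
    (hsupp : ∀ u ∈ E, ∀ K, P {w | w ∈ E ∧ agree K w u} ≠ 0)
    (T : ℕ → Set Om) (V : ℕ → Om → Set ℕ → ℝ) (hV : ∀ n w, IsSubm (V n w)) (mo : ℕ → Om → ℕ)
    (n : ℕ) (x : ℕ → Om) (hR : Rich E n x) (hF : Full T V n x)
    (u : Om) (hu : u ∈ E) (K c : ℕ) (O : Set ℕ) (hO : Sparse c O)
    (VV : Set (Set ℕ → ℝ)) (hVVf : VV.Finite) (hVV : ∀ v ∈ VV, IsSubm v) :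
    ∃ (x' : ℕ → Om) (w : Bool → Om) (K' : ℕ),
      (∀ l < n, x' l = x l) ∧ x' n ∈ E ∧ x' n ∈ T n ∧ agree K (x' n) u ∧
      (∀ l < n, V n (x' n) (zs 0 (x' l)) < 2⁻¹ ^ (l + 3)) ∧
      (∀ v ∈ VV, v (zs 0 (x' n)) = 0) ∧
      K ≤ K' ∧ n ≤ K' ∧ mo n (x' n) ≤ K' ∧ (x' n).1 K' = false ∧
      Disjoint (zs K' (x' n)) O ∧
      (∀ b, Theta n x' K' (w b) ∈ E) ∧
      (∀ b, Disjoint (zs K' (w b)) O) ∧ (∀ b, Disjoint (zs K' (w b)) (zs 0 (x' n))) ∧
      Disjoint (zs K' (w false)) (zs K' (w true)) ∧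
      (∀ v ∈ VV, ∀ b, v (zs 0 (w b)) = 0) ∧ (∀ b, V n (x' n) (zs 0 (w b)) = 0) ∧
      Rich E (n + 1) x' ∧ Full T V (n + 1) x' := by
  classical
  -- the point `w0`
  have hCm : MeasurableSet {w | w ∈ E ∧ agree K w u} :=
    hE.measurableSet.inter (agree_isClopen K u).1.measurableSet
  have hG1 : ∀ᵐ w ∂P, ∀ v ∈ VV, v (zs 0 w) = 0 :=
    (ae_ball_iff hVVf.countable).2 (fun v hv => subm_null (hVV v hv))
  have hG4 : ∀ᵐ w ∂P, Full T V (n + 1) (Function.update x n w) := by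
    have h1 : ∀ m, ∀ᵐ y ∂P, P {w | w ∈ {w | w ∈ T m ∧ ∀ l < n, V m w (zs 0 (x l)) < 2⁻¹ ^ (l + 3)} ∧
        V m w (zs 0 y) < 2⁻¹ ^ (n + 3)} = 1 := fun m =>
      subm_bad _ (hF m) (V m) (hV m) _ (by positivity)
    filter_upwards [ae_all_iff.2 h1] with y hy m
    rw [← hy m]
    congr 1
    ext w
    simp only [mem_ofPred_eq]
    constructor
    · rintro ⟨hT, hl⟩
      refine ⟨⟨hT, fun l hln => ?_⟩, ?_⟩
      · have := hl l (by omega)
        rwa [Function.update_of_ne (by omega)] at this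
      · have := hl n (by omega)
        rwa [Function.update_self] at this
    · rintro ⟨⟨hT, hl⟩, hn⟩
      refine ⟨hT, fun l hln => ?_⟩
      rcases Nat.lt_succ_iff_lt_or_eq.1 hln with h | h
      · rw [Function.update_of_ne (by omega)]
        exact hl l h
      · subst h
        rwa [Function.update_self]
  obtain ⟨w0, hw0D, hw0C, hw01, hw02, hw03, hw04⟩ := step_exists
    {w | w ∈ T n ∧ ∀ l < n, V n w (zs 0 (x l)) < 2⁻¹ ^ (l + 3)} {w | w ∈ E ∧ agree K w u}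
    (hF n) hCm (hsupp u hu K) (hG1.and ((rich_succ hR).and ((sparse_ae hO).and hG4)))
  obtain ⟨hw0T, hw0V⟩ := hw0D
  obtain ⟨hw0E, hw0u⟩ := hw0C
  set x' : ℕ → Om := Function.update x n w0 with hx'
  have hx'n : x' n = w0 := by simp [hx']
  have hx'l : ∀ l < n, x' l = x l := fun l hl => by
    rw [hx', Function.update_of_ne (by omega)]
  obtain ⟨K0, hK0⟩ := zs_disjoint_of_finite hw03
  obtain ⟨N1, hN1⟩ := step_small (c + 2)
  obtain ⟨K', hK', hdig, hbig⟩ := rich_phi hw02 (by rw [hx'n]; exact hw0E)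
    (K + n + mo n w0 + K0 + N1)
  have hsm2 := hN1 K' (by omega)
  have hsm1 : ((c + 1 : ℕ) : ℝ≥0∞) * (2 * (2 : ℝ≥0∞)⁻¹ ^ K') ≤ 3 / 4 := by
    refine le_trans ?_ hsm2
    gcongr
    omega
  have hVV' : ∀ v ∈ VV ∪ {V n w0}, IsSubm v := by
    rintro v (hv | hv)
    · exact hVV v hv
    · rw [mem_singleton_iff.1 hv]
      exact hV n w0
  have hVVf' : (VV ∪ {V n w0}).Finite := hVVf.union (finite_singleton _)
  have hO1 : Sparse (c + 1) (O ∪ zs 0 w0) := sparse_union hO (zs_sparse 0 w0)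
  obtain ⟨wf, hwfS, hwfd, hwfv⟩ := step_pick _ hbig hO1 K' hsm1 _ hVVf' hVV'
  have hO2' : Sparse (c + 1 + 1) (O ∪ zs 0 w0 ∪ zs 0 wf) := sparse_union hO1 (zs_sparse 0 wf)
  have hO2 : Sparse (c + 2) (O ∪ zs 0 w0 ∪ zs 0 wf) := hO2'
  obtain ⟨wt, hwtS, hwtd, hwtv⟩ := step_pick _ hbig hO2 K' hsm2 _ hVVf' hVV'
  have hwf1 := (disjoint_union_right.1 hwfd)
  have hwt1 := (disjoint_union_right.1 hwtd)
  have hwt2 := (disjoint_union_right.1 hwt1.1)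
  refine ⟨x', fun b => if b then wt else wf, K', hx'l, ?_, ?_, ?_, ?_, ?_, by omega, by omega,
    ?_, hdig, ?_, ?_, ?_, ?_, ?_, ?_, ?_, hw02, hw04⟩
  · rw [hx'n]; exact hw0E
  · rw [hx'n]; exact hw0T
  · rw [hx'n]; exact hw0u
  · intro l hl
    rw [hx'n, hx'l l hl]
    exact hw0V l hl
  · intro v hv
    rw [hx'n]
    exact hw01 v hv
  · rw [hx'n]; omega
  · rw [hx'n]
    exact hK0 K' (by omega)
  · intro b
    cases b
    · exact hwfS
    · exact hwtS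
  · intro b
    cases b
    · exact hwf1.1
    · exact hwt2.1
  · intro b
    rw [hx'n]
    cases b
    · exact hwf1.2
    · exact hwt2.2
  · exact (hwt1.2.mono_right (zs_anti wf (Nat.zero_le K'))).symm
  · intro v hv b
    cases b
    · exact hwfv v (Or.inl hv)
    · exact hwtv v (Or.inl hv)
  · intro b
    rw [hx'n]
    cases b
    · exact hwfv _ (Or.inr rfl)
    · exact hwtv _ (Or.inr rfl)

end Pool.Agent.Linf
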