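import Pool.Agent.Helper93.Linf.LDefs

/-!
# MP_2ac9e4_an: the notions of the final statement
-/

namespace Pool.Agent.Linf

open MeasureTheory

/-- A probability on the sigma-algebra generated by the open sets of the topology `t` on `X`:
a countably additive measure of total mass one. -/
structure BorelProb {X : Type} (t : TopologicalSpace X) where
  /-- the measure -/
  meas : @Measure X (@borel X t)
  /-- its total mass is one -/
  mass : meas Set.univ = 1

/-- `ν` extends `μ`: they agree on every Borel set of the topology `t` of `μ`. -/
def Extends {X : Type} {t t' : TopologicalSpace X} (ν : BorelProb t') (μ : BorelProb t) : Prop :=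
  ∀ A : Set X, MeasurableSet[@borel X t] A → ν.meas A = μ.meas A

/-- `f` is a continuous linear functional on the normed space `X`. -/
def IsFunctional (X : Type) [NormedAddCommGroup X] [NormedSpace ℝ X] (f : X → ℝ) : Prop :=
  IsLinearMap ℝ f ∧ Continuous f

/-- The weak topology of a normed space: the coarsest topology for which all continuous linear
functionals are continuous. -/
@[reducible] def weakTop (X : Type) [NormedAddCommGroup X] [NormedSpace ℝ X] :
    TopologicalSpace X :=
  ⨅ (f : X → ℝ) (_ : IsFunctional X f), TopologicalSpace.induced f inferInstance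

/-- The norm topology of a normed space. -/
@[reducible] def normTop (X : Type) [NormedAddCommGroup X] : TopologicalSpace X := inferInstance

/-- a continuous linear functional, bundled -/
theorem IsFunctional.exists_clm {X : Type} [NormedAddCommGroup X] [NormedSpace ℝ X] {f : X → ℝ}
    (hf : IsFunctional X f) : ∃ L : X →L[ℝ] ℝ, ∀ x, L x = f x :=
  ⟨⟨hf.1.mk' f, hf.2⟩, fun _ => rfl⟩

theorem isFunctional_clm {X : Type} [NormedAddCommGroup X] [NormedSpace ℝ X] (L : X →L[ℝ] ℝ) :
    IsFunctional X (fun x => L x) :=
  ⟨⟨fun x y => L.map_add x y, fun c x => L.map_smul c x⟩, L.continuous⟩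

theorem weakTop_eq (X : Type) [NormedAddCommGroup X] [NormedSpace ℝ X] : weakTop X =
    TopologicalSpace.induced (toWeakSpace ℝ X) inferInstance := by
  apply le_antisymm
  · rw [← continuous_iff_le_induced]
    refine @WeakBilin.continuous_of_continuous_eval X ℝ X (X →L[ℝ] ℝ) _ _ _ _ _ _
      (topDualPairing ℝ X).flip (weakTop X) (toWeakSpace ℝ X) (fun L => ?_)
    rw [continuous_iff_le_induced]
    exact iInf₂_le (fun x => L x) (isFunctional_clm L)
  · refine le_iInf₂ (fun f hf => ?_)
    obtain ⟨L, hL⟩ := hf.exists_clm
    have h : Continuous (fun x : WeakSpace ℝ X => (topDualPairing ℝ X).flip ((toWeakSpace ℝ X).symm x) L) :=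
      WeakBilin.eval_continuous (topDualPairing ℝ X).flip L
    have h2 : f = (fun x : WeakSpace ℝ X => (topDualPairing ℝ X).flip ((toWeakSpace ℝ X).symm x) L) ∘
        (toWeakSpace ℝ X) := by
      funext x
      exact (hL x).symm
    rw [h2, ← induced_compose]
    exact induced_mono (continuous_iff_le_induced.1 h)

end Pool.Agent.Linf
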