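import Pool.Agent.Helper93.Linf.Comb1
import Pool.Agent.Helper93.Linf.Rich
import Pool.Agent.Helper93.Linf.Step

/-! Module TREE of MP_2ac9e4_an: construction of the tree by strong recursion, using `step`. -/

namespace Pool.Agent.Linf

open MeasureTheory Set Filter
open scoped ENNReal Topology

/-- strong recursion with a specification depending on the earlier values only -/
theorem strong_rec {α : Type} [Inhabited α] (S : ℕ → (ℕ → α) → α → Prop)
    (hloc : ∀ j f g y, (∀ i < j, f i = g i) → S j f y → S j g y)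
    (hex : ∀ j f, (∀ i < j, S i f (f i)) → ∃ y, S j f y) :
    ∃ f : ℕ → α, ∀ j, S j f (f j) := by
  classical
  let F : (j : ℕ) → ((i : ℕ) → i < j → α) → α := fun j g =>
    if h : ∃ y, S j (fun i => if hi : i < j then g i hi else default) y then h.choose else default
  let f : ℕ → α := fun j => Nat.strongRecOn j F
  have hf : ∀ j, f j = F j (fun i _ => f i) := fun j => by
    simp only [f]
    exact Nat.strongRecOn_eq _ _
  refine ⟨f, fun j => ?_⟩
  induction j using Nat.strong_induction_on with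
  | _ j ih =>
    have h1 : ∃ y, S j (fun i => if _ : i < j then f i else default) y := by
      obtain ⟨y, hy⟩ := hex j f ih
      refine ⟨y, hloc j f _ y (fun i hi => ?_) hy⟩
      simp [hi]
    have h2 : f j = h1.choose := by
      rw [hf]
      simp only [F]
      rw [dif_pos h1]
    have h3 := h1.choose_spec
    rw [← h2] at h3
    refine hloc j _ f _ (fun i hi => ?_) h3
    simp [hi]

/-- the conditions on the node `y` at place `j`, given the earlier nodes `f i`, `i < j`,
apart from those which relate it to its parent -/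
structure NodeOK (E : Set Om) (T : ℕ → Set Om) (V : ℕ → Om → Set ℕ → ℝ) (mo : ℕ → Om → ℕ)
    (j : ℕ) (f : ℕ → Node) (y : Node) : Prop where
  memE : y.pt ∈ E
  memT : y.pt ∈ T y.lev
  thE : ∀ b, y.th b ∈ E
  KK' : y.K ≤ y.K'
  levK' : y.lev ≤ y.K'
  moK' : mo y.lev y.pt ≤ y.K'
  digit : y.pt.1 y.K' = false
  K'K : ∀ i < j, (f i).K' < y.K
  dpp : ∀ i < j, Disjoint (zs y.K' y.pt) (zs 0 (f i).pt)
  dpw : ∀ i < j, ∀ b, Disjoint (zs y.K' y.pt) (zs 0 ((f i).w b))
  dwp : ∀ i < j, ∀ b, Disjoint (zs y.K' (y.w b)) (zs 0 (f i).pt)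
  dwp0 : ∀ b, Disjoint (zs y.K' (y.w b)) (zs 0 y.pt)
  dww : ∀ i < j, ∀ b c, Disjoint (zs y.K' (y.w b)) (zs 0 ((f i).w c))
  dw : Disjoint (zs y.K' (y.w false)) (zs y.K' (y.w true))
  vp : ∀ i < j, V (f i).lev (f i).pt (zs 0 y.pt) = 0
  vw : ∀ i < j, ∀ b, V (f i).lev (f i).pt (zs 0 (y.w b)) = 0
  vw0 : ∀ b, V y.lev y.pt (zs 0 (y.w b)) = 0
  small : ∀ l < y.lev, V y.lev y.pt (zs 0 (y.x l)) < 2⁻¹ ^ (l + 3)
  rich : Rich E (y.lev + 1) y.x
  full : Full T V (y.lev + 1) y.x

theorem NodeOK.congr {E : Set Om} {T : ℕ → Set Om} {V : ℕ → Om → Set ℕ → ℝ} {mo : ℕ → Om → ℕ}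
    {j : ℕ} {f g : ℕ → Node} {y : Node} (h : ∀ i < j, f i = g i) (hy : NodeOK E T V mo j f y) :
    NodeOK E T V mo j g y where
  memE := hy.memE
  memT := hy.memT
  thE := hy.thE
  KK' := hy.KK'
  levK' := hy.levK'
  moK' := hy.moK'
  digit := hy.digit
  K'K := fun i hi => by rw [← h i hi]; exact hy.K'K i hi
  dpp := fun i hi => by rw [← h i hi]; exact hy.dpp i hi
  dpw := fun i hi => by rw [← h i hi]; exact hy.dpw i hi
  dwp := fun i hi => by rw [← h i hi]; exact hy.dwp i hi
  dwp0 := hy.dwp0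
  dww := fun i hi => by rw [← h i hi]; exact hy.dww i hi
  dw := hy.dw
  vp := fun i hi => by rw [← h i hi]; exact hy.vp i hi
  vw := fun i hi => by rw [← h i hi]; exact hy.vw i hi
  vw0 := hy.vw0
  small := hy.small
  rich := hy.rich
  full := hy.full

theorem sparse_iUnion_lt {c : ℕ} (O : ℕ → Set ℕ) (h : ∀ i, Sparse c (O i)) (m : ℕ) :
    Sparse (m * c) {a | ∃ i < m, a ∈ O i} := by
  induction m with
  | zero =>
    intro k
    simp
  | succ m ih =>
    have h1 : {a | ∃ i < m + 1, a ∈ O i} = {a | ∃ i < m, a ∈ O i} ∪ O m := by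
      ext a
      simp only [mem_union, mem_ofPred_eq]
      constructor
      · rintro ⟨i, hi, ha⟩
        rcases Nat.lt_succ_iff_lt_or_eq.1 hi with h | rfl
        · exact Or.inl ⟨i, h, ha⟩
        · exact Or.inr ha
      · rintro (⟨i, hi, ha⟩ | ha)
        · exact ⟨i, by omega, ha⟩
        · exact ⟨m, by omega, ha⟩
    rw [h1, Nat.succ_mul]
    exact sparse_union ih (h m)

theorem exists_node (E : Set Om) (hE : IsClosed E)
    (hsupp : ∀ u ∈ E, ∀ K, P {w | w ∈ E ∧ agree K w u} ≠ 0)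
    (T : ℕ → Set Om) (V : ℕ → Om → Set ℕ → ℝ) (hV : ∀ n w, IsSubm (V n w)) (mo : ℕ → Om → ℕ)
    (j : ℕ) (f : ℕ → Node) (n : ℕ) (x : ℕ → Om) (hR : Rich E n x) (hF : Full T V n x)
    (u : Om) (hu : u ∈ E) :
    ∃ y : Node, y.lev = n ∧ (∀ l < n, y.x l = x l) ∧ agree y.K y.pt u ∧
      NodeOK E T V mo j f y := by
  classical
  set O : Set ℕ := {a | ∃ i < j, a ∈ (zs 0 (f i).pt ∪ zs 0 ((f i).w false)) ∪
    zs 0 ((f i).w true)} with hO
  have hOs : Sparse (j * (1 + 1 + 1)) O := sparse_iUnion_lt _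
    (fun i => sparse_union (sparse_union (zs_sparse 0 _) (zs_sparse 0 _)) (zs_sparse 0 _)) j
  set VV : Set (Set ℕ → ℝ) := (fun i => V (f i).lev (f i).pt) '' (Iio j) with hVVd
  have hVVf : VV.Finite := (finite_Iio j).image _
  have hVV : ∀ v ∈ VV, IsSubm v := by
    rintro _ ⟨i, -, rfl⟩
    exact hV _ _
  obtain ⟨x', w, K', h1, h2, h3, h4, h5, h6, h7, h8, h9, h10, h11, h12, h13, h14, h15, h16, h17,
    h18, h19⟩ := step E hE hsupp T V hV mo n x hR hF u hu
      (1 + ∑ i ∈ Finset.range j, (f i).K') _ O hOs VV hVVf hVV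
  have hOp : ∀ i < j, zs 0 (f i).pt ⊆ O := fun i hi a ha => ⟨i, hi, Or.inl (Or.inl ha)⟩
  have hOw : ∀ i < j, ∀ b, zs 0 ((f i).w b) ⊆ O := by
    intro i hi b a ha
    cases b
    · exact ⟨i, hi, Or.inl (Or.inr ha)⟩
    · exact ⟨i, hi, Or.inr ha⟩
  refine ⟨⟨n, x', w, 1 + ∑ i ∈ Finset.range j, (f i).K', K'⟩, rfl, h1, h4, ?_⟩
  exact {
    memE := h2
    memT := h3
    thE := h12
    KK' := h7
    levK' := h8
    moK' := h9
    digit := h10
    K'K := fun i hi => by
      have := Finset.single_le_sum (f := fun i => (f i).K') (fun _ _ => Nat.zero_le _)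
        (Finset.mem_range.2 hi)
      show (f i).K' < 1 + ∑ i ∈ Finset.range j, (f i).K'
      have h' : (f i).K' ≤ ∑ i ∈ Finset.range j, (f i).K' := this
      omega
    dpp := fun i hi => h11.mono_right (hOp i hi)
    dpw := fun i hi b => h11.mono_right (hOw i hi b)
    dwp := fun i hi b => (h13 b).mono_right (hOp i hi)
    dwp0 := h14
    dww := fun i hi b c => (h13 b).mono_right (hOw i hi c)
    dw := h15
    vp := fun i hi => h6 _ ⟨i, hi, rfl⟩
    vw := fun i hi b => h16 _ ⟨i, hi, rfl⟩ b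
    vw0 := h17
    small := h5
    rich := h18
    full := h19 }

theorem lt_child (j : ℕ) (b : Bool) : j < child j b := by
  unfold child; omega

theorem child_inj {i j : ℕ} {b c : Bool} (h : child i b = child j c) : i = j ∧ b = c := by
  unfold child at h
  cases b <;> cases c <;> simp at h ⊢ <;> omega

theorem exists_child {j : ℕ} (hj : j ≠ 0) : ∃ p b, j = child p b := by
  rcases Nat.even_or_odd' j with ⟨c, rfl | rfl⟩
  · refine ⟨c - 1, true, ?_⟩
    unfold child
    simp only [Bool.toNat_true]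
    omega
  · exact ⟨c, false, by unfold child; simp⟩

theorem tree (E : Set Om) (hE : IsClosed E) (hne : E.Nonempty)
    (hsupp : ∀ u ∈ E, ∀ K, P {w | w ∈ E ∧ agree K w u} ≠ 0)
    (T : ℕ → Set Om) (hT : ∀ n, P (T n) = 1)
    (V : ℕ → Om → Set ℕ → ℝ) (hV : ∀ n w, IsSubm (V n w)) (mo : ℕ → Om → ℕ) :
    ∃ nd : ℕ → Node, TreeSpec E T V mo nd := by
  obtain ⟨nd, hnd⟩ := strong_rec (α := Node)
    (fun j f y => (j = 0 → y.lev = 0) ∧
      (∀ p b, j = child p b → y.lev = (f p).lev + 1 ∧ (∀ l ≤ (f p).lev, y.x l = (f p).x l) ∧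
        agree y.K y.pt ((f p).th b)) ∧ NodeOK E T V mo j f y)
    (by
      rintro j f g y h ⟨h0, h1, h2⟩
      refine ⟨h0, fun p b hj => ?_, h2.congr h⟩
      have hp : p < j := hj ▸ lt_child p b
      rw [← h p hp]
      exact h1 p b hj)
    (by
      intro j f hf
      rcases eq_or_ne j 0 with rfl | hj
      · obtain ⟨u, hu⟩ := hne
        obtain ⟨y, h1, -, -, h4⟩ := exists_node E hE hsupp T V hV mo 0 f 0 (fun _ => u)
          (rich_zero hE _) (fun m => by simpa using hT m) u hu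
        refine ⟨y, fun _ => h1, fun p b h => ?_, h4⟩
        have := lt_child p b
        omega
      · obtain ⟨p, b, hpb⟩ := exists_child hj
        have hp : p < j := hpb ▸ lt_child p b
        obtain ⟨-, -, hok⟩ := hf p hp
        obtain ⟨y, h1, h2, h3, h4⟩ := exists_node E hE hsupp T V hV mo j f ((f p).lev + 1)
          (f p).x hok.rich hok.full ((f p).th b) (hok.thE b)
        refine ⟨y, fun h => absurd h hj, fun q c h => ?_, h4⟩
        obtain ⟨rfl, rfl⟩ := child_inj (hpb.symm.trans h)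
        exact ⟨h1, fun l hl => h2 l (by omega), h3⟩)
  refine ⟨nd, ?_⟩
  exact {
    root := (hnd 0).1 rfl
    lev := fun j b => ((hnd (child j b)).2.1 j b rfl).1
    hist := fun j b => ((hnd (child j b)).2.1 j b rfl).2.1
    near := fun j b => ((hnd (child j b)).2.1 j b rfl).2.2
    memE := fun j => (hnd j).2.2.memE
    memT := fun j => (hnd j).2.2.memT
    thE := fun j => (hnd j).2.2.thE
    KK' := fun j => (hnd j).2.2.KK'
    levK' := fun j => (hnd j).2.2.levK'
    moK' := fun j => (hnd j).2.2.moK'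
    digit := fun j => (hnd j).2.2.digit
    K'K := fun i j h => (hnd j).2.2.K'K i h
    dpp := fun i j h => (hnd j).2.2.dpp i h
    dpw := fun i j b h => (hnd j).2.2.dpw i h b
    dwp := fun i j b h => by
      rcases eq_or_lt_of_le h with rfl | h
      · exact (hnd i).2.2.dwp0 b
      · exact (hnd j).2.2.dwp i h b
    dww := fun i j b c h => (hnd j).2.2.dww i h b c
    dw := fun j => (hnd j).2.2.dw
    vp := fun i j h => (hnd j).2.2.vp i h
    vw := fun i j b h => by
      rcases eq_or_lt_of_le h with rfl | h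
      · exact (hnd i).2.2.vw0 b
      · exact (hnd j).2.2.vw i h b
    small := fun j => (hnd j).2.2.small }

end Pool.Agent.Linf
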